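import Pool.Agent.MP_d0fd9b_nt.S72.Base

set_option autoImplicit false

namespace Pool.Agent.MP_d0fd9b_nt.S72

open Finset NumberField H72

section
variable {α : Type} {P : α → Prop} {R R' : α → α → Prop} {c c' : ℕ}

lemma t1_seq (h : Cov P R c) (h' : ∀ P' : α → Prop, (∀ x, P' x → P x) →
    (∀ x y, P' x → P' y → R x y) → Cov P' R' c') : Cov P (fun x y => R x y ∧ R' x y) (c * c') :=
  fun S hS K hK => by
    rw [mul_assoc]
    exact h S hS _ fun T hT h2 => h' (· ∈ T) (fun x hx => hS x (hT hx))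
      (fun x y hx hy => h2 x hx y hy) T (fun x hx => hx) K fun U hU h3 =>
      hK U (hU.trans hT) fun x hx y hy => ⟨h2 x (hU hx) y (hU hy), h3 x hx y hy⟩

lemma t1_dig0 (f : α → ℤ) {q s : ℕ} (hq : 0 < q) (hs : 0 < s)
    (h : ∀ a b, P a → P b → (q : ℤ) ∣ f b - f a) :
    Cov P (fun a b => ((q * s : ℕ) : ℤ) ∣ f b - f a) s := by
  have hq' : (0 : ℤ) < q := by exact_mod_cast hq
  have hQ : (0 : ℤ) < (q * s : ℕ) := by exact_mod_cast Nat.mul_pos hq hs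
  have := Cov.of_label (P := P) (R := fun a b => ((q * s : ℕ) : ℤ) ∣ f b - f a)
    (fun a => f a % ((q * s : ℕ) : ℤ) / q) (Ico (0 : ℤ) s) (fun a _ => mem_Ico.2
      ⟨Int.ediv_nonneg (Int.emod_nonneg _ hQ.ne') hq'.le, by
        rw [Int.ediv_lt_iff_lt_mul hq']
        have := Int.emod_lt_of_pos (f a) hQ
        push_cast at this ⊢
        linarith [mul_comm (q : ℤ) s]⟩) fun a b ha hb e => by
      have d : (q : ℤ) ∣ ((q * s : ℕ) : ℤ) := ⟨s, by push_cast; rfl⟩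
      have e2 : f a % ((q * s : ℕ) : ℤ) % q = f b % ((q * s : ℕ) : ℤ) % q := by
        rw [Int.emod_emod_of_dvd _ d, Int.emod_emod_of_dvd _ d]
        exact Int.modEq_iff_dvd.2 (h a b ha hb)
      have e3 : f a % ((q * s : ℕ) : ℤ) = f b % ((q * s : ℕ) : ℤ) := by
        rw [← Int.emod_add_mul_ediv (f a % _) q, ← Int.emod_add_mul_ediv (f b % _) q, e2, e]
      exact Int.modEq_iff_dvd.1 e3
  simpa using this

lemma t1_dig (f : α → ℤ) {l r M : ℕ} (hl : 0 < l) (hr : r ≤ M)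
    (h : ∀ a b, P a → P b → (l : ℤ) ^ r ∣ f b - f a) :
    Cov P (fun a b => (l : ℤ) ^ M ∣ f b - f a) (l ^ (M - r)) := by
  have := t1_dig0 (P := P) f (pow_pos hl r) (pow_pos hl (M - r)) (by simpa using h)
  rw [← pow_add, Nat.add_sub_cancel' hr] at this
  simpa using this

lemma t1_val (D : α → ℕ → Prop) (h0 : ∀ a, D a 0) (k : ℕ)
    (h : ∀ j ≤ k, Cov (fun a => P a ∧ D a j ∧ (j < k → ¬ D a (j + 1))) R c) :
    Cov P R ((k + 1) * c) := by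
  classical
  have := Cov.split (P := P) (R := R) (c := c) (fun a => Nat.findGreatest (D a) k) (range (k + 1))
    (fun a _ => mem_range.2 (Nat.lt_succ_of_le (Nat.findGreatest_le k))) fun j hj =>
    (h j (Nat.lt_succ_iff.1 (mem_range.1 hj))).mono (fun a ha => ⟨ha.1, by
      rw [← ha.2]
      exact Nat.findGreatest_spec (Nat.zero_le k) (h0 a), fun hk =>
      Nat.findGreatest_is_greatest (by rw [ha.2]; exact Nat.lt_succ_self j) hk⟩)
      (fun _ _ _ _ h => h) le_rfl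
  rwa [card_range] at this

lemma t1_eq {Q a b : ℤ} (h : Q ∣ a) (e : a = b) : Q ∣ b := e ▸ h

lemma t1_cop {l : ℕ} (hl : l.Prime) {a : ℤ} (ha : ¬ (l : ℤ) ∣ a) (t : ℕ) :
    IsCoprime ((l : ℤ) ^ t) a :=
  ((Nat.prime_iff_prime_int.1 hl).irreducible.coprime_iff_not_dvd.2 ha).pow_left

lemma t1_chx {l t M : ℕ} (hl : l.Prime) {A m : ℤ} (hA : ¬ (l : ℤ) ∣ A) (ht : t ≤ M)
    (la mu : α → ℤ) (h : ∀ a, P a → (l : ℤ) ^ t ∣ m * mu a ^ 2 - A * la a) :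
    Cov P (fun a b => (l : ℤ) ^ M ∣ mu b - mu a ∧ (l : ℤ) ^ M ∣ la b - la a)
      ((t + 1) * l ^ (2 * M - t)) := by
  refine (t1_seq (t1_dig mu hl.pos (Nat.zero_le M) (by simp)) fun P' h1 h2 =>
    t1_dig la hl.pos ht fun a b ha hb => ?_).mono (fun _ h => h) (fun _ _ _ _ h => h) ?_
  · refine (t1_cop hl hA t).dvd_of_dvd_mul_left ?_
    have := dvd_add (dvd_sub (h a (h1 a ha)) (h b (h1 b hb)))
      (((pow_dvd_pow _ ht).trans (h2 a b ha hb)).mul_left (m * (mu b + mu a)))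
    exact t1_eq this (by ring)
  · rw [← pow_add, show M - 0 + (M - t) = 2 * M - t by omega]
    exact Nat.le_mul_of_pos_left _ (Nat.succ_pos t)

lemma t1_chz {l t M : ℕ} (hl : l.Prime) {A m : ℤ} (hA : ¬ (l : ℤ) ∣ A) (ht : t ≤ M)
    (la mu : α → ℤ) (h : ∀ a, P a → (l : ℤ) ^ t ∣ m - A * la a * mu a) :
    Cov P (fun a b => (l : ℤ) ^ M ∣ la b - la a ∧ (l : ℤ) ^ M ∣ mu b - mu a)
      ((t + 1) * l ^ (2 * M - t)) := by
  refine t1_val (fun a i => (l : ℤ) ^ i ∣ la a) (by simp) t fun i hi => ?_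
  refine (t1_seq (t1_dig la hl.pos (hi.trans ht) fun a b ha hb => dvd_sub hb.2.1 ha.2.1)
    fun P' h1 h2 => t1_dig (r := t - i) mu hl.pos (by omega) fun a b ha hb => ?_).mono
    (fun _ h => h) (fun _ _ _ _ h => h) ?_
  · rcases hi.eq_or_lt with rfl | hlt
    · simp
    obtain ⟨u, hu⟩ := (h1 a ha).2.1
    have hu' : ¬ (l : ℤ) ∣ u := fun hd => (h1 a ha).2.2 hlt (by
      rw [hu, pow_succ]
      exact mul_dvd_mul_left _ hd)
    have d := dvd_sub (dvd_sub (h a (h1 a ha).1) (h b (h1 b hb).1))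
      (((pow_dvd_pow _ ht).trans (h2 a b ha hb)).mul_left (A * mu b))
    have e : m - A * la a * mu a - (m - A * la b * mu b) - A * mu b * (la b - la a) =
        (l : ℤ) ^ i * (A * (u * (mu b - mu a))) := by rw [hu]; ring
    have hp : (l : ℤ) ^ i ≠ 0 := pow_ne_zero _ (by exact_mod_cast hl.ne_zero)
    rw [e, show t = i + (t - i) by omega, pow_add, mul_dvd_mul_iff_left hp] at d
    exact (t1_cop hl hu' _).dvd_of_dvd_mul_left ((t1_cop hl hA _).dvd_of_dvd_mul_left d)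
  · rw [← pow_add, show M - i + (M - (t - i)) = 2 * M - t by omega]

lemma t1_inv {l : ℕ} (hl : l.Prime) (M : ℕ) (w : α → ℤ) :
    ∃ u : α → ℤ, ∀ a, ¬ (l : ℤ) ∣ w a → (l : ℤ) ^ M ∣ 1 - u a * w a := by
  have : ∀ a, ∃ u : ℤ, ¬ (l : ℤ) ∣ w a → (l : ℤ) ^ M ∣ 1 - u * w a := fun a => by
    by_cases h : (l : ℤ) ∣ w a
    · exact ⟨0, fun h' => absurd h h'⟩
    · obtain ⟨r, s, e⟩ := t1_cop hl h M
      exact ⟨s, fun _ => ⟨r, by linear_combination -e⟩⟩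
  exact ⟨fun a => (this a).choose, fun a => (this a).choose_spec⟩

lemma t1_rel {Q w' u u' y y' : ℤ} (h : Q ∣ 1 - u' * w') (h' : Q ∣ y' * u' - y * u) :
    Q ∣ y' - w' * u * y := by
  have := dvd_add (h.mul_left y') (h'.mul_left w')
  exact t1_eq this (by ring)

lemma t1_rel0 {Q w w' u : ℤ} (h : Q ∣ 1 - u * w) : Q ∣ w' - w' * u * w := by
  exact t1_eq (h.mul_left w') (by ring)

lemma t1_px {l t M : ℕ} (hl : l.Prime) {A m : ℤ} (hA : ¬ (l : ℤ) ∣ A) (ht : t ≤ M)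
    (x y z : α → ℤ) (h : ∀ a, P a → (l : ℤ) ^ t ∣ m * z a ^ 2 - A * x a * y a ∧ ¬ (l : ℤ) ∣ x a) :
    Cov P (fun a b => ∃ j : ℤ, (l : ℤ) ^ M ∣ x b - j * x a ∧ (l : ℤ) ^ M ∣ y b - j * y a ∧
      (l : ℤ) ^ M ∣ z b - j * z a) ((t + 1) * l ^ (2 * M - t)) := by
  obtain ⟨u, hu⟩ := t1_inv hl M x
  refine (t1_chx (P := P) (m := m) hl hA ht (fun a => y a * u a) (fun a => z a * u a)
    fun a ha => ?_).mono (fun _ h => h) (fun a b ha hb h' => ⟨x b * u a, t1_rel0 (hu a (h a ha).2),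
      t1_rel (hu b (h b hb).2) h'.2, t1_rel (hu b (h b hb).2) h'.1⟩) le_rfl
  have := dvd_sub ((h a ha).1.mul_left (u a ^ 2))
    (((pow_dvd_pow _ ht).trans (hu a (h a ha).2)).mul_left (A * (y a * u a)))
  exact t1_eq this (by ring)

lemma t1_pz {l t M : ℕ} (hl : l.Prime) {A m : ℤ} (hA : ¬ (l : ℤ) ∣ A) (ht : t ≤ M)
    (x y z : α → ℤ) (h : ∀ a, P a → (l : ℤ) ^ t ∣ m * z a ^ 2 - A * x a * y a ∧ ¬ (l : ℤ) ∣ z a) :
    Cov P (fun a b => ∃ j : ℤ, (l : ℤ) ^ M ∣ x b - j * x a ∧ (l : ℤ) ^ M ∣ y b - j * y a ∧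
      (l : ℤ) ^ M ∣ z b - j * z a) ((t + 1) * l ^ (2 * M - t)) := by
  obtain ⟨u, hu⟩ := t1_inv hl M z
  refine (t1_chz (P := P) (m := m) hl hA ht (fun a => x a * u a) (fun a => y a * u a)
    fun a ha => ?_).mono (fun _ h => h) (fun a b ha hb h' => ⟨z b * u a,
      t1_rel (hu b (h b hb).2) h'.1, t1_rel (hu b (h b hb).2) h'.2,
      t1_rel0 (hu a (h a ha).2)⟩) le_rfl
  have := dvd_add ((h a ha).1.mul_left (u a ^ 2))
    (((pow_dvd_pow _ ht).trans (hu a (h a ha).2)).mul_left (m * (1 + u a * z a)))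
  exact t1_eq this (by ring)

lemma t1_prim {l t M : ℕ} (hl : l.Prime) {A m : ℤ} (hA : ¬ (l : ℤ) ∣ A) (ht : t ≤ M)
    (x y z : α → ℤ) (h : ∀ a, P a → (l : ℤ) ^ t ∣ m * z a ^ 2 - A * x a * y a ∧
      ¬ ((l : ℤ) ∣ x a ∧ (l : ℤ) ∣ y a ∧ (l : ℤ) ∣ z a)) :
    Cov P (fun a b => ∃ j : ℤ, (l : ℤ) ^ M ∣ x b - j * x a ∧ (l : ℤ) ^ M ∣ y b - j * y a ∧
      (l : ℤ) ^ M ∣ z b - j * z a) (3 * ((t + 1) * l ^ (2 * M - t))) := by
  classical
  refine Cov.split (fun a => if (l : ℤ) ∣ x a then if (l : ℤ) ∣ y a then (2 : Fin 3) else 1 else 0)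
    univ (fun _ _ => mem_univ _) fun b _ => ?_
  fin_cases b
  · refine t1_px (m := m) hl hA ht x y z fun a ha => ⟨(h a ha.1).1, fun hx => ?_⟩
    have := ha.2
    rw [if_pos hx] at this
    split_ifs at this <;> simp at this
  · refine (t1_px (P := fun a => P a ∧ ¬ (l : ℤ) ∣ y a) (m := m) hl hA ht y x z fun a ha =>
      ⟨by rw [mul_right_comm]; exact (h a ha.1).1, ha.2⟩).mono (fun a ha => ⟨ha.1, fun hy => ?_⟩)
      (fun a b _ _ ⟨j, h1, h2, h3⟩ => ⟨j, h2, h1, h3⟩) le_rfl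
    have := ha.2
    rw [if_pos hy] at this
    split_ifs at this <;> simp at this
  · refine t1_pz (m := m) hl hA ht x y z fun a ha => ⟨(h a ha.1).1, fun hz => ?_⟩
    have := ha.2
    split_ifs at this with hx hy
    · exact (h a ha.1).2 ⟨hx, hy, hz⟩
    · simp at this
    · simp at this

lemma t1_core {l k : ℕ} (hl : l.Prime) {A m : ℤ} (hA : ¬ (l : ℤ) ∣ A)
    (x y z : α → ℤ) (h : ∀ a, P a → (l : ℤ) ^ k ∣ m * z a ^ 2 - A * x a * y a) :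
    Cov P (fun a b => ∃ j : ℤ, (l : ℤ) ^ k ∣ x b - j * x a ∧ (l : ℤ) ^ k ∣ y b - j * y a ∧
      (l : ℤ) ^ k ∣ z b - j * z a) ((k + 1) * (3 * ((k + 1) * l ^ k))) := by
  refine t1_val (fun a j => (l : ℤ) ^ j ∣ x a ∧ (l : ℤ) ^ j ∣ y a ∧ (l : ℤ) ^ j ∣ z a) (by simp) k
    fun j hj => ?_
  rcases hj.eq_or_lt with rfl | hlt
  · refine (Cov.one fun a b _ hb => ⟨0, by simpa using hb.2.1⟩).mono (fun _ h => h)
      (fun _ _ _ _ h => h) (Nat.succ_le_of_lt ?_)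
    have := pow_pos hl.pos j
    positivity
  have hp : (l : ℤ) ^ j ≠ 0 := pow_ne_zero _ (by exact_mod_cast hl.ne_zero)
  have up : ∀ {w w' c : ℤ}, (l : ℤ) ^ j ∣ w → (l : ℤ) ^ j ∣ w' →
      (l : ℤ) ^ (k - j) ∣ w' / l ^ j - c * (w / l ^ j) → (l : ℤ) ^ k ∣ w' - c * w := by
    rintro _ _ c ⟨w, rfl⟩ ⟨w', rfl⟩ h
    rw [Int.mul_ediv_cancel_left _ hp, Int.mul_ediv_cancel_left _ hp] at h
    rw [show k = j + (k - j) by omega, pow_add]
    exact t1_eq (mul_dvd_mul_left ((l : ℤ) ^ j) h) (by ring)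
  have dn : ∀ {w : ℤ}, (l : ℤ) ^ j ∣ w → (l : ℤ) ∣ w / l ^ j → (l : ℤ) ^ (j + 1) ∣ w := by
    rintro _ ⟨w, rfl⟩ h
    rw [Int.mul_ediv_cancel_left _ hp] at h
    rw [pow_succ]
    exact mul_dvd_mul_left _ h
  refine (t1_prim (m := m) (t := k - 2 * j) (M := k - j) hl hA (by omega) (fun a => x a / l ^ j)
    (fun a => y a / l ^ j) (fun a => z a / l ^ j) fun a ha => ⟨?_, fun hd =>
      ha.2.2 hlt ⟨dn ha.2.1.1 hd.1, dn ha.2.1.2.1 hd.2.1, dn ha.2.1.2.2 hd.2.2⟩⟩).mono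
    (fun _ h => h) (fun a b ha hb ⟨c, h1, h2, h3⟩ => ⟨c, up ha.2.1.1 hb.2.1.1 h1,
      up ha.2.1.2.1 hb.2.1.2.1 h2, up ha.2.1.2.2 hb.2.1.2.2 h3⟩) ?_
  · rcases le_total k (2 * j) with h2 | h2
    · simp [Nat.sub_eq_zero_of_le h2]
    obtain ⟨⟨x0, hx⟩, ⟨y0, hy⟩, ⟨z0, hz⟩⟩ := ha.2.1
    have d := h a ha.1
    rw [hx, hy, hz] at d ⊢
    simp only [Int.mul_ediv_cancel_left _ hp]
    rw [show m * (l ^ j * z0) ^ 2 - A * (l ^ j * x0) * (l ^ j * y0) =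
      (l : ℤ) ^ j * (l ^ j * (m * z0 ^ 2 - A * x0 * y0)) by ring,
      show k = j + (j + (k - 2 * j)) by omega, pow_add, pow_add, mul_dvd_mul_iff_left hp,
      mul_dvd_mul_iff_left hp] at d
    exact d
  · exact Nat.mul_le_mul_left _ (Nat.mul_le_mul (by omega)
      (Nat.pow_le_pow_right hl.pos (by omega)))

end

theorem bad_cov (n : Fin 3 → ℤ) (m : ℤ) {B : ℕ} (hB : B ≠ 0)
    (h : ∀ l : ℕ, l.Prime → l ∣ B → ∃ i, ¬ (l : ℤ) ∣ n i) :
    Cov (fun p : Fin 3 → ℤ => ∀ i, (B : ℤ) ∣ Qd n m p i)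
      (fun p p' => ∃ j : ℤ, ∀ i, (B : ℤ) ∣ p' i - j * p i) (#B.divisors ^ 4 * B) := by
  induction B using Nat.recOnPosPrimePosCoprime with
  | zero => exact absurd rfl hB
  | one => simpa using Cov.one fun _ _ _ _ => trivial
  | prime_pow l k hl hk =>
    obtain ⟨i, hi⟩ := h l hl (dvd_pow_self l hk.ne')
    refine (t1_core (P := fun p : Fin 3 → ℤ => ∀ i, ((l ^ k : ℕ) : ℤ) ∣ Qd n m p i) (m := m)
      (k := k) hl hi (fun p => p (i + 1)) (fun p => p (i + 2)) (fun p => p i)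
      fun p hp => by simpa [Qd] using hp i).mono (fun _ h => h)
      (fun p p' _ _ ⟨j, h1, h2, h3⟩ => ⟨j, fun i' => ?_⟩) ?_
    · have : i' = i + 1 ∨ i' = i + 2 ∨ i' = i :=
        (by decide : ∀ i i' : Fin 3, i' = i + 1 ∨ i' = i + 2 ∨ i' = i) i i'
      push_cast
      rcases this with rfl | rfl | rfl <;> assumption
    · rw [Nat.divisors_prime_pow hl, card_map, card_range]
      have h4 : 3 ≤ (k + 1) ^ 2 := by nlinarith
      calc (k + 1) * (3 * ((k + 1) * l ^ k)) = 3 * ((k + 1) ^ 2 * l ^ k) := by ring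
        _ ≤ (k + 1) ^ 2 * ((k + 1) ^ 2 * l ^ k) := Nat.mul_le_mul_right _ h4
        _ = (k + 1) ^ 4 * l ^ k := by ring
  | coprime a b ha hb hab iha ihb =>
    have h1 := (iha (by omega) fun l hl hd => h l hl (hd.mul_right b)).mono
      (P' := fun p : Fin 3 → ℤ => ∀ i, ((a * b : ℕ) : ℤ) ∣ Qd n m p i)
      (fun p hp i => (Int.natCast_dvd_natCast.2 (dvd_mul_right a b)).trans (hp i))
      (fun _ _ _ _ h => h) le_rfl
    have h2 := (ihb (by omega) fun l hl hd => h l hl (hd.mul_left a)).mono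
      (P' := fun p : Fin 3 → ℤ => ∀ i, ((a * b : ℕ) : ℤ) ∣ Qd n m p i)
      (fun p hp i => (Int.natCast_dvd_natCast.2 (dvd_mul_left b a)).trans (hp i))
      (fun _ _ _ _ h => h) le_rfl
    have hc : IsCoprime (a : ℤ) b := Nat.isCoprime_iff_coprime.2 hab
    obtain ⟨u, v, e⟩ := id hc
    refine (h1.and h2).mono (fun _ h => h) (fun p p' _ _ ⟨⟨j1, d1⟩, ⟨j2, d2⟩⟩ =>
      ⟨j1 * (v * b) + j2 * (u * a), fun i => ?_⟩) (le_of_eq ?_)
    · push_cast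
      refine hc.mul_dvd ?_ ?_
      · exact t1_eq (dvd_add (d1 i) (dvd_mul_right (a : ℤ) (u * (j1 - j2) * p i)))
          (by linear_combination (j1 * p i) * e)
      · exact t1_eq (dvd_add (d2 i) (dvd_mul_right (b : ℤ) (v * (j2 - j1) * p i)))
          (by linear_combination (j2 * p i) * e)
    · rw [hab.card_divisors_mul]
      ring

end Pool.Agent.MP_d0fd9b_nt.S72
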