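import Pool.Agent.MP_d0fd9b_nt.S72.Base

set_option autoImplicit false

namespace Pool.Agent.MP_d0fd9b_nt.S72

open Finset NumberField H72

lemma t5_div {O : Type} [CommRing O] [IsDomain O] [IsIntegrallyClosed O] {c x n δ : O} (h0 : c ≠ 0)
    (h2 : δ ^ 2 = c * x * δ - c ^ 2 * n) : ∃ γ, c * γ = δ := by
  have inj : Function.Injective (algebraMap O (FractionRing O)) := IsFractionRing.injective _ _
  have h1 : algebraMap O (FractionRing O) c ≠ 0 := (map_ne_zero_iff _ inj).2 h0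
  have h3 : IsIntegral O (algebraMap O (FractionRing O) δ / algebraMap O (FractionRing O) c) := by
    refine ⟨Polynomial.X ^ 2 - Polynomial.C x * Polynomial.X + Polynomial.C n, by monicity!, ?_⟩
    have h4 := congrArg (algebraMap O (FractionRing O)) h2
    simp only [map_pow, map_mul, map_sub] at h4
    simp only [Polynomial.eval₂_add, Polynomial.eval₂_sub, Polynomial.eval₂_mul,
      Polynomial.eval₂_X_pow, Polynomial.eval₂_C, Polynomial.eval₂_X]
    field_simp
    linear_combination h4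
  obtain ⟨γ, hγ⟩ := (IsIntegrallyClosed.isIntegral_iff (R := O) (K := FractionRing O)).1 h3
  exact ⟨γ, inj (by rw [map_mul, hγ]; field_simp)⟩

/-- The algebraic integer `(x + y √e) / 2`. -/
lemma t5_gamma {A b f e n x y : ℤ} [IsDedekindDomain (QuadraticAlgebra ℤ A b)] (hf : f ≠ 0)
    (hd : b ^ 2 + 4 * A = f ^ 2 * e) (h : x ^ 2 - e * y ^ 2 = 4 * n) :
    ∃ γ : QuadraticAlgebra ℤ A b, 2 * γ.re + b * γ.im = x ∧ f * γ.im = y ∧
      γ ^ 2 = (x : QuadraticAlgebra ℤ A b) * γ - n := by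
  have h0 : ((2 * f : ℤ) : QuadraticAlgebra ℤ A b) ≠ 0 := fun h => by
    have := congrArg QuadraticAlgebra.re h
    simp only [QuadraticAlgebra.re_intCast, QuadraticAlgebra.re_zero, Int.cast_id] at this
    omega
  have h2 : (⟨f * x - b * y, 2 * y⟩ : QuadraticAlgebra ℤ A b) ^ 2 = ((2 * f : ℤ) : _) * (x : _) *
      ⟨f * x - b * y, 2 * y⟩ - ((2 * f : ℤ) : QuadraticAlgebra ℤ A b) ^ 2 * n := by
    rw [pow_two, pow_two, ← Int.cast_mul, ← Int.cast_mul, ← Int.cast_mul]
    ext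
    · simp only [QuadraticAlgebra.re_mul, QuadraticAlgebra.re_sub, QuadraticAlgebra.re_intCast,
        QuadraticAlgebra.im_intCast, Int.cast_id]
      linear_combination y ^ 2 * hd - f ^ 2 * h
    · simp only [QuadraticAlgebra.im_mul, QuadraticAlgebra.im_sub, QuadraticAlgebra.re_intCast,
        QuadraticAlgebra.im_intCast, Int.cast_id]
      ring
  obtain ⟨γ, h5⟩ := t5_div h0 h2
  have h6 := congrArg QuadraticAlgebra.re h5
  have h7 := congrArg QuadraticAlgebra.im h5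
  simp only [QuadraticAlgebra.re_mul, QuadraticAlgebra.im_mul, QuadraticAlgebra.re_intCast,
    QuadraticAlgebra.im_intCast, Int.cast_id] at h6 h7
  have h8 : f * γ.im = y := by linarith
  refine ⟨γ, mul_left_cancel₀ hf (by linear_combination h6 + b * h8), h8, ?_⟩
  refine mul_left_cancel₀ (pow_ne_zero 2 h0) ?_
  rw [← h5] at h2
  linear_combination h2

theorem imag_nontrivial {e a x y : ℤ} (hs : Squarefree e) (ha : 0 < a) (he : 4 * a < -e)
    (hy : y ≠ 0) (hc : IsCoprime a x) (h : x ^ 2 - e * y ^ 2 = 4 * a ^ 3) : 1 < torsion 3 e := by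
  obtain ⟨A, b, f, _, _, -, hf, hd, ht⟩ := torsion_eq hs (by omega) 3
  have hf0 : f ≠ 0 := by omega
  obtain ⟨γ, g1, g2, g3⟩ := t5_gamma (n := a ^ 3) hf0 hd h
  have nm : ∀ z : QuadraticAlgebra ℤ A b,
      4 * QuadraticAlgebra.norm z = (2 * z.re + b * z.im) ^ 2 - e * (f * z.im) ^ 2 := fun z => by
    rw [QuadraticAlgebra.norm_def]
    linear_combination -z.im ^ 2 * hd
  have ng : QuadraticAlgebra.norm γ = a ^ 3 := by
    have := nm γ
    rw [g1, g2, h] at this
    omega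
  have g0 : γ ≠ 0 := fun h0 => hy (by rw [← g2, h0]; simp)
  push_cast at g3
  let J : Ideal (QuadraticAlgebra ℤ A b) := Ideal.span {(a : QuadraticAlgebra ℤ A b), γ}
  have ja : (a : QuadraticAlgebra ℤ A b) ∈ J := Ideal.subset_span (by simp)
  have jg : γ ∈ J := Ideal.subset_span (by simp)
  have j3 : ∀ u v w, u ∈ J → v ∈ J → w ∈ J → u * v * w ∈ J ^ 3 := fun u v w hu hv hw => by
    rw [pow_succ, pow_two]
    exact Ideal.mul_mem_mul (Ideal.mul_mem_mul hu hv) hw
  have hJ : J ^ 3 = Ideal.span {γ} := by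
    apply le_antisymm
    · have h1 : J * J ≤ Ideal.span {(a : QuadraticAlgebra ℤ A b) ^ 2, γ} :=
        Ideal.mul_le.2 fun r hr s hs => by
          obtain ⟨p, q, rfl⟩ := Ideal.mem_span_pair.1 hr
          obtain ⟨p', q', rfl⟩ := Ideal.mem_span_pair.1 hs
          exact Ideal.mem_span_pair.2 ⟨p * p', p * a * q' + q * (p' * a + q' * γ), by ring⟩
      rw [pow_succ, pow_two]
      refine Ideal.mul_le.2 fun r hr s hs => ?_
      obtain ⟨p, q, rfl⟩ := Ideal.mem_span_pair.1 (h1 hr)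
      obtain ⟨p', q', rfl⟩ := Ideal.mem_span_pair.1 hs
      exact Ideal.mem_span_singleton.2 ⟨p * p' * (x - γ) + p * a ^ 2 * q' + q * (p' * a + q' * γ),
        by linear_combination p * p' * g3⟩
    · obtain ⟨u, v, huv⟩ := (hc.pow (m := 2) (n := 2))
      have h2 := congrArg (Int.cast : ℤ → QuadraticAlgebra ℤ A b) huv
      push_cast at h2
      have h3 := add_mem (add_mem (Ideal.mul_mem_left _ (u : QuadraticAlgebra ℤ A b) (j3 _ _ _ ja ja jg))
        (Ideal.mul_mem_left _ (v : QuadraticAlgebra ℤ A b) (j3 _ _ _ jg jg jg)))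
        (Ideal.mul_mem_left _ (v * (x + γ)) (j3 _ _ _ ja ja ja))
      rwa [show u * (a * a * γ) + v * (γ * γ * γ) + v * (x + γ) * (a * a * a) = γ by
        linear_combination γ * h2 + v * (x + γ) * g3, ← Ideal.span_singleton_le_iff_mem] at h3
  have J0 : J ∈ nonZeroDivisors (Ideal (QuadraticAlgebra ℤ A b)) :=
    mem_nonZeroDivisors_of_ne_zero fun h0 => g0 (by rw [h0] at jg; simpa using jg)
  by_contra hn
  rw [ht, not_lt, Finite.card_le_one_iff_subsingleton] at hn
  have c3 : ClassGroup.mk0 ⟨J, J0⟩ ^ 3 = 1 := by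
    rw [← map_pow]
    exact (ClassGroup.mk0_eq_one_iff (pow_mem J0 3)).2 (hJ ▸ ⟨γ, rfl⟩)
  have c1 : ClassGroup.mk0 ⟨J, J0⟩ = 1 := congrArg Subtype.val (hn.elim ⟨_, c3⟩ ⟨1, one_pow 3⟩)
  obtain ⟨α, hα⟩ := (ClassGroup.mk0_eq_one_iff J0).1 c1
  change J = Ideal.span {α} at hα
  rw [hα] at ja jg
  rw [hα, Ideal.span_singleton_pow, Ideal.span_singleton_eq_span_singleton] at hJ
  have d1 := map_dvd QuadraticAlgebra.norm hJ.dvd
  have d2 := map_dvd QuadraticAlgebra.norm hJ.symm.dvd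
  rw [map_pow, ng, Int.pow_dvd_pow_iff (by norm_num)] at d1 d2
  have d3 := Int.le_of_dvd ha d1
  have d4 := nm α
  have i0 : α.im = 0 := by
    by_contra h0
    have : 1 ≤ (f * α.im) ^ 2 := Int.add_one_le_of_lt (sq_pos_of_ne_zero (mul_ne_zero hf0 h0))
    nlinarith [sq_nonneg (2 * α.re + b * α.im)]
  have d5 : QuadraticAlgebra.norm α = α.re * α.re := by rw [QuadraticAlgebra.norm_def, i0]; ring
  obtain ⟨β, hβ⟩ := Ideal.mem_span_singleton.1 jg
  have d6 : α.re ∣ x := ⟨2 * β.re + b * β.im, by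
    rw [← g1, hβ, QuadraticAlgebra.re_mul, QuadraticAlgebra.im_mul, i0]; ring⟩
  rw [d5] at d1 d2
  have d7 := hc.isUnit_of_dvd' ((dvd_mul_right _ _).trans d1) d6
  have d8 : a ≤ 1 := Int.le_of_dvd one_pos (d2.trans (d7.mul d7).dvd)
  obtain rfl : a = 1 := by omega
  have : 1 ≤ y ^ 2 := Int.add_one_le_of_lt (sq_pos_of_ne_zero hy)
  nlinarith [sq_nonneg x]

end Pool.Agent.MP_d0fd9b_nt.S72
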