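import Pool.Agent.MP_d0fd9b_nt.S72.Base

set_option autoImplicit false

namespace Pool.Agent.MP_d0fd9b_nt.S72

open Finset NumberField H72

/-- Hilbert 90 for a cyclic cubic action with three distinct conjugates -/
lemma t7_h90 {R : Type} [CommRing R] [IsDomain R] (s : R →+* R) (h3 : ∀ z, s (s (s z)) = z)
    {θ η : R} (hθ : s θ ≠ θ) (hN : η * s η * s (s η) = 1) :
    ∃ α : R, α ≠ 0 ∧ η * s α = α := by
  have key : ∀ b : R, η * s (b + η * s b + η * s η * s (s b)) =
      b + η * s b + η * s η * s (s b) := fun b => by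
    simp only [map_add, map_mul, h3]
    linear_combination b * hN
  by_contra hcon
  push Not at hcon
  have z : ∀ b : R, b + η * s b + η * s η * s (s b) = 0 := fun b => by
    by_contra hb
    exact hcon _ hb (key b)
  have z0 := z 1
  have z1 := z θ
  have z2 := z (θ * θ)
  simp only [map_one, map_mul] at z0 z2
  have e : (θ - s θ) * (θ - s (s θ)) = 0 := by
    linear_combination z2 - (s θ + s (s θ)) * z1 + s θ * s (s θ) * z0
  rcases mul_eq_zero.1 e with e | e
  · exact hθ (sub_eq_zero.1 e).symm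
  · have e' := congrArg s (sub_eq_zero.1 e)
    rw [h3] at e'
    exact hθ e'

/-- Galois descent of a stable ideal -/
lemma t7_mem {A R : Type} [CommRing A] [CommRing R] (f : A →+* R) (s : R →+* R)
    (h3 : ∀ z, s (s (s z)) = z) (hfix : ∀ z, s z = z → ∃ a, f a = z) {θ c₁ c₂ : R}
    (hc : c₁ * (θ - s θ) + c₂ * (s θ - s (s θ)) = 1) (J : Ideal R) (hJ : ∀ z ∈ J, s z ∈ J)
    {z : R} (hz : z ∈ J) : z ∈ (J.comap f).map f := by
  have tr : ∀ y : R, y * z + s (y * z) + s (s (y * z)) ∈ (J.comap f).map f := fun y => by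
    have hy : y * z ∈ J := J.mul_mem_left y hz
    obtain ⟨a, ha⟩ := hfix (y * z + s (y * z) + s (s (y * z))) (by
      rw [map_add, map_add, h3]; ring)
    rw [← ha]
    refine Ideal.mem_map_of_mem f ?_
    rw [Ideal.mem_comap, ha]
    exact J.add_mem (J.add_mem hy (hJ _ hy)) (hJ _ (hJ _ hy))
  have two : ∀ x y : R, (s x - x) * (s (s y) - y) * z ∈ (J.comap f).map f := fun x y => by
    have e : (s x - x) * (s (s y) - y) * z =
        s x * s (s y) * (1 * z + s (1 * z) + s (s (1 * z))) -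
          s x * (y * z + s (y * z) + s (s (y * z))) -
          s (s y) * (x * z + s (x * z) + s (s (x * z))) +
          (x * y * z + s (x * y * z) + s (s (x * y * z))) := by
      simp only [map_mul, map_one]
      ring
    rw [e]
    exact Ideal.add_mem _ (Ideal.sub_mem _ (Ideal.sub_mem _ (Ideal.mul_mem_left _ _ (tr 1))
      (Ideal.mul_mem_left _ _ (tr y))) (Ideal.mul_mem_left _ _ (tr x))) (tr (x * y))
  have a11 := two θ (s θ)
  have a12 := two θ (s (s θ))
  have a21 := two (s θ) (s θ)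
  have a22 := two (s θ) (s (s θ))
  rw [h3] at a11 a12 a21 a22
  have e : z = -(c₁ * c₁) * ((s θ - θ) * (θ - s θ) * z) +
      -(c₁ * c₂) * ((s θ - θ) * (s θ - s (s θ)) * z) +
      -(c₂ * c₁) * ((s (s θ) - s θ) * (θ - s θ) * z) +
      -(c₂ * c₂) * ((s (s θ) - s θ) * (s θ - s (s θ)) * z) := by
    linear_combination (-z * (1 + (c₁ * (θ - s θ) + c₂ * (s θ - s (s θ))))) * hc
  rw [e]
  exact Ideal.add_mem _ (Ideal.add_mem _ (Ideal.add_mem _ (Ideal.mul_mem_left _ _ a11)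
    (Ideal.mul_mem_left _ _ a12)) (Ideal.mul_mem_left _ _ a21)) (Ideal.mul_mem_left _ _ a22)

lemma t7_abs {A R : Type} [CommRing A] [IsDedekindDomain A] [CommRing R] [IsDedekindDomain R]
    (f : A →+* R) (hf : Function.Injective f) (hi : f.IsIntegral) (s : R →+* R)
    (h3 : ∀ z, s (s (s z)) = z) (hsf : ∀ a, s (f a) = f a) (hfix : ∀ z, s z = z → ∃ a, f a = z)
    {θ c₁ c₂ η : R} (hc : c₁ * (θ - s θ) + c₂ * (s θ - s (s θ)) = 1)
    (hcl : ∀ c : ClassGroup A, c ^ 3 = 1 → c = 1) (hN : η * s η * s (s η) = 1) :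
    ∃ u w : R, u * w = 1 ∧ η * s u = u := by
  have hθ : s θ ≠ θ := fun h => by
    rw [h, h, sub_self, mul_zero, mul_zero, add_zero] at hc
    exact zero_ne_one hc
  obtain ⟨α, hα0, hα⟩ := t7_h90 s h3 hθ hN
  have s1 : s α = s η * s (s η) * α := by
    linear_combination (s η * s (s η)) * hα - s α * hN
  have s2 : s (s α) = s (s η) * α := by
    have := congrArg s s1
    simp only [map_mul, h3] at this
    rw [this]
    linear_combination s (s η) * hα
  set J : Ideal R := Ideal.span {α} with hJd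
  have hJ : ∀ z ∈ J, s z ∈ J := fun z hz => by
    obtain ⟨y, rfl⟩ := Ideal.mem_span_singleton'.1 hz
    rw [map_mul, s1, ← mul_assoc]
    exact Ideal.mul_mem_left _ _ (Ideal.mem_span_singleton_self α)
  set I : Ideal A := J.comap f with hId
  have hmap : I.map f = J := le_antisymm Ideal.map_comap_le
    fun z hz => t7_mem f s h3 hfix hc J hJ hz
  obtain ⟨n, hn⟩ := hfix (α * s α * s (s α)) (by rw [map_mul, map_mul, h3]; ring)
  have hn' : f n = (s η * s (s η) * s (s η)) * α ^ 3 := by rw [hn, s2, s1]; ring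
  have hu : IsUnit (s η * s (s η) * s (s η)) := by
    refine IsUnit.of_mul_eq_one (η * (η * s η)) ?_
    linear_combination (η * s η * s (s η) + 1) * hN
  have hspan : (Ideal.span {n}).map f = J ^ 3 := by
    rw [Ideal.map_span, Set.image_singleton, hn', Ideal.span_singleton_mul_left_unit hu, hJd,
      Ideal.span_singleton_pow]
  have hJ0 : J ≠ ⊥ := by rwa [hJd, Ne, Ideal.span_singleton_eq_bot]
  have hI0 : I ≠ ⊥ := fun h => hJ0 (by rw [← hmap, h, Ideal.map_bot])
  have hn0 : n ≠ 0 := fun h => by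
    rw [h, map_zero] at hn'
    exact mul_ne_zero hu.ne_zero (pow_ne_zero 3 hα0) hn'.symm
  have inj : ∀ P Q : Ideal A, Q ≠ ⊥ → P.map f = Q.map f → P ≤ Q := fun P Q hQ h => by
    obtain ⟨C, hC⟩ : P ⊔ Q ∣ Q := Ideal.dvd_iff_le.2 le_sup_right
    have h1 : Q.map f = Q.map f * C.map f := by
      conv_lhs => rw [hC, Ideal.map_mul, Ideal.map_sup, h, sup_idem]
    have h0 : Q.map f ≠ 0 := fun h0 => hQ ((Ideal.map_eq_bot_iff_of_injective hf).1 h0)
    have h2 : C.map f = ⊤ := by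
      rw [← Ideal.one_eq_top]
      exact mul_left_cancel₀ h0 (h1.symm.trans (mul_one _).symm)
    rw [(Ideal.map_eq_top_iff f hf hi).1 h2, Ideal.mul_top] at hC
    exact le_sup_left.trans hC.ge
  have hI3 : I ^ 3 = Ideal.span {n} := by
    have e : (I ^ 3).map f = (Ideal.span {n}).map f := by rw [Ideal.map_pow, hmap, hspan]
    exact le_antisymm (inj _ _ (by rwa [Ne, Ideal.span_singleton_eq_bot]) e)
      (inj _ _ (pow_ne_zero 3 hI0) e.symm)
  have hIm : I ∈ nonZeroDivisors (Ideal A) := mem_nonZeroDivisors_of_ne_zero hI0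
  have hpr : I.IsPrincipal := by
    rw [← ClassGroup.mk0_eq_one_iff hIm]
    refine hcl _ ?_
    rw [← map_pow]
    refine (ClassGroup.mk0_eq_one_iff (pow_mem hIm 3)).2 ?_
    rw [hI3]
    exact ⟨⟨n, rfl⟩⟩
  obtain ⟨k, hk⟩ := hpr
  have hk' : Ideal.span {f k} = J := by
    rw [← hmap, hk, Ideal.submodule_span_eq, Ideal.map_span, Set.image_singleton]
  obtain ⟨u, hu'⟩ := (Ideal.span_singleton_eq_span_singleton.1 hk')
  have hk0 : f k ≠ 0 := fun h => hα0 (by rw [← hu', h, zero_mul])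
  refine ⟨u, ↑u⁻¹, u.mul_inv, mul_left_cancel₀ hk0 ?_⟩
  rw [← hu', map_mul, hsf] at hα
  linear_combination hα

/-- T7 -/
theorem descent (K H : Type) [Field K] [NumberField K] [Field H] [NumberField H] [Algebra K H]
    (σ : H ≃ₐ[K] H) (h3 : ∀ z, σ (σ (σ z)) = z) (hfix : ∀ z, σ z = z → ∃ k : K, algebraMap K H k = z)
    {θ c₁ c₂ : H} (hθ : IsIntegral ℤ θ) (h1 : IsIntegral ℤ c₁) (h2 : IsIntegral ℤ c₂)
    (hc : c₁ * (θ - σ θ) + c₂ * (σ θ - σ (σ θ)) = 1)
    (hcl : ∀ c : ClassGroup (𝓞 K), c ^ 3 = 1 → c = 1) {η : H} (hη : IsIntegral ℤ η)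
    (hN : η * σ η * σ (σ η) = 1) :
    ∃ u w : H, IsIntegral ℤ u ∧ IsIntegral ℤ w ∧ u * w = 1 ∧ η * σ u = u := by
  let s : 𝓞 H →+* 𝓞 H := RingOfIntegers.mapRingHom (σ : H →+* H)
  have hs : ∀ x : 𝓞 H, ((s x : 𝓞 H) : H) = σ x := fun x => rfl
  have hf : ∀ a : 𝓞 K, ((algebraMap (𝓞 K) (𝓞 H) a : 𝓞 H) : H) = algebraMap K H a := fun a => rfl
  obtain ⟨u, w, huw, hu⟩ := t7_abs (algebraMap (𝓞 K) (𝓞 H))
    (RingOfIntegers.algebraMap.injective K H) (algebraMap_isIntegral_iff.2 inferInstance) s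
    (fun z => RingOfIntegers.ext (by rw [hs, hs, hs, h3]))
    (fun a => RingOfIntegers.ext (by rw [hs, hf, σ.commutes]))
    (fun z hz => by
      obtain ⟨k, hk⟩ := hfix z (by rw [← hs, hz])
      have hki : IsIntegral ℤ k := by
        rw [← isIntegral_algebraMap_iff (algebraMap K H).injective, hk]
        exact z.isIntegral_coe
      exact ⟨⟨k, hki⟩, RingOfIntegers.ext hk⟩)
    (θ := ⟨θ, hθ⟩) (c₁ := ⟨c₁, h1⟩) (c₂ := ⟨c₂, h2⟩) (η := ⟨η, hη⟩)
    (RingOfIntegers.ext hc) hcl (RingOfIntegers.ext hN)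
  exact ⟨u, w, u.isIntegral_coe, w.isIntegral_coe, congrArg (fun x : 𝓞 H => (x : H)) huw,
    congrArg (fun x : 𝓞 H => (x : H)) hu⟩

end Pool.Agent.MP_d0fd9b_nt.S72
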