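import Pool.Agent.MP_d0fd9b_nt.S72.T6
import Pool.Agent.MP_d0fd9b_nt.S72.T7

set_option autoImplicit false

namespace Pool.Agent.MP_d0fd9b_nt.S72

open Finset NumberField H72

theorem t8_no_int {d a x m t : ℤ} (hs : Squarefree d) (hd : 12 * a < d) (hd0 : 0 < d) (hm : m ≠ 0)
    (h : 4 * a ^ 3 - x ^ 2 = 27 * d * m ^ 2) : t ^ 3 - 3 * a * t - x ≠ 0 := by
  intro ht
  have e : d * (9 * m) ^ 2 = 3 * (4 * a - t ^ 2) * (a - t ^ 2) ^ 2 := by
    have hx : x = t ^ 3 - 3 * a * t := by linarith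
    subst hx
    linear_combination (-3) * h
  obtain ⟨g, m', u', hg, hc, e1, e2⟩ := Int.exists_gcd_one' (m := 9 * m) (n := a - t ^ 2)
    (Int.gcd_pos_of_ne_zero_left _ (by omega))
  rw [e1, e2] at e
  have hg' : (g : ℤ) ^ 2 ≠ 0 := by positivity
  have e3 : d * m' ^ 2 = 3 * (4 * a - t ^ 2) * u' ^ 2 :=
    mul_right_cancel₀ hg' (by linear_combination e)
  have hcop : IsCoprime (u' ^ 2) (m' ^ 2) := (Int.isCoprime_iff_gcd_eq_one.2 hc).symm.pow
  have hdv : u' ^ 2 ∣ d := hcop.dvd_of_dvd_mul_right ⟨3 * (4 * a - t ^ 2), by linear_combination e3⟩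
  have hu : u' ^ 2 = 1 := by
    rcases Int.isUnit_iff.1 (hs u' (by rwa [← pow_two])) with rfl | rfl <;> norm_num
  have hm' : m' ≠ 0 := by
    rintro rfl
    omega
  have h1 : 1 ≤ m' ^ 2 := (one_le_sq_iff_one_le_abs _).2 (Int.one_le_abs hm')
  rw [hu] at e3
  nlinarith [sq_nonneg t]

theorem t8_cong {a x k : ℤ} (hc : IsCoprime a x) (h : 4 * a ^ 3 - x ^ 2 = 27 * k) :
    ∃ b c r : ℤ, a = 3 * b + 1 ∧ r ^ 2 = 1 ∧ x = r * (1 - 3 * a) + 27 * c := by
  have p3 : Prime (3 : ℤ) := Int.prime_three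
  have hx : ¬(3 : ℤ) ∣ x := fun h3 => by
    have h4 : (3 : ℤ) ∣ a ^ 3 := by
      obtain ⟨y, rfl⟩ := h3
      exact ⟨9 * k + 3 * y ^ 2 - a ^ 3, by linear_combination h⟩
    exact p3.not_isUnit (hc.isUnit_of_dvd' (p3.dvd_of_dvd_pow h4) h3)
  have hx2 : ∃ y, x ^ 2 = 3 * y + 1 := by
    obtain ⟨y, hy⟩ : ∃ y, x = 3 * y + 1 ∨ x = 3 * y + 2 := ⟨x / 3, by omega⟩
    rcases hy with rfl | rfl
    · exact ⟨3 * y ^ 2 + 2 * y, by ring⟩
    · exact ⟨3 * y ^ 2 + 4 * y + 1, by ring⟩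
  obtain ⟨y, hy⟩ := hx2
  obtain ⟨b, hb⟩ : ∃ b, a = 3 * b + 1 := by
    obtain ⟨b, hb⟩ : ∃ b, a = 3 * b ∨ a = 3 * b + 1 ∨ a = 3 * b + 2 := ⟨a / 3, by omega⟩
    rcases hb with rfl | rfl | rfl
    · have : 3 * (36 * b ^ 3 - y - 9 * k) = 1 := by linear_combination h + hy
      omega
    · exact ⟨b, rfl⟩
    · have : 3 * (36 * b ^ 3 + 72 * b ^ 2 + 48 * b + 10 - y - 9 * k) = -1 := by
        linear_combination h + hy
      omega
  have e : (3 : ℤ) ^ 3 ∣ (x - (1 - 3 * a)) * (x + (1 - 3 * a)) :=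
    ⟨b ^ 2 * (4 * b + 1) - k, by subst hb; linear_combination -h⟩
  by_cases h1 : (3 : ℤ) ∣ x - (1 - 3 * a)
  · have h2 : ¬(3 : ℤ) ∣ x + (1 - 3 * a) := by omega
    obtain ⟨c, hc'⟩ := p3.pow_dvd_of_dvd_mul_right 3 h2 e
    exact ⟨b, c, 1, hb, by norm_num, by linear_combination hc'⟩
  · obtain ⟨c, hc'⟩ := p3.pow_dvd_of_dvd_mul_left 3 h1 e
    exact ⟨b, c, -1, hb, by norm_num, by linear_combination hc'⟩

theorem t8_real {a x : ℤ} (ha : 0 < a) (h : 0 < 4 * a ^ 3 - x ^ 2) {z : ℂ}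
    (hz : z ^ 3 - 3 * a * z - x = 0) : starRingEnd ℂ z = z := by
  rw [Complex.conj_eq_iff_im]
  by_contra hq
  have h1 := congrArg Complex.re hz
  have h2 := congrArg Complex.im hz
  simp [pow_succ] at h1 h2
  have ha' : (0 : ℝ) < a := by exact_mod_cast ha
  have h' : (0 : ℝ) < 4 * a ^ 3 - x ^ 2 := by exact_mod_cast h
  generalize z.re = p at *
  generalize z.im = q at *
  have e1 : 3 * (a : ℝ) = 3 * p ^ 2 - q ^ 2 := mul_left_cancel₀ hq (by linear_combination -h2)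
  have e2 : (x : ℝ) = -2 * p * (p ^ 2 + q ^ 2) := by linear_combination -h1 - p * e1
  have e3 : (a : ℝ) ≤ p ^ 2 := by nlinarith [sq_nonneg q]
  have e4 : (a : ℝ) ^ 3 ≤ (p ^ 2) ^ 3 := by gcongr
  have e5 : (p ^ 2) ^ 2 ≤ (p ^ 2 + q ^ 2) ^ 2 := by gcongr; nlinarith [sq_nonneg q]
  rw [e2] at h'
  nlinarith [mul_le_mul_of_nonneg_left e5 (sq_nonneg p)]

open Polynomial in
theorem t8_field (K : Type) [Field K] [NumberField K] (hK : Module.finrank ℚ K = 2) {a x : ℤ}
    (hn : ∀ t : ℤ, t ^ 3 - 3 * a * t - x ≠ 0) :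
    ∃ (H : Type) (_ : Field H) (_ : Algebra K H) (pb : PowerBasis K H), pb.dim = 3 ∧
      ∀ y : H, aeval y (minpoly K pb.gen) = y ^ 3 - 3 * a * y - x := by
  have hmon : ∀ (F : Type) [Field F], (X ^ 3 - C (3 * a : F) * X - C (x : F)).Monic ∧
      (X ^ 3 - C (3 * a : F) * X - C (x : F)).natDegree = 3 := fun F _ =>
    ⟨by monicity!, by compute_degree!⟩
  have hQ : Irreducible (X ^ 3 - C (3 * a : ℚ) * X - C (x : ℚ)) := by
    refine irreducible_of_degree_le_three_of_not_isRoot (by rw [(hmon ℚ).2]; simp) fun r hr => ?_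
    have hr' : r ^ 3 - 3 * a * r - x = 0 := by simpa using hr
    have hi : IsIntegral ℤ r := ⟨X ^ 3 - C (3 * a) * X - C x, by monicity!, by
      rw [eval₂_sub, eval₂_sub, eval₂_mul, eval₂_pow, eval₂_X, eval₂_C, eval₂_C]
      simpa using hr'⟩
    obtain ⟨t, rfl⟩ := IsIntegrallyClosed.isIntegral_iff.1 hi
    rw [eq_intCast] at hr'
    exact hn t (by exact_mod_cast hr')
  have hirr : Irreducible (X ^ 3 - C (3 * a : K) * X - C (x : K)) := by
    refine irreducible_of_degree_le_three_of_not_isRoot (by rw [(hmon K).2]; simp) fun r hr => ?_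
    have hr' : r ^ 3 - 3 * a * r - x = 0 := by simpa using hr
    have e := minpoly.eq_of_irreducible_of_monic (x := r) hQ (by simpa using hr') (hmon ℚ).1
    have := minpoly.natDegree_le (A := ℚ) r
    rw [← e, (hmon ℚ).2, hK] at this
    omega
  have : Fact (Irreducible (X ^ 3 - C (3 * a : K) * X - C (x : K))) := ⟨hirr⟩
  refine ⟨AdjoinRoot (X ^ 3 - C (3 * a : K) * X - C (x : K)), inferInstance, inferInstance,
    AdjoinRoot.powerBasis hirr.ne_zero, (hmon K).2, fun y => ?_⟩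
  rw [AdjoinRoot.minpoly_powerBasis_gen_of_monic (hmon K).1]
  simp [map_ofNat]

open Polynomial in
theorem t8_int {H : Type} [Field H] [CharZero H] {a x b c r : ℤ} (hb : a = 3 * b + 1)
    (hr : r ^ 2 = 1) (hx : x = r * (1 - 3 * a) + 27 * c) {t : H} (ht : t ^ 3 - 3 * a * t - x = 0) :
    IsIntegral ℤ ((t - r) / 3) := by
  refine ⟨X ^ 3 + C r * X ^ 2 - C b * X - C c, by monicity!, ?_⟩
  have hr' : (r : H) ^ 2 = 1 := by exact_mod_cast hr
  rw [hx, hb] at ht
  push_cast at ht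
  simp only [eval₂_sub, eval₂_add, eval₂_mul, eval₂_pow, eval₂_X, eval₂_C]
  simp only [eq_intCast]
  linear_combination (1 / 27) * ht + (-(t : H) / 9 + 2 * r / 27) * hr'

theorem t8_core (K : Type) [Field K] [NumberField K] (hK : Module.finrank ℚ K = 2) (θ : K)
    {d a x m : ℤ} (hθ : θ ^ 2 = d)
    (hre : ∀ φ : K →+* ℂ, ∀ k, starRingEnd ℂ (φ k) = φ k) (hs : Squarefree d) (ha : 0 < a)
    (hd : 12 * a < d) (hm : m ≠ 0) (hc : IsCoprime a x)
    (h : 4 * a ^ 3 - x ^ 2 = 27 * d * m ^ 2) :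
    ¬∀ c : ClassGroup (𝓞 K), c ^ 3 = 1 → c = 1 := by
  intro hcl
  have hd0 : 0 < d := by omega
  have hpos : 0 < 4 * a ^ 3 - x ^ 2 := by rw [h]; positivity
  obtain ⟨H, _, _, pb, hdim, hmin⟩ := t8_field K hK fun t => t8_no_int hs hd hd0 hm h
  have := pb.finite
  have : NumberField H := NumberField.of_module_finite K H
  have h3 : Module.finrank K H = 3 := pb.finrank.trans hdim
  have h6 : Module.finrank ℚ H = 6 := by rw [← Module.finrank_mul_finrank ℚ K H, hK, h3]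
  set t := pb.gen
  have ht : t ^ 3 - 3 * a * t - x = 0 := (hmin t).symm.trans (minpoly.aeval K t)
  have : IsTotallyReal H := ⟨fun v => InfinitePlace.isReal_iff.2 (ComplexEmbedding.isReal_iff.2
    (RingHom.ext fun z => by
      generalize v.embedding = φ
      change starRingEnd ℂ (φ z) = φ z
      have hz : z ∈ Algebra.adjoin K {pb.gen} := pb.adjoin_gen_eq_top ▸ Algebra.mem_top
      induction hz using Algebra.adjoin_induction with
      | mem y hy =>
        obtain rfl : y = t := hy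
        exact t8_real ha hpos (by simpa [map_ofNat] using congrArg φ ht)
      | algebraMap k => exact hre (φ.comp (algebraMap K H)) k
      | add y z _ _ hy hz => rw [map_add, map_add, hy, hz]
      | mul y z _ _ hy hz => rw [map_mul, map_mul, hy, hz]))⟩
  obtain ⟨δ, hδ, hδ0, hδK⟩ : ∃ δ : H, δ ^ 2 = 3 * (4 * a ^ 3 - x ^ 2) ∧ δ ≠ 0 ∧
      ∀ τ : H →ₐ[K] H, τ δ = δ := by
    have e : (algebraMap K H (9 * m * θ)) ^ 2 = 3 * (4 * a ^ 3 - x ^ 2) := by
      have h' : (4 * a ^ 3 - x ^ 2 : K) = 27 * d * m ^ 2 := by exact_mod_cast h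
      rw [← map_pow, show (9 * m * θ) ^ 2 = 3 * (4 * a ^ 3 - x ^ 2 : K) by
        linear_combination 81 * (m : K) ^ 2 * hθ - 3 * h']
      simp [map_ofNat]
    refine ⟨_, e, fun e0 => ?_, fun τ => τ.commutes _⟩
    rw [e0] at e
    have : ((3 * (4 * a ^ 3 - x ^ 2) : ℤ) : H) = 0 := by push_cast; linear_combination -e
    have := Int.cast_eq_zero.1 this
    omega
  have hne : ∀ y : H, y ^ 3 - 3 * a * y - x = 0 → y ^ 2 - a ≠ 0 := fun y hy e => hδ0
    (pow_eq_zero_iff two_ne_zero |>.1 (by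
      linear_combination hδ + 3 * (4 * a - y ^ 2) * (y ^ 2 - a) * e +
        3 * (y ^ 3 - 3 * a * y + x) * hy))
  obtain ⟨w, hw⟩ : ∃ w, w * (t ^ 2 - a) = δ := ⟨δ / (t ^ 2 - a), div_mul_cancel₀ _ (hne t ht)⟩
  have hw2 : w ^ 2 = 3 * (4 * a - t ^ 2) := mul_right_cancel₀ (pow_ne_zero 2 (hne t ht)) (by
    linear_combination (w * (t ^ 2 - a) + δ) * hw + hδ + 3 * (t ^ 3 - 3 * a * t + x) * ht)
  have hw0 : w ≠ 0 := fun e => hδ0 (by rw [← hw, e, zero_mul])
  have r2 : ((-t + w) / 2) ^ 3 - 3 * a * ((-t + w) / 2) - x = 0 := by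
    linear_combination ht + (w - 3 * t) / 8 * hw2
  let σ : H →ₐ[K] H := pb.lift ((-t + w) / 2) ((hmin _).trans r2)
  have s1 : σ t = (-t + w) / 2 := pb.lift_gen _ _
  have sw : σ w = (-3 * t - w) / 2 := mul_right_cancel₀ (hne _ r2) (by
    have := congrArg σ hw
    rw [hδK, map_mul, map_sub, map_pow, s1, map_intCast] at this
    linear_combination this - hw + (t + w) / 8 * hw2)
  have s2 : σ (σ t) = (-t - w) / 2 := by
    rw [s1, map_div₀, map_add, map_neg, s1, sw, map_ofNat]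
    ring
  have s3 : σ (σ (σ t)) = t := by
    rw [s2, map_div₀, map_sub, map_neg, s1, sw, map_ofNat]
    ring
  have hσ : σ.comp (σ.comp σ) = AlgHom.id K H := pb.algHom_ext s3
  let τ : H ≃ₐ[K] H := AlgEquiv.ofAlgHom σ (σ.comp σ) hσ hσ
  have hτ : ∀ z, τ z = σ z := fun _ => rfl
  have τ3 : ∀ z, τ (τ (τ z)) = z := fun z => AlgHom.congr_fun hσ z
  have hnt : σ t ≠ t := fun e => hw0 (by
    have e2 := s2
    rw [e, e] at e2
    linear_combination e - s1 + e2)
  have hfix : ∀ z, τ z = z → ∃ k : K, algebraMap K H k = z := fun z hz => by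
    rcases (Subalgebra.isSimpleOrder_of_finrank_prime K H (h3 ▸ Nat.prime_three)).eq_bot_or_eq_top
      (AlgHom.equalizer σ (AlgHom.id K H)) with e | e
    · exact Algebra.mem_bot.1 (e ▸ (AlgHom.mem_equalizer _ _ z).2 hz)
    · exact absurd ((AlgHom.mem_equalizer _ _ t).1 (e ▸ Algebra.mem_top)) hnt
  obtain ⟨η, η1, η2, η3⟩ := exists_unit H h6 (τ.restrictScalars ℚ) τ3
    fun e => hnt (AlgEquiv.congr_fun e t)
  obtain ⟨b, c, r, hb, hr, hx⟩ := t8_cong hc (k := d * m ^ 2) (by rw [h]; ring)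
  have r3 : ((-t - w) / 2) ^ 3 - 3 * a * ((-t - w) / 2) - x = 0 := by
    linear_combination ht + (-w - 3 * t) / 8 * hw2
  have i1 := t8_int hb hr hx ht
  have i2 := t8_int hb hr hx r2
  have i3 := t8_int hb hr hx r3
  have u1 : τ ((t - r) / 3) = ((-t + w) / 2 - r) / 3 := by
    rw [hτ, map_div₀, map_sub, s1, map_intCast, map_ofNat]
  have u2 : τ (τ ((t - r) / 3)) = ((-t - w) / 2 - r) / 3 := by
    rw [hτ, hτ, map_div₀, map_div₀, map_sub, map_sub, s2]
    simp only [map_intCast, map_ofNat]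
  obtain ⟨p, q, hpq⟩ := hc
  have hpq' : (p : H) * a + q * x = 1 := by exact_mod_cast hpq
  have ii : ∀ n : ℤ, IsIntegral ℤ (n : H) := fun n => isIntegral_algebraMap (x := n)
  have j := ((i2.sub i3).sub (i1.sub i2)).mul ((i3.sub i2).sub (i1.sub i3))
  obtain ⟨u, v, hu, hv, huv, e⟩ := descent K H τ τ3 hfix i1
    (((ii p).mul (i1.sub i3)).add ((ii q).mul (j.add j))) (((ii p).mul (i2.sub i3)).add ((ii q).mul j))
    (by
      rw [u2, u1]
      linear_combination hpq' + q * ht + (p / 12 - q * t / 4) * hw2) hcl η1 η2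
  exact η3 u v hu hv huv e

/-- T8 -/
theorem real_nontrivial {d a x m : ℤ} (hs : Squarefree d) (ha : 0 < a) (hd : 12 * a < d)
    (hm : m ≠ 0) (hc : IsCoprime a x) (h : 4 * a ^ 3 - x ^ 2 = 27 * d * m ^ 2) :
    1 < torsion 3 d := by
  have hd1 : 1 < d := by omega
  obtain ⟨t, ht⟩ := IsAlgClosed.exists_eq_mul_self (d : ℂ)
  have hirr : ∀ r : ℚ, t ≠ r := fun r hr => by
    have h2 : IsSquare (d : ℚ) := ⟨r, by
      rw [hr] at ht
      exact_mod_cast ht⟩
    obtain ⟨s, rfl⟩ := Rat.isSquare_intCast_iff.1 h2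
    rcases Int.isUnit_iff.1 (hs s dvd_rfl) with rfl | rfl <;> simp at hd1
  have hroot : Polynomial.aeval t (Polynomial.X ^ 2 - Polynomial.C (d : ℚ)) = 0 := by
    simp [pow_two, ht]
  have hmon : (Polynomial.X ^ 2 - Polynomial.C (d : ℚ)).Monic :=
    Polynomial.monic_X_pow_sub_C _ two_ne_zero
  have hint : IsIntegral ℚ t := ⟨_, hmon, by rwa [← Polynomial.aeval_def]⟩
  have hKK : IntermediateField.adjoin ℚ {z : ℂ | z ^ 2 = d} = IntermediateField.adjoin ℚ {t} := by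
    apply le_antisymm
    · rw [IntermediateField.adjoin_le_iff]
      intro z hz
      have h2 : z ^ 2 = t ^ 2 := by rw [pow_two t, ← ht]; exact hz
      rcases sq_eq_sq_iff_eq_or_eq_neg.1 h2 with rfl | rfl
      · exact IntermediateField.mem_adjoin_simple_self ℚ _
      · exact neg_mem (IntermediateField.mem_adjoin_simple_self ℚ t)
    · apply IntermediateField.adjoin.mono
      rintro z rfl
      exact (pow_two z).trans ht.symm
  let K := IntermediateField.adjoin ℚ {z : ℂ | z ^ 2 = d}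
  replace hKK : K = IntermediateField.adjoin ℚ {t} := hKK
  have hfin : FiniteDimensional ℚ K := hKK ▸ IntermediateField.adjoin.finiteDimensional hint
  have hnf : NumberField K := {}
  have hK : Module.finrank ℚ K = 2 := by
    rw [hKK, IntermediateField.adjoin.finrank hint]
    apply le_antisymm
    · have := Polynomial.natDegree_le_natDegree (minpoly.min ℚ _ hmon hroot)
      rwa [Polynomial.natDegree_X_pow_sub_C] at this
    · exact (minpoly.two_le_natDegree_iff hint).2 fun ⟨r, hr⟩ => hirr r (by simpa using hr.symm)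
  let θ : K := ⟨t, hKK ▸ IntermediateField.mem_adjoin_simple_self ℚ _⟩
  have hθ2 : θ ^ 2 = (d : K) := Subtype.ext (by simp [θ, ht, pow_two])
  have hre : ∀ φ : K →+* ℂ, ∀ k, starRingEnd ℂ (φ k) = φ k := fun φ k => by
    refine AlgHom.congr_fun (IntermediateField.adjoin_algHom_ext ℚ (s := {z : ℂ | z ^ 2 = d})
      (φ₁ := ((starRingEnd ℂ).comp φ).toRatAlgHom) (φ₂ := φ.toRatAlgHom) fun z hz => ?_) k
    have e : (⟨z, IntermediateField.subset_adjoin _ _ hz⟩ : K) ^ 2 = (d : K) :=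
      Subtype.ext (by simpa using hz)
    have e' := congrArg φ e
    rw [map_pow, map_intCast] at e'
    change starRingEnd ℂ (φ _) = φ _
    generalize φ _ = y at e'
    rw [Complex.conj_eq_iff_im]
    have h1 := congrArg Complex.re e'
    have h2 := congrArg Complex.im e'
    simp [pow_two] at h1 h2
    have hd' : (1 : ℝ) < d := by exact_mod_cast hd1
    by_contra hq
    have : y.re = 0 := mul_right_cancel₀ hq (by linear_combination h2 / 2)
    rw [this] at h1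
    nlinarith [mul_self_nonneg y.im]
  by_contra hle
  refine t8_core K hK θ hθ2 hre hs ha hd hm hc h fun c hc3 => ?_
  have : Subsingleton {c : ClassGroup (𝓞 K) // c ^ 3 = 1} :=
    Finite.card_le_one_iff_subsingleton.1 (not_lt.1 hle)
  exact congrArg Subtype.val (Subsingleton.elim (⟨c, hc3⟩ : {c : ClassGroup (𝓞 K) // c ^ 3 = 1})
    ⟨1, one_pow 3⟩)

end Pool.Agent.MP_d0fd9b_nt.S72
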