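import Pool.Agent.MP_d0fd9b_nt.S72.Base

set_option autoImplicit false

namespace Pool.Agent.MP_d0fd9b_nt.S72

open Finset NumberField H72

lemma t9_cnt {l : ℕ} (_hl : 0 < l) {c : ℤ} (hc : IsCoprime (l : ℤ) c) (b : ℤ) (n : ℕ) :
    #((range n).filter fun t : ℕ => (l : ℤ) ∣ b + c * t) ≤ n / l + 1 := by
  rw [← card_range (n / l + 1)]
  refine card_le_card_of_injOn (fun t => t / l) (fun t ht => ?_) fun t ht t' ht' e => ?_
  · have := mem_range.1 (mem_filter.1 (mem_coe.1 ht)).1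
    exact mem_coe.2 (mem_range.2 (Nat.lt_succ_of_le (Nat.div_le_div_right this.le)))
  · have h1 := (mem_filter.1 (mem_coe.1 ht)).2
    have h2 := (mem_filter.1 (mem_coe.1 ht')).2
    have h3 : (l : ℤ) ∣ c * ((t' : ℤ) - t) := by
      have := dvd_sub h2 h1
      rwa [show b + c * (t' : ℤ) - (b + c * t) = c * ((t' : ℤ) - t) by ring] at this
    have h4 : t % l = t' % l := (Nat.modEq_iff_dvd.2 (hc.dvd_of_dvd_mul_left h3) : t ≡ t' [MOD l])
    have e' : t / l = t' / l := e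
    rw [← Nat.div_add_mod t l, ← Nat.div_add_mod t' l, h4, e']

lemma t9_omega {a : ℕ} (ha : a ≠ 0) : #a.primeFactors ≤ Nat.log 2 a := by
  refine Nat.le_log_of_pow_le one_lt_two ?_
  exact (pow_card_le_prod _ _ _ fun p hp => (Nat.prime_of_mem_primeFactors hp).two_le).trans
    (Nat.le_of_dvd (Nat.pos_of_ne_zero ha) (Nat.prod_primeFactors_dvd a))

lemma t9_sq (P : Finset ℕ) (hP : ∀ l ∈ P, l.Prime ∧ l ≠ 3) :
    ∑ l ∈ P, ((l : ℝ) ^ 2)⁻¹ ≤ 1 / 2 := by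
  have h1 : P ⊆ insert 2 (Ioc 4 (P.sup id + 4)) := fun l hl => by
    obtain ⟨a, b⟩ := hP l hl
    have c : l ≤ P.sup id := le_sup (f := id) hl
    have d := a.two_le
    have e : l ≠ 4 := fun e => by
      rw [e] at a
      norm_num at a
    simp only [mem_insert, mem_Ioc]
    omega
  refine (sum_le_sum_of_subset_of_nonneg h1 fun _ _ _ => by positivity).trans ?_
  rw [sum_insert (by simp)]
  have h2 := sum_Ioc_inv_sq_le_sub (α := ℝ) (k := 4) (n := P.sup id + 4) (by norm_num) (by omega)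
  have h3 : (0 : ℝ) ≤ (((P.sup id + 4 : ℕ) : ℝ))⁻¹ := by positivity
  have h4 : (((4 : ℕ) : ℝ))⁻¹ = 1 / 4 := by norm_num
  have h5 : (((2 : ℕ) : ℝ) ^ 2)⁻¹ = 1 / 4 := by norm_num
  linarith

lemma t9_harm (N : ℕ) (P : Finset ℕ) (hP : P ⊆ Icc 1 N) :
    ∑ l ∈ P, ((l : ℝ))⁻¹ ≤ Nat.log 2 N + 2 := by
  refine (sum_le_sum_of_subset_of_nonneg hP fun _ _ _ => by positivity).trans ?_
  have h1 := harmonic_le_one_add_log N
  rw [harmonic_eq_sum_Icc] at h1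
  push_cast at h1
  have h2 : Real.log N ≤ Nat.log 2 N + 1 := by
    rcases Nat.eq_zero_or_pos N with rfl | hN
    · simp
    have h3 : (N : ℝ) ≤ 2 ^ (Nat.log 2 N + 1) := by
      exact_mod_cast (Nat.lt_pow_succ_log_self one_lt_two N).le
    have h4 := Real.log_le_log (by exact_mod_cast hN) h3
    rw [Real.log_pow] at h4
    have h5 : Real.log 2 ≤ 1 := by have := Real.log_two_lt_d9; linarith
    have h6 : (0 : ℝ) ≤ ((Nat.log 2 N + 1 : ℕ) : ℝ) := Nat.cast_nonneg _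
    push_cast at h4 h6
    nlinarith
  linarith

open Classical in
lemma t9_core {J L N : ℕ} (c d a0 : ℤ) (x0 : ℕ → ℤ)
    (hc : ∀ l : ℕ, l.Prime → ∀ j : ℕ, (l : ℤ) ∣ a0 + c * j →
      l ≠ 3 ∧ IsCoprime (l : ℤ) c ∧ IsCoprime (l : ℤ) d)
    (ha : ∀ j < J, 0 < a0 + c * (j : ℕ) ∧ a0 + c * (j : ℕ) ≤ N)
    (hJ : 8 * (Nat.log 2 N + 2) ≤ J) (hL : 8 * (Nat.log 2 N + 2) ≤ L) :
    J * L ≤ 4 * #{p ∈ range J ×ˢ range L | IsCoprime (a0 + c * p.1) (x0 p.1 + d * p.2)} := by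
  set P : Finset ℕ :=
    {l ∈ Icc 1 N | l.Prime ∧ l ≠ 3 ∧ IsCoprime (l : ℤ) c ∧ IsCoprime (l : ℤ) d} with hPdef
  have hP : ∀ l ∈ P, l.Prime ∧ l ≠ 3 ∧ IsCoprime (l : ℤ) c ∧ IsCoprime (l : ℤ) d :=
    fun l hl => (mem_filter.1 hl).2
  set n : ℕ → ℕ := fun l => #((range J).filter fun j : ℕ => (l : ℤ) ∣ a0 + c * j) with hn
  have b1 : #{p ∈ range J ×ˢ range L | ¬IsCoprime (a0 + c * p.1) (x0 p.1 + d * p.2)} ≤
      ∑ l ∈ P, (L / l + 1) * n l := by
    refine (card_le_card (t := P.biUnion fun l => {p ∈ range J ×ˢ range L |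
      (l : ℤ) ∣ a0 + c * p.1 ∧ (l : ℤ) ∣ x0 p.1 + d * p.2}) fun p hp => ?_).trans
      (card_biUnion_le.trans (sum_le_sum fun l hl => ?_))
    · obtain ⟨h1, h2⟩ := mem_filter.1 hp
      rw [Int.isCoprime_iff_gcd_eq_one] at h2
      obtain ⟨l, h3, h4⟩ := Nat.exists_prime_and_dvd h2
      have h5 : (l : ℤ) ∣ a0 + c * p.1 := (Int.natCast_dvd_natCast.2 h4).trans (Int.gcd_dvd_left ..)
      have h6 : (l : ℤ) ∣ x0 p.1 + d * p.2 :=
        (Int.natCast_dvd_natCast.2 h4).trans (Int.gcd_dvd_right ..)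
      obtain ⟨h7, h8⟩ := ha p.1 (mem_range.1 (mem_product.1 h1).1)
      have h9 := Int.le_of_dvd h7 h5
      exact mem_biUnion.2 ⟨l, mem_filter.2 ⟨mem_Icc.2 ⟨h3.one_le, by omega⟩, h3, hc l h3 _ h5⟩,
        mem_filter.2 ⟨h1, h5, h6⟩⟩
    · refine card_le_mul_card_image_of_maps_to (f := fun p : ℕ × ℕ => p.1) (fun p hp => ?_) _ fun j _ => ?_
      · obtain ⟨h1, h2, -⟩ := mem_filter.1 hp
        exact mem_filter.2 ⟨(mem_product.1 h1).1, h2⟩
      · refine le_trans ?_ (t9_cnt (hP l hl).1.pos (hP l hl).2.2.2 (x0 j) L)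
        refine card_le_card_of_injOn Prod.snd (fun p hp => ?_) fun p hp p' hp' e => ?_
        · obtain ⟨h1, h2⟩ := mem_filter.1 (mem_coe.1 hp)
          obtain ⟨h3, -, h4⟩ := mem_filter.1 h1
          exact mem_coe.2 (mem_filter.2 ⟨(mem_product.1 h3).2, h2 ▸ h4⟩)
        · exact Prod.ext ((mem_filter.1 (mem_coe.1 hp)).2.trans
            (mem_filter.1 (mem_coe.1 hp')).2.symm) e
  have b2 : ∑ l ∈ P, n l ≤ J * Nat.log 2 N := by
    have e : ∑ l ∈ P, n l = ∑ j ∈ range J,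
        #(P.filter fun l : ℕ => (l : ℤ) ∣ a0 + c * j) := by
      simp only [hn, card_filter]
      exact sum_comm
    rw [e]
    refine (sum_le_card_nsmul _ _ (Nat.log 2 N) fun j hj => ?_).trans (by simp)
    obtain ⟨h7, h8⟩ := ha j (mem_range.1 hj)
    have h0 : (a0 + c * j).natAbs ≠ 0 := by omega
    refine le_trans (card_le_card fun l hl => ?_)
      ((t9_omega h0).trans (Nat.log_mono_right (by omega)))
    obtain ⟨h1, h2⟩ := mem_filter.1 hl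
    exact Nat.mem_primeFactors.2 ⟨(hP l h1).1, Int.natCast_dvd.1 h2, h0⟩
  have b3 : ((∑ l ∈ P, L / l * n l : ℕ) : ℝ) ≤ L * J * (1 / 2) + L * (Nat.log 2 N + 2) := by
    have s1 := t9_sq P fun l hl => ⟨(hP l hl).1, (hP l hl).2.1⟩
    have s2 := t9_harm N P (filter_subset _ _)
    refine le_trans ?_ (add_le_add (mul_le_mul_of_nonneg_left s1 (by positivity))
      (mul_le_mul_of_nonneg_left s2 (by positivity)))
    rw [mul_sum, mul_sum, ← sum_add_distrib, Nat.cast_sum]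
    refine sum_le_sum fun l hl => ?_
    have h1 : ((n l : ℕ) : ℝ) ≤ J / l + 1 := by
      have h2 : ((n l : ℕ) : ℝ) ≤ ((J / l + 1 : ℕ) : ℝ) :=
        Nat.cast_le.2 (t9_cnt (hP l hl).1.pos (hP l hl).2.2.1 a0 J)
      have h3 : ((J / l : ℕ) : ℝ) ≤ J / l := Nat.cast_div_le
      rw [Nat.cast_add, Nat.cast_one] at h2
      linarith
    have h4 : ((L / l : ℕ) : ℝ) ≤ L / l := Nat.cast_div_le
    rw [Nat.cast_mul]
    refine (mul_le_mul h4 h1 (by positivity) (by positivity)).trans (le_of_eq ?_)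
    rw [div_eq_mul_inv, div_eq_mul_inv, ← inv_pow]
    ring
  have b4 : 2 * ∑ l ∈ P, L / l * n l ≤ L * J + 2 * (L * (Nat.log 2 N + 2)) := by
    have : (2 : ℝ) * ((∑ l ∈ P, L / l * n l : ℕ) : ℝ) ≤ L * J + 2 * (L * (Nat.log 2 N + 2)) := by
      linarith
    exact_mod_cast this
  simp only [add_mul, one_mul, sum_add_distrib] at b1
  have b5 := card_filter_add_card_filter_not (s := range J ×ˢ range L)
    (fun p => IsCoprime (a0 + c * p.1) (x0 p.1 + d * p.2))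
  rw [card_product, card_range, card_range] at b5
  have b6 := Nat.mul_le_mul_left L hJ
  have b7 := Nat.mul_le_mul_left J hL
  nlinarith

lemma t9_crt {u v : ℤ} (h : IsCoprime u v) (hp : 0 < u * v) (r s B : ℤ) :
    ∃ z, B ≤ z ∧ z < B + u * v ∧ u ∣ z - r ∧ v ∣ z - s := by
  obtain ⟨p, q, e⟩ := h
  have h1 := Int.emod_nonneg (r * q * v + s * p * u - B) hp.ne'
  have h2 := Int.emod_lt_of_pos (r * q * v + s * p * u - B) hp
  have h3 := Int.emod_add_mul_ediv (r * q * v + s * p * u - B) (u * v)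
  refine ⟨B + (r * q * v + s * p * u - B) % (u * v), by omega, by omega,
    ⟨s * p - r * p - v * ((r * q * v + s * p * u - B) / (u * v)), ?_⟩,
    ⟨r * q - s * q - u * ((r * q * v + s * p * u - B) / (u * v)), ?_⟩⟩
  · linear_combination h3 + r * e
  · linear_combination h3 + s * e

lemma t9_fix {m A J L : ℕ} (hm : m.Prime) (h5 : 5 ≤ m) (hA : 3 * m * J ≤ A)
    (hJ : 8 * (Nat.log 2 (2 * A) + 2) ≤ J) (hL : 8 * (Nat.log 2 (2 * A) + 2) ≤ L) (k : ℕ)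
    (hk : ¬m ∣ k) :
    ∃ S : Finset (ℤ × ℤ), J * L ≤ 4 * #S ∧ ∀ t ∈ S, ((A : ℤ) < t.1 ∧ t.1 ≤ 2 * A ∧ 0 ≤ t.2 ∧
      t.2 < 27 * m ^ 2 * L ∧ IsCoprime t.1 t.2 ∧ (27 * m ^ 2 : ℤ) ∣ 4 * t.1 ^ 3 - t.2 ^ 2) ∧
      (m : ℤ) ∣ t.1 - k ^ 2 ∧ (m : ℤ) ∣ t.2 - 2 * t.1 * k := by
  classical
  have m0 : (0 : ℤ) < m := by omega
  have c3 : IsCoprime (3 : ℤ) (m : ℤ) :=
    Nat.isCoprime_iff_coprime.2 ((Nat.coprime_primes Nat.prime_three hm).2 (by omega))
  have c27 : IsCoprime (27 : ℤ) ((m : ℤ) ^ 2) := by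
    have := c3.pow (m := 3) (n := 2)
    rwa [show (3 : ℤ) ^ 3 = 27 by norm_num] at this
  obtain ⟨a0, a1, a2, a3, a4⟩ := t9_crt c3 (by positivity) 1 ((k : ℤ) ^ 2) (A + 1)
  have a5 : ∀ j : ℕ, (3 : ℤ) ∣ a0 + 3 * m * j - 1 := fun j => by
    rw [show a0 + 3 * m * j - 1 = a0 - 1 + 3 * (m * j) by ring]
    exact a3.add (dvd_mul_right _ _)
  have a6 : ∀ j : ℕ, (m : ℤ) ∣ a0 + 3 * m * j - k ^ 2 := fun j => by
    rw [show a0 + 3 * m * j - k ^ 2 = a0 - k ^ 2 + m * (3 * j) by ring]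
    exact a4.add (dvd_mul_right _ _)
  have a7 : ∀ j < J, (A : ℤ) < a0 + 3 * m * (j : ℕ) ∧ a0 + 3 * m * (j : ℕ) ≤ 2 * A := fun j hj => by
    have e1 : (0 : ℤ) ≤ 3 * m * j := by positivity
    have e2 : (3 * m * (j + 1) : ℤ) ≤ A := by
      exact_mod_cast (Nat.mul_le_mul_left (3 * m) (Nat.succ_le_of_lt hj)).trans hA
    constructor <;> linarith
  choose x0 x1 x2 x3 x4 using fun j : ℕ => t9_crt c27 (by positivity) (1 - 3 * (a0 + 3 * m * j))
    (k * (3 * (a0 + 3 * m * j) - k ^ 2)) 0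
  have core := t9_core (J := J) (L := L) (N := 2 * A) (3 * m) (27 * m ^ 2) a0 x0
    (fun l hl j hj => by
      have e3 : l ≠ 3 := by
        rintro rfl
        have := dvd_sub hj (a5 j)
        norm_num at this
      have em : l ≠ m := by
        rintro rfl
        have := dvd_sub hj (a6 j)
        rw [sub_sub_cancel] at this
        exact hk (hm.dvd_of_dvd_pow (n := 2) (by exact_mod_cast this))
      have f3 : IsCoprime (l : ℤ) (3 : ℤ) :=
        Nat.isCoprime_iff_coprime.2 ((Nat.coprime_primes hl Nat.prime_three).2 e3)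
      have fm : IsCoprime (l : ℤ) (m : ℤ) :=
        Nat.isCoprime_iff_coprime.2 ((Nat.coprime_primes hl hm).2 em)
      refine ⟨e3, f3.mul_right fm, IsCoprime.mul_right ?_ fm.pow_right⟩
      have := f3.pow_right (n := 3)
      rwa [show (3 : ℤ) ^ 3 = 27 by norm_num] at this)
    (fun j hj => by
      obtain ⟨e1, e2⟩ := a7 j hj
      push_cast
      constructor <;> omega) hJ hL
  refine ⟨image (fun p : ℕ × ℕ => (a0 + 3 * m * p.1, x0 p.1 + 27 * m ^ 2 * p.2))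
    {p ∈ range J ×ˢ range L | IsCoprime (a0 + 3 * m * p.1) (x0 p.1 + 27 * m ^ 2 * p.2)}, ?_, ?_⟩
  · rw [card_image_of_injective]
    · convert core
    · rintro ⟨j, t⟩ ⟨j', t'⟩ e
      simp only [Prod.mk.injEq] at e ⊢
      obtain ⟨e1, e2⟩ := e
      have e3 : j = j' := by
        have : (j : ℤ) = j' := mul_left_cancel₀ (a := 3 * (m : ℤ)) (by positivity) (by linarith)
        exact_mod_cast this
      subst e3
      have : (t : ℤ) = t' := mul_left_cancel₀ (a := 27 * (m : ℤ) ^ 2) (by positivity) (by linarith)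
      exact ⟨rfl, by exact_mod_cast this⟩
  · intro q hq
    obtain ⟨⟨j, t⟩, hp, rfl⟩ := mem_image.1 hq
    obtain ⟨h1, h2⟩ := mem_filter.1 hp
    obtain ⟨h3, h4⟩ := mem_product.1 h1
    obtain ⟨e1, e2⟩ := a7 j (mem_range.1 h3)
    have y1 := x1 j
    have y2 := x2 j
    obtain ⟨w3, y3⟩ := x3 j
    obtain ⟨w4, y4⟩ := x4 j
    obtain ⟨w5, y5⟩ := a5 j
    obtain ⟨w6, y6⟩ := a6 j
    have e4 : (27 * m ^ 2 * (t + 1) : ℤ) ≤ 27 * m ^ 2 * L :=
      mul_le_mul_of_nonneg_left (by exact_mod_cast mem_range.1 h4) (by positivity)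
    have e5 : (0 : ℤ) ≤ 27 * m ^ 2 * t := by positivity
    simp only at h2 ⊢
    generalize a0 + 3 * (m : ℤ) * j = a at *
    generalize x0 j = x at *
    refine ⟨⟨e1, e2, by linarith, by linarith, h2, c27.mul_dvd ?_ ?_⟩, ⟨w6, y6⟩, ?_⟩
    · have ea : a = 1 + 3 * w5 := by linarith
      have ex : x = 1 - 3 * a + 27 * w3 := by linarith
      refine ⟨w5 ^ 2 * (1 + 4 * w5) - (w3 + m ^ 2 * t) * (2 * (1 - 3 * a) + 27 * (w3 + m ^ 2 * t)),
        ?_⟩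
      rw [ex, ea]
      ring
    · have ea : a = k ^ 2 + m * w6 := by linarith
      have ex : x = k * (3 * a - k ^ 2) + m ^ 2 * w4 := by linarith
      refine ⟨(4 * a - k ^ 2) * w6 ^ 2 -
        (w4 + 27 * t) * (2 * (k * (3 * a - k ^ 2)) + m ^ 2 * (w4 + 27 * t)), ?_⟩
      rw [ex, ea]
      ring
    · exact ⟨m * w4 + 27 * m * t + k * w6, by linear_combination y4 + k * y6⟩

/-- T9 -/
theorem many {m A J L : ℕ} (hm : m.Prime) (h5 : 5 ≤ m) (hA : 3 * m * J ≤ A)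
    (hJ : 8 * (Nat.log 2 (2 * A) + 2) ≤ J) (hL : 8 * (Nat.log 2 (2 * A) + 2) ≤ L) :
    ∃ S : Finset (ℤ × ℤ), (m - 1) * J * L ≤ 4 * #S ∧ ∀ t ∈ S, (A : ℤ) < t.1 ∧ t.1 ≤ 2 * A ∧ 0 ≤ t.2 ∧
      t.2 < 27 * m ^ 2 * L ∧ IsCoprime t.1 t.2 ∧ (27 * m ^ 2 : ℤ) ∣ 4 * t.1 ^ 3 - t.2 ^ 2 := by
  classical
  have hk : ∀ k ∈ Ico 1 m, ¬m ∣ k := fun k h =>
    Nat.not_dvd_of_pos_of_lt (mem_Ico.1 h).1 (mem_Ico.1 h).2
  choose! S h1 h2 using fun k (h : k ∈ Ico 1 m) => t9_fix hm h5 hA hJ hL k (hk k h)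
  refine ⟨(Ico 1 m).biUnion S, ?_, fun t ht => ?_⟩
  · rw [card_biUnion, mul_sum, mul_assoc]
    · have := card_nsmul_le_sum (Ico 1 m) (fun k => 4 * #(S k)) (J * L) h1
      rwa [Nat.card_Ico, smul_eq_mul] at this
    · intro k a k' b hne
      refine disjoint_left.2 fun t c d => hne ?_
      obtain ⟨-, e1, e2⟩ := h2 k a t c
      obtain ⟨-, -, e3⟩ := h2 k' b t d
      have p : Prime (m : ℤ) := Nat.prime_iff_prime_int.1 hm
      have e4 : (m : ℤ) ∣ 2 * t.1 * ((k' : ℤ) - k) := by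
        have := dvd_sub e2 e3
        rwa [show t.2 - 2 * t.1 * k - (t.2 - 2 * t.1 * k') = 2 * t.1 * ((k' : ℤ) - k) by ring]
          at this
      rcases p.dvd_or_dvd e4 with e5 | e5
      · rcases p.dvd_or_dvd e5 with e6 | e6
        · have := Int.le_of_dvd (by norm_num) e6
          omega
        · have := dvd_sub e6 e1
          rw [sub_sub_cancel] at this
          exact (hk k a (hm.dvd_of_dvd_pow (n := 2) (by exact_mod_cast this))).elim
      · exact Nat.ModEq.eq_of_lt_of_lt (Nat.modEq_iff_dvd.2 e5) (mem_Ico.1 (mem_coe.1 a)).2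
          (mem_Ico.1 (mem_coe.1 b)).2
  · obtain ⟨k, a, b⟩ := mem_biUnion.1 ht
    exact (h2 k a t b).1

end Pool.Agent.MP_d0fd9b_nt.S72
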