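import Pool.Agent.MP_d0fd9b_nt.S72.T4
import Pool.Agent.MP_d0fd9b_nt.S72.T5
import Pool.Agent.MP_d0fd9b_nt.S72.T8
import Pool.Agent.MP_d0fd9b_nt.S72.T9

set_option autoImplicit false

namespace Pool.Agent.MP_d0fd9b_nt.S72

open Finset NumberField H72

open Filter in
lemma t10_primes {η : ℝ} (hη : 0 < η) : ∀ᶠ x : ℝ in atTop,
    x ^ (1 - η) ≤ (((range (⌊x⌋₊ + 1)).filter fun p => p.Prime ∧ Odd p).card : ℝ) := by
  filter_upwards [(tendsto_rpow_atTop (half_pos hη)).eventually_ge_atTop (16 / η), eventually_ge_atTop 32] with x h1 h2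
  have x0 : 0 < x := by linarith
  have a1 := Chebyshev.pi_ge' (x := x) (by linarith)
  have a2 : Nat.primeCounting ⌊x⌋₊ ≤
      ((range (⌊x⌋₊ + 1)).filter fun p => p.Prime ∧ Odd p).card + 1 := by
    rw [Nat.primeCounting, Nat.primeCounting', Nat.count_eq_card_filter_range]
    refine (card_le_card fun p hp => ?_).trans (card_insert_le 2 _)
    obtain ⟨h3, h4⟩ := mem_filter.1 hp
    rcases h4.eq_two_or_odd' with h | h
    · exact mem_insert.2 (Or.inl h)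
    · exact mem_insert_of_mem (mem_filter.2 ⟨h3, h4, h⟩)
  have a3 : (Nat.primeCounting ⌊x⌋₊ : ℝ) ≤
      ((range (⌊x⌋₊ + 1)).filter fun p => p.Prime ∧ Odd p).card + 1 := by exact_mod_cast a2
  have l0 : 0 < Real.log x := Real.log_pos (by linarith)
  have l1 := Real.log_le_rpow_div x0.le (half_pos hη)
  have l2 := Real.log_two_gt_d9
  have l3 := Real.log_two_lt_d9
  have l4 : Real.log (x + 2) ≤ 3 * Real.log 2 + (x + 2) / 8 - 1 := by
    have := Real.log_le_sub_one_of_pos (show 0 < (x + 2) / 2 ^ 3 by positivity)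
    rw [Real.log_div (by positivity) (by positivity), Real.log_pow] at this
    push_cast at this
    linarith
  have l5 : Real.log x ≤ x / 8 := by
    have := Real.log_le_sub_one_of_pos (show 0 < x / 2 ^ 4 by positivity)
    rw [Real.log_div (by positivity) (by positivity), Real.log_pow] at this
    push_cast at this
    linarith
  rw [div_le_iff₀ l0] at a1
  have e : x ^ (1 - η) * x ^ (η / 2) * x ^ (η / 2) = x := by
    rw [← Real.rpow_add x0, ← Real.rpow_add x0, show 1 - η + η / 2 + η / 2 = 1 by ring, Real.rpow_one]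
  have p0 : 0 < x ^ (1 - η) := by positivity
  have p1 : x ^ (1 - η) * Real.log x ≤ x / 8 := by
    rw [div_le_iff₀ hη] at h1
    rw [le_div_iff₀ (half_pos hη)] at l1
    refine le_of_mul_le_mul_left (a := η / 2) ?_ (half_pos hη)
    have q1 := mul_le_mul_of_nonneg_left l1 p0.le
    have q2 := mul_le_mul_of_nonneg_left h1 (show 0 ≤ x ^ (1 - η) * x ^ (η / 2) by positivity)
    nlinarith
  refine le_of_mul_le_mul_right (a := Real.log x) ?_ l0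
  nlinarith [mul_le_mul_of_nonneg_right a3 l0.le]

/-- the radicand of the mirror field -/
def t10_phi (d : ℤ) : ℤ := if 3 ∣ d then -(d / 3) else -(3 * d)

lemma t10_neg {d : ℤ} (h : Squarefree d) : Squarefree (-d) :=
  (Associated.refl d).neg_right.squarefree_iff.1 h

lemma t10_phi_spec {d : ℤ} (hs : Squarefree d) (h0 : 0 < d) :
    Squarefree (t10_phi d) ∧ t10_phi d < 0 ∧ -t10_phi d ≤ 3 * d ∧ -t10_phi d ≤ 3 * d ∧
      ∃ c : ℤ, c ≠ 0 ∧ 27 * d = -t10_phi d * c ^ 2 := by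
  unfold t10_phi
  split_ifs with h
  · obtain ⟨k, rfl⟩ := h
    rw [Int.mul_ediv_cancel_left _ (by norm_num)]
    exact ⟨t10_neg hs.of_mul_right, by omega, by omega, by omega, 9, by norm_num, by ring⟩
  · refine ⟨t10_neg (squarefree_mul_iff.2 ⟨Int.prime_three.irreducible.isRelPrime_iff_not_dvd.2 h,
      Int.prime_three.squarefree, hs⟩), by omega, by omega, by omega, 3, by norm_num, by ring⟩

/-- the property of a large radicand -/
def t10_Q (B : ℤ) (e : ℤ) : Prop := Squarefree e ∧ e < 0 ∧ -e ≤ B ∧ 1 < torsion 3 e ∧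
  ∃ d, Squarefree d ∧ 1 ≤ d ∧ d ≤ B ∧ 1 < torsion 3 d ∧ t10_phi d = e

lemma t10_pt {A B a x m : ℤ} (hA : 72 ≤ A) (ha : A < a) (ha2 : a ≤ 2 * A) (hx : x ^ 2 ≤ A ^ 3)
    (hc : IsCoprime a x) (hm : m ≠ 0) (hB : 32 * A ^ 3 ≤ 9 * m ^ 2 * B)
    (hd : (27 * m ^ 2 : ℤ) ∣ 4 * a ^ 3 - x ^ 2) :
    ∃ e y : ℤ, Squarefree e ∧ e < 0 ∧ x ^ 2 - e * y ^ 2 = 4 * a ^ 3 ∧ (A ^ 2 < -e → t10_Q B e) := by
  obtain ⟨D, hD⟩ := hd
  have a3 : A ^ 3 < a ^ 3 := pow_lt_pow_left₀ ha (by omega) (by norm_num)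
  have a4 : a ^ 3 ≤ (2 * A) ^ 3 := pow_le_pow_left₀ (by omega) ha2 3
  have A3 : 0 < A ^ 3 := by positivity
  have m2 : 0 < m ^ 2 := by positivity
  have D0 : 0 < D := by
    by_contra h
    have : 27 * m ^ 2 * D ≤ 0 := mul_nonpos_of_nonneg_of_nonpos (by positivity) (not_lt.1 h)
    omega
  obtain ⟨d, f, hdf, hs⟩ := Nat.sq_mul_squarefree D.toNat
  have e1 : (f : ℤ) ^ 2 * d = D := by
    have := congrArg (Nat.cast : ℕ → ℤ) hdf
    rwa [Int.toNat_of_nonneg D0.le, Nat.cast_mul, Nat.cast_pow] at this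
  have f0 : (f : ℤ) ≠ 0 := by rintro h; rw [h] at e1; simp at e1; omega
  have d0 : (0 : ℤ) < d := by exact_mod_cast Nat.pos_of_ne_zero hs.ne_zero
  have hs' : Squarefree (d : ℤ) := Int.squarefree_natCast.2 hs
  obtain ⟨p1, p2, p3, p4, c, c0, p5⟩ := t10_phi_spec hs' d0
  have eq1 : x ^ 2 - t10_phi d * (c * (m * f)) ^ 2 = 4 * a ^ 3 := by
    linear_combination (-1) * hD + 27 * m ^ 2 * e1 - (m * f) ^ 2 * p5
  refine ⟨t10_phi d, c * (m * f), p1, p2, eq1, fun h => ?_⟩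
  have f1 : (1 : ℤ) ≤ (f : ℤ) ^ 2 := by
    have : 0 < (f : ℤ) ^ 2 := by positivity
    omega
  have dD : (d : ℤ) ≤ D := by nlinarith
  have dB : 3 * (d : ℤ) ≤ B := by
    refine le_of_mul_le_mul_left (a := 9 * m ^ 2) ?_ (by positivity)
    have := mul_le_mul_of_nonneg_left dD m2.le
    nlinarith [sq_nonneg x]
  have AA : 72 * A ≤ A ^ 2 := by nlinarith
  refine ⟨p1, p2, by omega, imag_nontrivial p1 (by omega) (by omega)
    (mul_ne_zero c0 (mul_ne_zero hm f0)) hc eq1, d, hs', d0, by omega,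
    real_nontrivial (m := m * f) hs' (by omega) (by omega) (mul_ne_zero hm f0) hc ?_, rfl⟩
  linear_combination hD - 27 * m ^ 2 * e1

lemma t10_harm (B : ℕ) (U : Finset ℤ) (hU : ∀ e ∈ U, e < 0 ∧ -e ≤ B) :
    ∑ e ∈ U, 1 / |(e : ℝ)| ≤ 1 + Real.log B := by
  refine le_trans ?_ (harmonic_le_one_add_log B)
  simp only [harmonic_eq_sum_Icc, Rat.cast_sum, Rat.cast_inv, Rat.cast_natCast]
  have hsub : U ⊆ (Icc 1 B).image fun j : ℕ => -(j : ℤ) := fun e he =>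
    mem_image.2 ⟨(-e).toNat, mem_Icc.2 (by have := hU e he; omega), by have := hU e he; omega⟩
  refine (sum_le_sum_of_subset_of_nonneg hsub fun _ _ _ => by positivity).trans ?_
  rw [sum_image fun i _ j _ h => by simpa using h]
  exact sum_le_sum fun j _ => by simp

lemma t10_count {A : ℕ} (hA : 1 ≤ A) (T : Finset (ℤ × ℤ)) (Q : ℤ → Prop) (U : Finset ℤ)
    (hU : ∀ e : ℤ, Squarefree e → e < 0 → -e ≤ (A : ℤ) ^ 2 → e ∈ U)
    (hT : ∀ t ∈ T, 0 < t.1 ∧ t.1 ≤ 2 * A ∧ IsCoprime t.1 t.2 ∧ ∃ e y : ℤ, Squarefree e ∧ e < 0 ∧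
      t.2 ^ 2 - e * y ^ 2 = 4 * t.1 ^ 3 ∧ ((A : ℤ) ^ 2 < -e → Q e)) :
    ∃ E : Finset ℤ, (∀ e ∈ E, Q e) ∧ (#T : ℝ) ≤ 2000 * ∑ e ∈ U, (torsion 3 e : ℝ) ^ 2 +
      1000 * (A : ℝ) ^ 2 * (1 + Real.log (A ^ 2 : ℕ)) + 3000 * ∑ e ∈ E, (torsion 3 e : ℝ) := by
  classical
  have hT' : ∀ t : ℤ × ℤ, ∃ e y : ℤ, t ∈ T → Squarefree e ∧ e < 0 ∧
      t.2 ^ 2 - e * y ^ 2 = 4 * t.1 ^ 3 ∧ ((A : ℤ) ^ 2 < -e → Q e) := fun t => by
    by_cases h : t ∈ T
    · obtain ⟨-, -, -, e, y, h'⟩ := hT t h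
      exact ⟨e, y, fun _ => h'⟩
    · exact ⟨0, 0, fun h' => (h h').elim⟩
  choose ee yy hey using hT'
  have A0 : (0 : ℝ) < A := by exact_mod_cast hA
  have key : ∀ e ∈ T.image ee, Squarefree e ∧ e < 0 ∧ ((A : ℤ) ^ 2 < -e → Q e) ∧
      (#(T.filter fun t => ee t = e) : ℝ) ≤ 1000 * torsion 3 e * (1 + 2 * A / √|(e : ℝ)|) := by
    intro e he
    obtain ⟨t, ht, rfl⟩ := mem_image.1 he
    obtain ⟨q1, q2, -, q4⟩ := hey t ht
    refine ⟨q1, q2, q4, ?_⟩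
    have := rep_le q1 q2 (A := 2 * A) (by positivity)
      ((T.filter fun u => ee u = ee t).image fun u => (u.1, u.2, yy u)) fun u hu => by
        obtain ⟨v, hv, rfl⟩ := mem_image.1 hu
        obtain ⟨v1, v2⟩ := mem_filter.1 hv
        obtain ⟨r1, r2, r3, -⟩ := hT v v1
        exact ⟨r1, by exact_mod_cast r2, r3, v2 ▸ (hey v v1).2.2.1⟩
    rwa [card_image_of_injective _ fun u v h => Prod.ext (congrArg (·.1) h) (congrArg (·.2.1) h)] at this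
  refine ⟨(T.image ee).filter fun e => (A : ℤ) ^ 2 < -e,
    fun e he => (key e (mem_filter.1 he).1).2.2.1 (mem_filter.1 he).2, ?_⟩
  rw [card_eq_sum_card_image ee T, Nat.cast_sum,
    ← sum_filter_not_add_sum_filter (T.image ee) fun e => (A : ℤ) ^ 2 < -e]
  refine add_le_add ?_ ?_
  · set V := (T.image ee).filter fun e => ¬ (A : ℤ) ^ 2 < -e
    have hV : ∀ e ∈ V, e ∈ T.image ee ∧ -e ≤ (A : ℤ) ^ 2 := fun e he =>
      ⟨(mem_filter.1 he).1, not_lt.1 (mem_filter.1 he).2⟩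
    have h1 := t10_harm (A ^ 2) V fun e he => ⟨(key e (hV e he).1).2.1, by exact_mod_cast (hV e he).2⟩
    have h2 : ∑ e ∈ V, (torsion 3 e : ℝ) ^ 2 ≤ ∑ e ∈ U, (torsion 3 e : ℝ) ^ 2 :=
      sum_le_sum_of_subset_of_nonneg (fun e he => hU e (key e (hV e he).1).1 (key e (hV e he).1).2.1
        (hV e he).2) fun _ _ _ => by positivity
    calc _ ≤ ∑ e ∈ V, (2000 * (torsion 3 e : ℝ) ^ 2 + 1000 * (A : ℝ) ^ 2 * (1 / |(e : ℝ)|)) := by
          refine sum_le_sum fun e he => ((key e (hV e he).1).2.2.2).trans ?_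
          have e0 : 0 < |(e : ℝ)| := abs_pos.2 (by exact_mod_cast (key e (hV e he).1).2.1.ne)
          have s0 := Real.sqrt_pos.2 e0
          have s1 : (A / √|(e : ℝ)|) ^ 2 = (A : ℝ) ^ 2 * (1 / |(e : ℝ)|) := by
            rw [div_pow, Real.sq_sqrt e0.le]; ring
          have s2 : (torsion 3 e : ℝ) ≤ (torsion 3 e : ℝ) ^ 2 := by
            exact_mod_cast Nat.le_self_pow two_ne_zero _
          rw [mul_div_assoc]
          nlinarith [sq_nonneg ((torsion 3 e : ℝ) - A / √|(e : ℝ)|)]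
      _ ≤ _ := by
          rw [sum_add_distrib, ← mul_sum, ← mul_sum]
          gcongr
  · rw [mul_sum]
    refine sum_le_sum fun e he => ((key e (mem_filter.1 he).1).2.2.2).trans ?_
    have h1 : (A : ℝ) ^ 2 ≤ |(e : ℝ)| := by
      have : ((A : ℤ) ^ 2 : ℤ) ≤ |e| := (mem_filter.1 he).2.le.trans (neg_le_abs e)
      exact_mod_cast this
    have h2 : (A : ℝ) ≤ √|(e : ℝ)| := Real.le_sqrt_of_sq_le h1
    have h3 : 2 * A / √|(e : ℝ)| ≤ 2 := by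
      rw [div_le_iff₀ (A0.trans_le h2)]; linarith
    nlinarith [(Nat.cast_nonneg (torsion 3 e) : (0 : ℝ) ≤ _)]

lemma t10_div {a b : ℕ} (hb : 0 < b) (h : b ≤ a) : a ≤ 2 * b * (a / b) := by
  have h1 := Nat.div_add_mod a b
  have h2 := Nat.mod_lt a hb
  have h3 : 1 ≤ a / b := (Nat.one_le_div_iff hb).2 h
  nlinarith

/-- the pairs attached to one prime -/
lemma t10_one {n w m : ℕ} (hw : 2592 ≤ w) (hn : 16 * n + 200 ≤ w) (hm : m.Prime) (h5 : 5 ≤ m)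
    (hhi : m ≤ w ^ (n + 2)) : ∃ S : Finset (ℤ × ℤ), w ^ (3 * n + 45) ≤ #S ∧ ∀ t ∈ S,
      ((w ^ (2 * n + 20) : ℕ) : ℤ) < t.1 ∧ t.1 ≤ 2 * (w ^ (2 * n + 20) : ℕ) ∧ 0 ≤ t.2 ∧
      t.2 < (w ^ (3 * n + 30) : ℕ) ∧ IsCoprime t.1 t.2 ∧
      (27 * m ^ 2 : ℤ) ∣ 4 * t.1 ^ 3 - t.2 ^ 2 := by
  have w1 : 1 ≤ w := by omega
  have m2 : m ^ 2 ≤ w ^ (2 * n + 4) := (Nat.pow_le_pow_left hhi 2).trans (by rw [← pow_mul]; exact le_of_eq (by congr 1; ring))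
  have hlog : Nat.log 2 (2 * w ^ (2 * n + 20)) ≤ (2 * n + 20) * w + 1 := by
    refine Nat.le_of_lt_succ (Nat.log_lt_of_lt_pow' (by omega) ?_)
    have : w ^ (2 * n + 20) ≤ 2 ^ ((2 * n + 20) * w) := by
      rw [mul_comm (2 * n + 20) w, pow_mul]
      exact Nat.pow_le_pow_left Nat.lt_two_pow_self.le _
    have h0 : 0 < 2 ^ ((2 * n + 20) * w) := by positivity
    rw [Nat.succ_eq_add_one, pow_succ 2, pow_succ 2]
    omega
  have hl : 8 * (Nat.log 2 (2 * w ^ (2 * n + 20)) + 2) ≤ w ^ 2 := by nlinarith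
  have hJ : w ^ 2 ≤ w ^ (2 * n + 20) / (3 * m) := by
    rw [Nat.le_div_iff_mul_le (by omega)]
    calc w ^ 2 * (3 * m) ≤ w ^ 2 * (w * w ^ (n + 2)) := by gcongr; omega
      _ = w ^ (n + 5) := by ring
      _ ≤ _ := Nat.pow_le_pow_right w1 (by omega)
  have hL : w ^ 2 ≤ w ^ (3 * n + 30) / (27 * m ^ 2) := by
    rw [Nat.le_div_iff_mul_le (by positivity)]
    calc w ^ 2 * (27 * m ^ 2) ≤ w ^ 2 * (w * w ^ (2 * n + 4)) := by gcongr; omega
      _ = w ^ (2 * n + 7) := by ring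
      _ ≤ _ := Nat.pow_le_pow_right w1 (by omega)
  have w2 : 1 ≤ w ^ 2 := Nat.one_le_pow _ _ w1
  have j1 := t10_div (a := w ^ (2 * n + 20)) (b := 3 * m) (by omega)
    ((Nat.one_le_div_iff (by omega)).1 (w2.trans hJ))
  have l1 := t10_div (a := w ^ (3 * n + 30)) (b := 27 * m ^ 2) (by positivity)
    ((Nat.one_le_div_iff (by positivity)).1 (w2.trans hL))
  have l2 := Nat.mul_div_le (w ^ (3 * n + 30)) (27 * m ^ 2)
  obtain ⟨S, h1, h2⟩ := many hm h5 (Nat.mul_div_le (w ^ (2 * n + 20)) (3 * m)) (hl.trans hJ) (hl.trans hL)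
  refine ⟨S, ?_, fun t ht => ?_⟩
  · set J := w ^ (2 * n + 20) / (3 * m)
    set L := w ^ (3 * n + 30) / (27 * m ^ 2)
    refine Nat.le_of_mul_le_mul_left (c := w ^ (2 * n + 5)) ?_ (by positivity)
    calc w ^ (2 * n + 5) * w ^ (3 * n + 45) = w ^ (2 * n + 20) * w ^ (3 * n + 30) := by ring
      _ ≤ 2 * (3 * m) * J * (2 * (27 * m ^ 2) * L) := Nat.mul_le_mul j1 l1
      _ = 324 * m ^ 2 * (m * J * L) := by ring
      _ ≤ 324 * w ^ (2 * n + 4) * (2 * (m - 1) * J * L) := by gcongr; omega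
      _ = 648 * w ^ (2 * n + 4) * ((m - 1) * J * L) := by ring
      _ ≤ 648 * w ^ (2 * n + 4) * (4 * #S) := by gcongr
      _ = 2592 * w ^ (2 * n + 4) * #S := by ring
      _ ≤ w * w ^ (2 * n + 4) * #S := by gcongr
      _ = _ := by ring
  · obtain ⟨a1, a2, a3, a4, a5, a6⟩ := h2 t ht
    exact ⟨a1, a2, a3, a4.trans_le (by exact_mod_cast l2), a5, a6⟩

lemma t10_rpow {w : ℝ} (hw : 1 ≤ w) (a b : ℕ) {δ : ℝ} (h : a * δ ≤ b) : (w ^ a) ^ δ ≤ w ^ b := by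
  rw [← Real.rpow_natCast, ← Real.rpow_mul (by linarith), ← Real.rpow_natCast]
  exact Real.rpow_le_rpow_of_exponent_le hw h

/-- many pairs -/
lemma t10_pairs (n : ℕ) (hn : 1 ≤ n) : ∀ᶠ w : ℕ in Filter.atTop, ∃ T : Finset (ℤ × ℤ),
    w ^ (4 * n + 43) ≤ #T ∧ ∀ t ∈ T, ((w ^ (2 * n + 20) : ℕ) : ℤ) < t.1 ∧
      t.1 ≤ 2 * (w ^ (2 * n + 20) : ℕ) ∧ 0 ≤ t.2 ∧ t.2 < (w ^ (3 * n + 30) : ℕ) ∧ IsCoprime t.1 t.2 ∧
      ∃ m : ℕ, w ^ n < m ∧ (27 * m ^ 2 : ℤ) ∣ 4 * t.1 ^ 3 - t.2 ^ 2 := by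
  classical
  obtain ⟨C, C1, hC⟩ := tau_le (ε := 1 / (6 * n + 61)) (by positivity)
  have hp := ((Filter.tendsto_pow_atTop (n := n + 2) (by omega)).comp
    (tendsto_natCast_atTop_atTop (R := ℝ))).eventually (t10_primes (η := 1 / (n + 2)) (by positivity))
  filter_upwards [hp, Filter.eventually_ge_atTop 2592, Filter.eventually_ge_atTop (16 * n + 200),
    (tendsto_natCast_atTop_atTop (R := ℝ)).eventually_ge_atTop C] with w h1 h2 h3 h4
  have w1 : 1 ≤ w := by omega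
  have w1' : (1 : ℝ) ≤ w := by exact_mod_cast w1
  simp only [Function.comp] at h1
  have e1 : ((w : ℝ) ^ (n + 2)) ^ (1 - 1 / (n + 2 : ℝ)) = w ^ (n + 1) := by
    rw [← Real.rpow_natCast, ← Real.rpow_mul (by linarith), ← Real.rpow_natCast]
    congr 1
    push_cast
    field_simp
    ring
  rw [e1, ← Nat.cast_pow, ← Nat.cast_pow, Nat.floor_natCast, Nat.cast_le] at h1
  set P := (Ioc (w ^ n) (w ^ (n + 2))).filter Nat.Prime
  have wn : w ≤ w ^ n := Nat.le_self_pow (by omega) w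
  have hP : w ^ n ≤ #P := by
    have hsub : ((range (w ^ (n + 2) + 1)).filter fun p => p.Prime ∧ Odd p) ⊆ range (w ^ n + 1) ∪ P := by
      intro p hp
      obtain ⟨p1, p2, -⟩ := mem_filter.1 hp
      rw [mem_range] at p1
      by_cases h : p ≤ w ^ n
      · exact mem_union_left _ (mem_range.2 (by omega))
      · exact mem_union_right _ (mem_filter.2 ⟨mem_Ioc.2 (by omega), p2⟩)
    have := h1.trans ((card_le_card hsub).trans (card_union_le _ _))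
    rw [card_range, pow_succ] at this
    nlinarith
  set T := (Ioc ((w ^ (2 * n + 20) : ℕ) : ℤ) (2 * (w ^ (2 * n + 20) : ℕ)) ×ˢ
    Ico (0 : ℤ) (w ^ (3 * n + 30) : ℕ)).filter fun t => IsCoprime t.1 t.2 ∧
      ∃ m : ℕ, w ^ n < m ∧ (27 * m ^ 2 : ℤ) ∣ 4 * t.1 ^ 3 - t.2 ^ 2
  have hT : ∀ t ∈ T, ((w ^ (2 * n + 20) : ℕ) : ℤ) < t.1 ∧
      t.1 ≤ 2 * (w ^ (2 * n + 20) : ℕ) ∧ 0 ≤ t.2 ∧ t.2 < (w ^ (3 * n + 30) : ℕ) ∧ IsCoprime t.1 t.2 ∧
      ∃ m : ℕ, w ^ n < m ∧ (27 * m ^ 2 : ℤ) ∣ 4 * t.1 ^ 3 - t.2 ^ 2 := fun t ht => by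
    obtain ⟨a1, a2, a3⟩ := mem_filter.1 ht
    obtain ⟨a4, a5⟩ := mem_product.1 a1
    exact ⟨(mem_Ioc.1 a4).1, (mem_Ioc.1 a4).2, (mem_Ico.1 a5).1, (mem_Ico.1 a5).2, a2, a3⟩
  refine ⟨T, ?_, hT⟩
  have key := card_mul_le_card_mul (s := P) (t := T) (m := w ^ (3 * n + 45)) (n := w ^ 2)
    (fun (m : ℕ) (t : ℤ × ℤ) => (27 * m ^ 2 : ℤ) ∣ 4 * t.1 ^ 3 - t.2 ^ 2) (fun m hm => ?_) fun t ht => ?_
  · refine Nat.le_of_mul_le_mul_right (c := w ^ 2) (le_trans ?_ key) (by positivity)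
    calc w ^ (4 * n + 43) * w ^ 2 = w ^ n * w ^ (3 * n + 45) := by ring
      _ ≤ _ := by gcongr
  · obtain ⟨m1, m2⟩ := mem_filter.1 hm
    obtain ⟨m3, m4⟩ := mem_Ioc.1 m1
    obtain ⟨S, s1, s2⟩ := t10_one h2 h3 m2 (by omega) m4
    refine s1.trans (card_le_card fun t ht => ?_)
    obtain ⟨a1, a2, a3, a4, a5, a6⟩ := s2 t ht
    exact mem_filter.2 ⟨mem_filter.2 ⟨mem_product.2 ⟨mem_Ioc.2 ⟨a1, a2⟩, mem_Ico.2 ⟨a3, a4⟩⟩,
      a5, m, m3, a6⟩, a6⟩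
  · obtain ⟨a1, a2, a3, a4, -, -⟩ := hT t ht
    push_cast at a1 a2 a4
    have w0 : (0 : ℤ) < w := by omega
    have b1 : t.2 ^ 2 ≤ ((w : ℤ) ^ (2 * n + 20)) ^ 3 :=
      (pow_le_pow_left₀ a3 a4.le 2).trans (le_of_eq (by ring))
    have b2 : ((w : ℤ) ^ (2 * n + 20)) ^ 3 < t.1 ^ 3 := pow_lt_pow_left₀ a1 (by positivity) (by norm_num)
    have b0 : 0 < ((w : ℤ) ^ (2 * n + 20)) ^ 3 := by positivity
    have b3 : t.1 ^ 3 ≤ (2 * (w : ℤ) ^ (2 * n + 20)) ^ 3 :=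
      pow_le_pow_left₀ (le_trans (by positivity) a1.le) a2 3
    have b4 : 0 < 4 * t.1 ^ 3 - t.2 ^ 2 := by omega
    have b5 : 4 * t.1 ^ 3 - t.2 ^ 2 ≤ (w : ℤ) ^ (6 * n + 61) := by
      have : (32 : ℤ) * w ^ (6 * n + 60) ≤ w * w ^ (6 * n + 60) := by gcongr; omega
      calc _ ≤ 4 * (2 * (w : ℤ) ^ (2 * n + 20)) ^ 3 := by nlinarith [sq_nonneg t.2]
        _ = 32 * w ^ (6 * n + 60) := by ring
        _ ≤ _ := this.trans (le_of_eq (by ring))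
    have b6 := hC (4 * t.1 ^ 3 - t.2 ^ 2).natAbs (by omega) ((w : ℝ) ^ (6 * n + 61)) (by
      have : ((4 * t.1 ^ 3 - t.2 ^ 2).natAbs : ℤ) ≤ (w : ℤ) ^ (6 * n + 61) := by omega
      exact_mod_cast this)
    have b7 := t10_rpow w1' (6 * n + 61) 1 (δ := 1 / (6 * n + 61)) (by
      push_cast; rw [mul_one_div_cancel (by positivity)])
    have b8 : (#(4 * t.1 ^ 3 - t.2 ^ 2).natAbs.divisors : ℝ) ≤ (w : ℝ) ^ 2 :=
      b6.trans ((mul_le_mul h4 b7 (by positivity) (by positivity)).trans (le_of_eq (by ring)))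
    refine le_trans (card_le_card fun m hm => ?_) (by exact_mod_cast b8)
    refine Nat.mem_divisors.2 ⟨Int.natCast_dvd.1 (Dvd.dvd.trans ⟨27 * m, by ring⟩ (mem_filter.1 hm).2), by omega⟩

open Classical in
lemma t10_core
    (h2 : ∀ ε : ℝ, 0 < ε → ∃ C : ℝ, 0 ≤ C ∧ ∀ N : ℕ, 1 ≤ N →
      ∑ d ∈ (Icc (-(N : ℤ)) N).filter (fun d => Squarefree d ∧ d ≠ 1), (torsion 3 d : ℝ) ^ 2 ≤
        C * (N : ℝ) ^ (1 + ε)) (n : ℕ) (hn : 1 ≤ n) : ∀ᶠ w : ℕ in Filter.atTop, ∃ E : Finset ℤ,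
      w ^ (4 * n + 20) ≤ #E ∧ ∀ e ∈ E, t10_Q (w ^ (4 * n + 61) : ℕ) e := by
  obtain ⟨C, C0, hC⟩ := h2 (1 / (4 * n + 61)) (by positivity)
  filter_upwards [t10_pairs n hn, Filter.eventually_ge_atTop 6000,
    (tendsto_natCast_atTop_atTop (R := ℝ)).eventually_ge_atTop (2000 * C + 1000 * (4 * n + 41))]
    with w ⟨T, t1, t2⟩ h3 h4
  have w1 : 1 ≤ w := by omega
  have w1' : (1 : ℝ) ≤ w := by exact_mod_cast w1
  have w6 : (6000 : ℝ) ≤ w := by exact_mod_cast h3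
  have wA : w ≤ w ^ (2 * n + 20) := Nat.le_self_pow (by omega) w
  obtain ⟨E, e1, e2⟩ := t10_count (A := w ^ (2 * n + 20)) (by omega) T (t10_Q (w ^ (4 * n + 61) : ℕ))
    ((Icc (-(((w ^ (2 * n + 20)) ^ 2 : ℕ) : ℤ)) ((w ^ (2 * n + 20)) ^ 2 : ℕ)).filter
      fun d => Squarefree d ∧ d ≠ 1)
    (fun e p1 p2 p3 => mem_filter.2 ⟨mem_Icc.2 ⟨by rw [Nat.cast_pow]; omega, by omega⟩, p1, by omega⟩)
    fun t ht => by
      obtain ⟨a1, a2, a3, a4, a5, m, m1, m2⟩ := t2 t ht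
      refine ⟨by omega, a2, a5, t10_pt (m := m) (by omega) a1 a2 ?_ a5 (by omega) ?_ m2⟩
      · exact (pow_le_pow_left₀ a3 a4.le 2).trans (le_of_eq (by push_cast; ring))
      · have : 32 * (w ^ (2 * n + 20)) ^ 3 ≤ 9 * m ^ 2 * w ^ (4 * n + 61) :=
          calc _ = 32 * (w ^ n) ^ 2 * w ^ (4 * n + 60) := by ring
            _ ≤ (9 * w) * m ^ 2 * w ^ (4 * n + 60) := by gcongr; omega
            _ = _ := by ring
        exact_mod_cast this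
  refine ⟨E, ?_, e1⟩
  have hr : ∀ a : ℕ, a ≤ 4 * n + 61 → ((w : ℝ) ^ a) ^ (1 + 1 / (4 * n + 61 : ℝ)) ≤ w ^ (a + 1) := by
    intro a ha
    refine t10_rpow w1' a (a + 1) ?_
    have : (a : ℝ) ≤ 4 * n + 61 := by exact_mod_cast ha
    push_cast
    rw [mul_add, mul_one, mul_one_div, add_le_add_iff_left, div_le_one (by positivity)]
    exact this
  have c1 := hC ((w ^ (2 * n + 20)) ^ 2) (Nat.one_le_pow _ _ (by positivity))
  have c2 := hC (w ^ (4 * n + 61)) (Nat.one_le_pow _ _ w1)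
  have eA : (((w ^ (2 * n + 20)) ^ 2 : ℕ) : ℝ) = (w : ℝ) ^ (4 * n + 40) := by push_cast; ring
  have eA' : ((w ^ (2 * n + 20) : ℕ) : ℝ) ^ 2 = (w : ℝ) ^ (4 * n + 40) := by push_cast; ring
  rw [eA] at c1 e2
  rw [eA', Real.log_pow] at e2
  rw [show ((w ^ (4 * n + 61) : ℕ) : ℝ) = (w : ℝ) ^ (4 * n + 61) from Nat.cast_pow _ _] at c2
  replace c1 := c1.trans (mul_le_mul_of_nonneg_left (hr _ (by omega)) C0)
  replace c2 := c2.trans (mul_le_mul_of_nonneg_left (hr _ le_rfl) C0)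
  have c3 : ∑ e ∈ E, (torsion 3 e : ℝ) ^ 2 ≤ C * (w : ℝ) ^ (4 * n + 61 + 1) := by
    refine le_trans (sum_le_sum_of_subset_of_nonneg (fun e he => ?_) fun _ _ _ => by positivity) c2
    obtain ⟨p1, p2, p3, -⟩ := e1 e he
    exact mem_filter.2 ⟨mem_Icc.2 ⟨by omega, by omega⟩, p1, by omega⟩
  have c4 := sq_sum_le_card_mul_sum_sq (s := E) (f := fun e => (torsion 3 e : ℝ))
  have t1' : (w : ℝ) ^ (4 * n + 43) ≤ #T := by exact_mod_cast t1
  have l1 : Real.log w ≤ w := (Real.log_le_sub_one_of_pos (by linarith)).trans (by linarith)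
  set z := (w : ℝ) ^ (4 * n + 40) with hz
  have z0 : 0 < z := by positivity
  have n0 : (0 : ℝ) ≤ n := n.cast_nonneg
  have l2 : 1 + ((4 * n + 40 : ℕ) : ℝ) * Real.log w ≤ (4 * n + 41) * w := by
    push_cast; nlinarith
  have s1 : z * w ^ 2 ≤ ∑ e ∈ E, (torsion 3 e : ℝ) := by
    have q1 : (w : ℝ) ^ (4 * n + 43) = z * w ^ 3 := by rw [hz]; ring
    have q2 : (w : ℝ) ^ (4 * n + 40 + 1) = z * w := by rw [hz]; ring
    rw [q1] at t1'
    rw [q2] at c1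
    have q3 := mul_le_mul_of_nonneg_left l2 z0.le
    have q4 := mul_le_mul_of_nonneg_left h4 (show 0 ≤ z * w by positivity)
    have q5 := mul_le_mul_of_nonneg_left w6 (show 0 ≤ z * w ^ 2 by positivity)
    have q6 : 0 ≤ z * w ^ 2 := by positivity
    nlinarith
  have Cw : C ≤ w := by nlinarith
  have fin : (w : ℝ) ^ (4 * n + 20) ≤ #E := by
    refine le_of_mul_le_mul_right (a := (w : ℝ) ^ (4 * n + 64)) ?_ (by positivity)
    calc (w : ℝ) ^ (4 * n + 20) * w ^ (4 * n + 64) = (z * w ^ 2) ^ 2 := by rw [hz]; ring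
      _ ≤ _ := pow_le_pow_left₀ (by positivity) s1 2
      _ ≤ _ := c4
      _ ≤ #E * (w * (w : ℝ) ^ (4 * n + 61 + 1)) := by gcongr; exact c3.trans (by gcongr)
      _ = #E * (w : ℝ) ^ (4 * n + 63) := by ring
      _ ≤ _ := mul_le_mul_of_nonneg_left (pow_le_pow_right₀ w1' (by omega)) (by positivity)
  exact_mod_cast fin

lemma t10_root {K w₀ N : ℕ} (hK : K ≠ 0) (h : w₀ ^ K ≤ N) :
    ∃ w, w₀ ≤ w ∧ w ^ K ≤ N ∧ N < (w + 1) ^ K := by
  have w0N : w₀ ≤ N := (Nat.le_self_pow hK w₀).trans h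
  refine ⟨Nat.findGreatest (fun w => w ^ K ≤ N) N, Nat.le_findGreatest w0N h,
    Nat.findGreatest_spec (P := fun w => w ^ K ≤ N) w0N h, ?_⟩
  by_cases h' : Nat.findGreatest (fun w => w ^ K ≤ N) N + 1 ≤ N
  · exact not_le.1 (Nat.findGreatest_is_greatest (P := fun w => w ^ K ≤ N) (Nat.lt_succ_self _) h')
  · exact lt_of_lt_of_le (not_le.1 h') (Nat.le_self_pow hK _)

open Classical in
theorem divisible
    (h2 : ∀ ε : ℝ, 0 < ε → ∃ C : ℝ, 0 ≤ C ∧ ∀ N : ℕ, 1 ≤ N →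
      ∑ d ∈ (Icc (-(N : ℤ)) N).filter (fun d => Squarefree d ∧ d ≠ 1), (torsion 3 d : ℝ) ^ 2 ≤
        C * (N : ℝ) ^ (1 + ε))
    {s : ℤ} (hs : s = 1 ∨ s = -1) {ε : ℝ} (hε : 0 < ε) : ∀ᶠ N : ℕ in Filter.atTop,
      (N : ℝ) ^ (1 - ε) ≤ #((Icc (1 : ℤ) N).filter fun d => Squarefree d ∧ 1 < torsion 3 (s * d)) := by
  obtain ⟨n, hn⟩ := exists_nat_ge (max 1 (42 / ε))
  have n1 : 1 ≤ n := by exact_mod_cast (le_max_left _ _).trans hn
  have n2 : 42 ≤ n * ε := (div_le_iff₀ hε).1 ((le_max_right _ _).trans hn)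
  obtain ⟨w₀, hw⟩ := Filter.eventually_atTop.1
    ((t10_core h2 n n1).and (Filter.eventually_ge_atTop (2 ^ (4 * n + 61))))
  filter_upwards [Filter.eventually_ge_atTop (w₀ ^ (4 * n + 61)), Filter.eventually_ge_atTop 1]
    with N hN N1
  obtain ⟨w, a1, a2, a3⟩ := t10_root (K := 4 * n + 61) (by omega) hN
  obtain ⟨⟨E, e1, e2⟩, b1⟩ := hw w a1
  have w1 : 1 ≤ w := le_trans (Nat.one_le_pow _ _ two_pos) b1
  have w1' : (1 : ℝ) ≤ w := by exact_mod_cast w1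
  have a4 : N ≤ w ^ (4 * n + 62) :=
    calc N ≤ (2 * w) ^ (4 * n + 61) := a3.le.trans (Nat.pow_le_pow_left (by omega) _)
      _ = 2 ^ (4 * n + 61) * w ^ (4 * n + 61) := mul_pow _ _ _
      _ ≤ w * w ^ (4 * n + 61) := by gcongr
      _ = _ := by ring
  have a5 : (N : ℝ) ^ (1 - ε) ≤ (w : ℝ) ^ (4 * n + 20) := by
    rcases le_total ε 1 with h | h
    · refine (Real.rpow_le_rpow (by positivity) (by exact_mod_cast a4 : (N : ℝ) ≤ w ^ (4 * n + 62))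
        (sub_nonneg.2 h)).trans (t10_rpow w1' _ _ ?_)
      push_cast
      nlinarith only [n2, hε, mul_pos hε hε]
    · exact (Real.rpow_le_one_of_one_le_of_nonpos (by exact_mod_cast N1) (sub_nonpos.2 h)).trans
        (one_le_pow₀ w1')
  refine a5.trans ?_
  have a6 : ((w ^ (4 * n + 61) : ℕ) : ℤ) ≤ N := by exact_mod_cast a2
  have : #E ≤ #((Icc (1 : ℤ) N).filter fun d => Squarefree d ∧ 1 < torsion 3 (s * d)) := by
    rcases hs with rfl | rfl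
    · refine le_trans (card_le_card fun e he => ?_) (card_image_le (f := t10_phi))
      obtain ⟨-, -, -, -, d, p1, p2, p3, p4, p5⟩ := e2 e he
      exact mem_image.2 ⟨d, mem_filter.2 ⟨mem_Icc.2 ⟨p2, p3.trans a6⟩, p1, by rwa [one_mul]⟩, p5⟩
    · refine le_trans (card_le_card fun e he => ?_) (card_image_le (f := fun d => -d))
      obtain ⟨p1, p2, p3, p4, -⟩ := e2 e he
      exact mem_image.2 ⟨-e, mem_filter.2 ⟨mem_Icc.2 ⟨by omega, p3.trans a6⟩, t10_neg p1,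
        by rwa [neg_one_mul, neg_neg]⟩, neg_neg e⟩
  exact_mod_cast e1.trans this

end Pool.Agent.MP_d0fd9b_nt.S72
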