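import Pool.Agent.MP_d0fd9b_nt.S72.Base

set_option autoImplicit false

namespace Pool.Agent.MP_d0fd9b_nt.S72

open Finset NumberField H72

open Polynomial IntermediateField in
lemma t2_root (f : ℤ[X]) (hf : f.Monic) (hd : 0 < f.natDegree) :
    ∃ x : ℂ, aeval x f = 0 ∧ IsIntegral ℤ x ∧ IsIntegral ℚ x ∧
      Module.finrank ℚ ℚ⟮x⟯ ≤ f.natDegree := by
  obtain ⟨x, hx⟩ := IsAlgClosed.exists_aeval_eq_zero ℂ f (by
    rw [degree_eq_natDegree hf.ne_zero]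
    exact_mod_cast hd.ne')
  have h1 : IsIntegral ℤ x := ⟨f, hf, hx⟩
  have h2 : IsIntegral ℚ x := h1.tower_top
  refine ⟨x, hx, h1, h2, ?_⟩
  rw [adjoin.finrank h2, ← hf.natDegree_map (algebraMap ℤ ℚ)]
  exact natDegree_le_natDegree (minpoly.min ℚ x (hf.map _) (by rw [aeval_map_algebraMap, hx]))

open Polynomial IntermediateField in
lemma t2_field (N : ℤ) : ∃ (F : Type) (_ : Field F) (_ : NumberField F),
    Module.finrank ℚ F ≤ 6 ∧ ∃ θ : Fin 3 → 𝓞 F, (∀ j, θ j ^ 3 = N) ∧ θ 0 + θ 1 + θ 2 = 0 ∧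
      θ 0 ^ 2 + θ 1 ^ 2 + θ 2 ^ 2 = 0 := by
  have d1 : (X ^ 2 + X + 1 : ℤ[X]).natDegree = 2 := by compute_degree!
  obtain ⟨w, w1, w2, w3, w4⟩ := t2_root (X ^ 2 + X + 1) (by monicity!) (by omega)
  obtain ⟨t, t1, t2, t3, t4⟩ := t2_root (X ^ 3 - C N) (monic_X_pow_sub_C _ (by norm_num))
    (by rw [natDegree_X_pow_sub_C]; norm_num)
  rw [d1] at w4
  rw [natDegree_X_pow_sub_C] at t4
  have := adjoin.finiteDimensional w3
  have := adjoin.finiteDimensional t3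
  let F : IntermediateField ℚ ℂ := ℚ⟮w⟯ ⊔ ℚ⟮t⟯
  have : FiniteDimensional ℚ F := IntermediateField.finiteDimensional_sup _ _
  have : NumberField F := ⟨⟩
  have hw : w ∈ F := (le_sup_left : ℚ⟮w⟯ ≤ F) (mem_adjoin_simple_self ℚ w)
  have ht : t ∈ F := (le_sup_right : ℚ⟮t⟯ ≤ F) (mem_adjoin_simple_self ℚ t)
  have hI : ∀ (x : ℂ) (hx : x ∈ F), IsIntegral ℤ x → IsIntegral ℤ (⟨x, hx⟩ : F) := fun x hx h =>
    (isIntegral_algHom_iff (F.val.restrictScalars ℤ) Subtype.val_injective).1 h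
  let W : 𝓞 F := ⟨⟨w, hw⟩, hI w hw w2⟩
  let T : 𝓞 F := ⟨⟨t, ht⟩, hI t ht t2⟩
  have inj : Function.Injective (F.val.toRingHom.comp (algebraMap (𝓞 F) F)) :=
    Subtype.val_injective.comp (RingOfIntegers.coe_injective (K := F))
  have eW : W ^ 2 + W + 1 = 0 := inj (by
    rw [map_add, map_add, map_pow, map_one, map_zero]
    show w ^ 2 + w + 1 = 0
    simpa using w1)
  have eT : T ^ 3 = N := inj (by
    rw [map_pow, map_intCast]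
    show t ^ 3 = N
    simpa [sub_eq_zero] using t1)
  refine ⟨F, inferInstance, inferInstance, (finrank_sup_le _ _).trans (Nat.mul_le_mul w4 t4),
    ![T, W * T, W ^ 2 * T], fun j => ?_, ?_, ?_⟩
  · fin_cases j
    · exact eT
    · show (W * T) ^ 3 = N
      linear_combination eT + T ^ 3 * (W - 1) * eW
    · show (W ^ 2 * T) ^ 3 = N
      linear_combination eT + T ^ 3 * (W - 1) * (W ^ 3 + 1) * eW
  · show T + W * T + W ^ 2 * T = 0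
    linear_combination T * eW
  · show T ^ 2 + (W * T) ^ 2 + (W ^ 2 * T) ^ 2 = 0
    linear_combination T ^ 2 * (W ^ 2 - W + 1) * eW

theorem good_cov (n : Fin 3 → ℤ) (m : ℤ) {q : ℕ} (hq : q ≠ 0) (h0 : n 0 * n 1 * m ≠ 0)
    (h : IsCoprime (q : ℤ) (n 0 * n 1 * m)) :
    Cov (fun _ : Fin 3 → ℤ => True) (fun p p' => ∃ c r₀ r₁ r₂ : ℤ, 0 < c ∧ c ≤ 18 ∧
      ∀ i, (q : ℤ) ∣ c * p' i - (r₀ * p i + r₁ * E1 n m p i + r₂ * E2 n m p i)) (#q.divisors ^ 18) := by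
  classical
  have _ := h0
  obtain ⟨F, _, _, hD, θ, h3, s1, s2⟩ := t2_field (n 0 ^ 2 * n 1)
  obtain ⟨T, hT, hT'⟩ := ideal_divisors F hq
  obtain ⟨a, b, hab⟩ : IsCoprime (q : ℤ) (n 0 ^ 2 * n 1 * m ^ 3) :=
    (h.pow_right (n := 3)).of_isCoprime_of_dvd_right ⟨n 0 * n 1 ^ 2, by ring⟩
  let ι : Fin 3 → (Fin 3 → ℤ) → 𝓞 F := fun j y => m * θ j * y 0 + n 0 * m * y 1 + θ j ^ 2 * y 2
  refine (Cov.of_label (fun y j => Ideal.span {ι j y, (q : 𝓞 F)}) (Fintype.piFinset fun _ => T)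
    (fun y _ => Fintype.mem_piFinset.2 fun j => hT' _ (Ideal.dvd_iff_le.2 (Ideal.span_mono
      (by simp)))) fun p p' _ _ e => ?_).mono (fun _ h => h) (fun _ _ _ _ h => h) ?_
  swap
  · have h1 : 1 ≤ #q.divisors := card_pos.2 ⟨1, Nat.one_mem_divisors.2 hq⟩
    rw [Fintype.card_piFinset_const]
    calc #T ^ 3 ≤ (#q.divisors ^ 6) ^ 3 :=
          Nat.pow_le_pow_left (hT.trans (Nat.pow_le_pow_right h1 hD)) 3
      _ = _ := by ring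
  have : ∀ j, ∃ r s : 𝓞 F, r * ι j p + s * q = ι j p' := fun j =>
    Ideal.mem_span_pair.1 (by
      rw [congrFun e j]
      exact Ideal.subset_span (by simp))
  choose r s hrs using this
  let tr := Algebra.trace ℤ (𝓞 F)
  have hr : Module.finrank ℤ (𝓞 F) = Module.finrank ℚ F := RingOfIntegers.rank F
  have D0 : 0 < Module.finrank ℚ F := Module.finrank_pos
  have key : ∀ (x y₀ y₁ y₂ : ℤ) (ρ₀ ρ₁ ρ₂ σ : 𝓞 F),
      (3 * (n 0 ^ 2 * n 1 * m ^ 3) * x : ℤ) = y₀ • ρ₀ + y₁ • ρ₁ + y₂ • ρ₂ + (q : ℤ) • σ →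
      (q : ℤ) ∣ 3 * Module.finrank ℚ F * x - (b * tr ρ₀ * y₀ + b * tr ρ₁ * y₁ + b * tr ρ₂ * y₂) :=
    fun x y₀ y₁ y₂ ρ₀ ρ₁ ρ₂ σ e => by
      have := congrArg tr e
      rw [← eq_intCast (algebraMap ℤ (𝓞 F)), Algebra.trace_algebraMap, hr] at this
      simp only [map_add, map_zsmul, smul_eq_mul, nsmul_eq_mul] at this
      exact ⟨3 * Module.finrank ℚ F * x * a + b * tr σ, by
        linear_combination b * this - 3 * Module.finrank ℚ F * x * hab⟩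
  have e0 := hrs 0
  have e1 := hrs 1
  have e2 := hrs 2
  have c0 := h3 0
  have c1 := h3 1
  have c2 := h3 2
  simp only [ι] at e0 e1 e2
  push_cast at c0 c1 c2
  refine ⟨3 * Module.finrank ℚ F, b * tr (n 0 ^ 2 * n 1 * m ^ 3 * (r 0 + r 1 + r 2)),
    b * tr (m ^ 2 * (r 0 * θ 0 ^ 2 + r 1 * θ 1 ^ 2 + r 2 * θ 2 ^ 2)),
    b * tr (n 0 * m ^ 2 * (r 0 * θ 0 + r 1 * θ 1 + r 2 * θ 2)), by omega, by omega, fun i => ?_⟩
  fin_cases i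
  · refine key _ _ _ _ _ _ _ (m ^ 2 * (θ 0 ^ 2 * s 0 + θ 1 ^ 2 * s 1 + θ 2 ^ 2 * s 2)) ?_
    simp only [E1, E2, zsmul_eq_mul, Fin.zero_eta, Matrix.cons_val_zero]
    push_cast
    linear_combination (-m ^ 2 : 𝓞 F) * (θ 0 ^ 2 * e0 + θ 1 ^ 2 * e1 + θ 2 ^ 2 * e2)
      - m ^ 3 * n 0 * p' 1 * s2 - m ^ 2 * n 0 ^ 2 * n 1 * p' 2 * s1
      + m ^ 2 * ((r 0 * (m * p 0 + θ 0 * p 2) - (m * p' 0 + θ 0 * p' 2)) * c0
        + (r 1 * (m * p 0 + θ 1 * p 2) - (m * p' 0 + θ 1 * p' 2)) * c1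
        + (r 2 * (m * p 0 + θ 2 * p 2) - (m * p' 0 + θ 2 * p' 2)) * c2)
  · refine key _ _ _ _ _ _ _ (n 0 * n 1 * m ^ 2 * (s 0 + s 1 + s 2)) ?_
    simp only [E1, E2, zsmul_eq_mul, Fin.mk_one, Matrix.cons_val_one, Matrix.cons_val_zero]
    push_cast
    linear_combination (-(n 0 * n 1 * m ^ 2) : 𝓞 F) * (e0 + e1 + e2)
      - n 0 * n 1 * m ^ 3 * p' 0 * s1 - n 0 * n 1 * m ^ 2 * p' 2 * s2
  · refine key _ _ _ _ _ _ _ (m ^ 3 * (θ 0 * s 0 + θ 1 * s 1 + θ 2 * s 2)) ?_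
    simp only [E1, E2, zsmul_eq_mul, Fin.reduceFinMk, Matrix.cons_val]
    push_cast
    linear_combination (-m ^ 3 : 𝓞 F) * (θ 0 * e0 + θ 1 * e1 + θ 2 * e2)
      - m ^ 4 * p' 0 * s2 - m ^ 4 * n 0 * p' 1 * s1
      + m ^ 3 * ((r 0 * p 2 - p' 2) * c0 + (r 1 * p 2 - p' 2) * c1 + (r 2 * p 2 - p' 2) * c2)

end Pool.Agent.MP_d0fd9b_nt.S72
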