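import Pool.Agent.MP_d0fd9b_nt.S72.Base

set_option autoImplicit false

namespace Pool.Agent.MP_d0fd9b_nt.S72

open Finset NumberField H72

theorem t3_split {j : ℕ} (hj : 0 < j) (m k : ℕ) (hk : k ≠ 0)
    (hm : ∀ l : ℕ, l.Prime → l ∣ k → l ∣ m) : ∃ a b : ℕ, k = a * b ^ j ∧ a ∣ m ^ j := by
  induction k using Nat.strong_induction_on with
  | _ k ih =>
    by_cases h : ∃ p : ℕ, p.Prime ∧ p ^ j ∣ k
    · obtain ⟨p, hp, k', rfl⟩ := h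
      have hk' : k' ≠ 0 := by rintro rfl; simp at hk
      have h1 : 1 < p ^ j := Nat.one_lt_pow hj.ne' hp.one_lt
      obtain ⟨a, b, hab, ha⟩ := ih k' (lt_mul_of_one_lt_left (Nat.pos_of_ne_zero hk') h1) hk'
        fun l hl h => hm l hl (h.mul_left _)
      exact ⟨a, p * b, by rw [mul_pow, hab]; ring, ha⟩
    · refine ⟨k, 1, by simp, (Nat.dvd_iff_prime_pow_dvd_dvd _ _).2 fun p i hp hi => ?_⟩
      rcases Nat.eq_zero_or_pos i with rfl | hi0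
      · simp
      have hij : i ≤ j := by
        by_contra hlt
        exact h ⟨p, hp, (pow_dvd_pow p (by omega)).trans hi⟩
      exact (pow_dvd_pow p hij).trans
        (pow_dvd_pow_of_dvd (hm p hp ((dvd_pow_self p hi0.ne').trans hi)) _)

theorem t3_pm (s : Finset ℕ) : ∃ D : Finset ℤ, #D ≤ 2 * #s ∧ ∀ x : ℤ, x.natAbs ∈ s → x ∈ D := by
  refine ⟨s.image (fun a : ℕ => (a : ℤ)) ∪ s.image (fun a : ℕ => -(a : ℤ)), ?_, fun x hx => ?_⟩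
  · have h1 := card_image_le (s := s) (f := fun a : ℕ => (a : ℤ))
    have h2 := card_image_le (s := s) (f := fun a : ℕ => -(a : ℤ))
    exact (card_union_le _ _).trans (by omega)
  · rcases Int.natAbs_eq x with e | e
    · exact mem_union_left _ (mem_image.2 ⟨_, hx, e.symm⟩)
    · exact mem_union_right _ (mem_image.2 ⟨_, hx, e.symm⟩)

theorem t3_smooth {δ : ℝ} (hδ : 0 < δ) : ∃ C : ℝ, 0 ≤ C ∧ ∀ Ω : ℝ, 1 ≤ Ω → ∀ m : ℕ, m ≠ 0 →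
    (m : ℝ) ≤ Ω → ∃ s : Finset ℕ, (#s : ℝ) ≤ C * Ω ^ δ * Ω ^ δ ∧
      ∀ k : ℕ, k ≠ 0 → (k : ℝ) ≤ Ω → (∀ l : ℕ, l.Prime → l ∣ k → l ∣ m) → k ∈ s := by
  obtain ⟨n, hn⟩ := exists_nat_one_div_lt hδ
  obtain ⟨j, hj, hjε⟩ : ∃ j : ℕ, 0 < j ∧ 1 / (j : ℝ) ≤ δ :=
    ⟨n + 1, Nat.succ_pos n, by push_cast; exact hn.le⟩
  have hj' : (0 : ℝ) < j := by exact_mod_cast hj
  obtain ⟨C, C1, hC⟩ := tau_le (show 0 < δ / j by positivity)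
  refine ⟨C, by positivity, fun Ω hΩ m hm hmΩ => ⟨((m ^ j).divisors ×ˢ
    Icc 1 ⌊Ω ^ (1 / (j : ℝ))⌋₊).image fun x => x.1 * x.2 ^ j, ?_, fun k hk hkΩ hl => ?_⟩⟩
  · have h1 := card_image_le (s := (m ^ j).divisors ×ˢ Icc 1 ⌊Ω ^ (1 / (j : ℝ))⌋₊)
      (f := fun x => x.1 * x.2 ^ j)
    rw [card_product, Nat.card_Icc, Nat.add_sub_cancel] at h1
    refine le_trans (b := (#(m ^ j).divisors : ℝ) * (⌊Ω ^ (1 / (j : ℝ))⌋₊ : ℝ))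
      (by exact_mod_cast h1) ?_
    have h2 := hC (m ^ j) (pow_ne_zero _ hm) (Ω ^ j) (by push_cast; gcongr)
    have h3 : (Ω ^ j) ^ (δ / j) = Ω ^ δ := by
      rw [← Real.rpow_natCast, ← Real.rpow_mul (by positivity)]
      congr 1; field_simp
    rw [h3] at h2
    exact mul_le_mul h2 ((Nat.floor_le (by positivity)).trans
      (Real.rpow_le_rpow_of_exponent_le hΩ hjε)) (by positivity) (by positivity)
  · obtain ⟨a, b, hab, ha⟩ := t3_split hj m k hk hl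
    have ha0 : a ≠ 0 := by rintro rfl; omega
    have hb0 : b ≠ 0 := by
      rintro rfl
      rw [zero_pow hj.ne'] at hab; omega
    refine mem_image.2 ⟨(a, b), mem_product.2 ⟨Nat.mem_divisors.2 ⟨ha, pow_ne_zero _ hm⟩,
      mem_Icc.2 ⟨Nat.one_le_iff_ne_zero.2 hb0, Nat.le_floor ?_⟩⟩, hab.symm⟩
    have h1 : b ^ j ≤ k := hab ▸ Nat.le_mul_of_pos_left _ (Nat.pos_of_ne_zero ha0)
    have h2 : (b : ℝ) ^ j ≤ Ω := le_trans (by exact_mod_cast h1) hkΩ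
    calc (b : ℝ) = ((b : ℝ) ^ j) ^ (1 / (j : ℝ)) := by
          rw [one_div, Real.pow_rpow_inv_natCast (Nat.cast_nonneg _) hj.ne']
      _ ≤ Ω ^ (1 / (j : ℝ)) := Real.rpow_le_rpow (by positivity) h2 (by positivity)

theorem t3_triple {δ : ℝ} (hδ : 0 < δ) : ∃ C : ℝ, 0 ≤ C ∧ ∀ Ω : ℝ, 1 ≤ Ω → ∀ m d : ℤ,
    ∀ S : Finset ((Fin 3 → ℤ) × ℤ), (∀ k ∈ S, (∀ i, k.1 i ≠ 0) ∧ k.2 = m ∧ Dl k.1 k.2 = d ∧
      |(m : ℝ)| ≤ Ω ∧ |(d : ℝ)| ≤ Ω) → (#S : ℝ) ≤ C * Ω ^ δ * Ω ^ δ := by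
  obtain ⟨C, C1, hC⟩ := tau_le (show 0 < δ / 3 by positivity)
  refine ⟨(2 * C * 2 ^ (δ / 3)) ^ 2, by positivity, fun Ω hΩ m d S hS => ?_⟩
  rcases S.eq_empty_or_nonempty with rfl | ⟨k₀, hk₀⟩
  · simp only [card_empty, Nat.cast_zero]
    positivity
  have hP : ∀ k ∈ S, k.1 0 * k.1 1 * k.1 2 = m ^ 3 - d := fun k hk => by
    obtain ⟨-, h2, h3, -⟩ := hS k hk
    rw [← h3, Dl, h2]; ring
  obtain ⟨h0, -, -, hm, hd⟩ := hS k₀ hk₀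
  have hP0 : m ^ 3 - d ≠ 0 := hP k₀ hk₀ ▸ mul_ne_zero (mul_ne_zero (h0 0) (h0 1)) (h0 2)
  obtain ⟨D, hD, hD'⟩ := t3_pm (m ^ 3 - d).natAbs.divisors
  have hx : ∀ x : ℤ, x ∣ m ^ 3 - d → x ∈ D := fun x hx =>
    hD' x (Nat.mem_divisors.2 ⟨Int.natAbs_dvd_natAbs.2 hx, Int.natAbs_ne_zero.2 hP0⟩)
  have h1 : #S ≤ #(D ×ˢ D) := by
    refine card_le_card_of_injOn (fun k => (k.1 0, k.1 1)) (fun k hk => ?_) fun k hk k' hk' e => ?_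
    · refine mem_coe.2 (mem_product.2 ⟨hx _ ?_, hx _ ?_⟩) <;> rw [← hP k hk]
      · exact (dvd_mul_right _ _).mul_right _
      · exact (dvd_mul_left _ _).mul_right _
    · obtain ⟨e0, e1⟩ := Prod.ext_iff.1 e
      have e2 := (hP k hk).trans (hP k' hk').symm
      simp only at e0 e1
      rw [← e0, ← e1] at e2
      have e3 := mul_left_cancel₀ (mul_ne_zero ((hS k hk).1 0) ((hS k hk).1 1)) e2
      refine Prod.ext (funext fun i => ?_) ((hS k hk).2.1.trans (hS k' hk').2.1.symm)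
      fin_cases i
      exacts [e0, e1, e3]
  have h2 := hC _ (Int.natAbs_ne_zero.2 hP0) (2 * Ω ^ 3) (by
    rw [Nat.cast_natAbs]
    push_cast
    have h3 : |(m : ℝ) ^ 3| ≤ Ω ^ 3 := by rw [abs_pow]; gcongr
    have h4 : Ω ≤ Ω ^ 3 := le_self_pow₀ hΩ (by norm_num)
    linarith [abs_sub ((m : ℝ) ^ 3) d])
  have h3 : (2 * Ω ^ 3) ^ (δ / 3) = 2 ^ (δ / 3) * Ω ^ δ := by
    rw [Real.mul_rpow (by positivity) (by positivity), ← Real.rpow_natCast,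
      ← Real.rpow_mul (by positivity)]
    congr 2; push_cast; ring
  rw [h3] at h2
  have h4 : (#D : ℝ) ≤ 2 * C * 2 ^ (δ / 3) * Ω ^ δ := by
    have : (#D : ℝ) ≤ 2 * #(m ^ 3 - d).natAbs.divisors := by exact_mod_cast hD
    linarith
  rw [card_product] at h1
  calc (#S : ℝ) ≤ #D * #D := by exact_mod_cast h1
    _ ≤ (2 * C * 2 ^ (δ / 3) * Ω ^ δ) * (2 * C * 2 ^ (δ / 3) * Ω ^ δ) := by gcongr
    _ = _ := by ring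

theorem t3_harm {δ Ω : ℝ} (hδ : 0 < δ) (hΩ : 1 ≤ Ω) :
    ∑ m ∈ Icc 1 ⌊Ω⌋₊, (1 : ℝ) / m ≤ (1 + 1 / δ) * Ω ^ δ := by
  have h1 : ∑ m ∈ Icc 1 ⌊Ω⌋₊, (1 : ℝ) / m = (harmonic ⌊Ω⌋₊ : ℝ) := by
    rw [harmonic_eq_sum_Icc]; push_cast; simp
  have h2 := harmonic_floor_le_one_add_log Ω hΩ
  have h3 := Real.log_le_rpow_div (by positivity : 0 ≤ Ω) hδ
  have h4 : Ω ^ δ / δ = 1 / δ * Ω ^ δ := by ring
  have h5 : 1 ≤ Ω ^ δ := Real.one_le_rpow hΩ hδ.le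
  rw [h1]; linarith

/-- T3 -/
theorem sum_le {ε : ℝ} (hε : 0 < ε) : ∃ C : ℝ, 0 ≤ C ∧ ∀ Ω : ℝ, 1 ≤ Ω →
    ∀ (N : Finset ((Fin 3 → ℤ) × ℤ)) (q B : (Fin 3 → ℤ) × ℤ → ℕ),
    (∀ k ∈ N, (∀ i, k.1 i ≠ 0) ∧ k.2 ≠ 0 ∧ Dl k.1 k.2 ≠ 0 ∧ |((k.2 * Dl k.1 k.2 : ℤ) : ℝ)| ≤ Ω ∧
      (Dl k.1 k.2).natAbs = q k * B k ∧ ∀ l : ℕ, l.Prime → l ∣ B k → (l : ℤ) ∣ k.2) →
    ∑ k ∈ N, 1 / (|(k.2 : ℝ)| * q k) ≤ C * Ω ^ ε := by
  obtain ⟨δ, hδ, rfl⟩ : ∃ δ : ℝ, 0 < δ ∧ ε = δ * (6 : ℕ) := ⟨ε / 6, by positivity, by push_cast; ring⟩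
  obtain ⟨C₁, p1, h1⟩ := t3_smooth hδ
  obtain ⟨C₂, p2, h2⟩ := t3_triple hδ
  refine ⟨4 * C₁ * C₂ * (1 + 1 / δ) ^ 2, by positivity, fun Ω hΩ N q B hN => ?_⟩
  have hb : ∀ k ∈ N, |(k.2 : ℝ)| ≤ Ω ∧ |(Dl k.1 k.2 : ℝ)| ≤ Ω ∧ q k ≠ 0 ∧ B k ≠ 0 ∧
      (q k : ℝ) ≤ Ω ∧ (B k : ℝ) ≤ Ω := fun k hk => by
    obtain ⟨-, a2, a3, a4, a5, -⟩ := hN k hk
    have b1 : (1 : ℝ) ≤ |(k.2 : ℝ)| := by exact_mod_cast Int.one_le_abs a2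
    have b2 : (1 : ℝ) ≤ |(Dl k.1 k.2 : ℝ)| := by exact_mod_cast Int.one_le_abs a3
    rw [Int.cast_mul, abs_mul] at a4
    have b3 := Int.natAbs_ne_zero.2 a3
    rw [a5] at b3
    have b4 : |(Dl k.1 k.2 : ℝ)| = q k * B k := by
      rw [← Int.cast_abs, ← Nat.cast_natAbs, a5, Nat.cast_mul]
    have b5 : (1 : ℝ) ≤ q k := by exact_mod_cast Nat.pos_of_ne_zero (left_ne_zero_of_mul b3)
    have b6 : (1 : ℝ) ≤ B k := by exact_mod_cast Nat.pos_of_ne_zero (right_ne_zero_of_mul b3)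
    have b7 : |(Dl k.1 k.2 : ℝ)| ≤ Ω := by nlinarith
    exact ⟨by nlinarith, b7, left_ne_zero_of_mul b3, right_ne_zero_of_mul b3, by nlinarith,
      by nlinarith⟩
  have ca : ∀ x : ℤ, ((x.natAbs : ℕ) : ℝ) = |(x : ℝ)| := fun x => by
    rw [Nat.cast_natAbs, Int.cast_abs]
  have hmap : ∀ k ∈ N, (k.2.natAbs, q k) ∈ Icc 1 ⌊Ω⌋₊ ×ˢ Icc 1 ⌊Ω⌋₊ := fun k hk => by
    obtain ⟨b1, -, b3, -, b5, -⟩ := hb k hk
    exact mem_product.2 ⟨mem_Icc.2 ⟨Int.natAbs_pos.2 (hN k hk).2.1, Nat.le_floor (ca _ ▸ b1)⟩,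
      mem_Icc.2 ⟨Nat.pos_of_ne_zero b3, Nat.le_floor b5⟩⟩
  have hfib : ∀ y ∈ Icc 1 ⌊Ω⌋₊ ×ˢ Icc 1 ⌊Ω⌋₊, (#(N.filter fun k => (k.2.natAbs, q k) = y) : ℝ) ≤
      4 * C₁ * C₂ * (Ω ^ δ) ^ 4 := by
    rintro ⟨μ, r⟩ hy
    have hμ := mem_Icc.1 (mem_product.1 hy).1
    obtain ⟨s, hs, hs'⟩ := h1 Ω hΩ μ (by omega) ((Nat.le_floor_iff (by positivity)).1 hμ.2)
    obtain ⟨M, hM, hM'⟩ := t3_pm {μ}
    obtain ⟨D, hD, hD'⟩ := t3_pm (s.image (r * ·))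
    have hm : ∀ k ∈ N.filter fun k => (k.2.natAbs, q k) = (μ, r), (k.2, Dl k.1 k.2) ∈ M ×ˢ D := by
      intro k hk
      obtain ⟨hk, e⟩ := mem_filter.1 hk
      obtain ⟨e1, e2⟩ := Prod.ext_iff.1 e
      simp only at e1 e2
      obtain ⟨-, -, -, b4, -, b6⟩ := hb k hk
      obtain ⟨-, -, -, -, a5, a6⟩ := hN k hk
      refine mem_product.2 ⟨hM' _ (mem_singleton.2 e1), hD' _ (mem_image.2 ⟨B k, hs' _ b4 b6
        fun l hl h => e1 ▸ Int.natCast_dvd.1 (a6 l hl h), by rw [a5, e2]⟩)⟩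
    rw [card_eq_sum_card_fiberwise hm, Nat.cast_sum]
    refine (sum_le_card_nsmul _ _ (C₂ * Ω ^ δ * Ω ^ δ) fun y _ => h2 Ω hΩ y.1 y.2 _ fun k hk => ?_).trans
      ?_
    · obtain ⟨hk1, e⟩ := mem_filter.1 hk
      have hk2 := (mem_filter.1 hk1).1
      subst e
      exact ⟨(hN k hk2).1, rfl, rfl, (hb k hk2).1, (hb k hk2).2.1⟩
    · rw [nsmul_eq_mul, card_product, Nat.cast_mul]
      have c1 : (#M : ℝ) ≤ 2 := by exact_mod_cast hM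
      have c2 : (#D : ℝ) ≤ 2 * #s := by
        exact_mod_cast hD.trans (Nat.mul_le_mul_left _ card_image_le)
      calc (#M : ℝ) * #D * (C₂ * Ω ^ δ * Ω ^ δ)
          ≤ 2 * (2 * (C₁ * Ω ^ δ * Ω ^ δ)) * (C₂ * Ω ^ δ * Ω ^ δ) := by
            gcongr
            linarith
        _ = _ := by ring
  have hh := t3_harm hδ hΩ
  calc ∑ k ∈ N, 1 / (|(k.2 : ℝ)| * q k)
      = ∑ y ∈ Icc 1 ⌊Ω⌋₊ ×ˢ Icc 1 ⌊Ω⌋₊, ∑ k ∈ N.filter fun k => (k.2.natAbs, q k) = y,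
          1 / (|(k.2 : ℝ)| * q k) := (sum_fiberwise_of_maps_to hmap _).symm
    _ ≤ ∑ y ∈ Icc 1 ⌊Ω⌋₊ ×ˢ Icc 1 ⌊Ω⌋₊,
          4 * C₁ * C₂ * (Ω ^ δ) ^ 4 * ((1 : ℝ) / y.1 * (1 / y.2)) := by
        refine sum_le_sum fun y hy => ?_
        rw [sum_congr rfl (g := fun _ => (1 : ℝ) / y.1 * (1 / y.2)) fun k hk => by
          rw [← (mem_filter.1 hk).2, ca, one_div_mul_one_div], sum_const, nsmul_eq_mul]
        exact mul_le_mul_of_nonneg_right (hfib y hy) (by positivity)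
    _ = 4 * C₁ * C₂ * (Ω ^ δ) ^ 4 *
          ((∑ m ∈ Icc 1 ⌊Ω⌋₊, (1 : ℝ) / m) * ∑ m ∈ Icc 1 ⌊Ω⌋₊, (1 : ℝ) / m) := by
        rw [← mul_sum, sum_mul_sum, sum_product]
    _ ≤ 4 * C₁ * C₂ * (Ω ^ δ) ^ 4 * ((1 + 1 / δ) * Ω ^ δ * ((1 + 1 / δ) * Ω ^ δ)) := by gcongr
    _ = _ := by rw [Real.rpow_mul (by positivity), Real.rpow_natCast]; ring

end Pool.Agent.MP_d0fd9b_nt.S72
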