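import Pool.Agent.MP_d0fd9b_nt.S72.Core

/-! The tuples attached to one field. -/

set_option autoImplicit false

namespace Pool.Agent.MP_d0fd9b_nt.S72

open QuadraticAlgebra Ideal H72 Finset

lemma Par.tr' {s : ℂ} {X : Fin 3 → ℂ × ℂ} {n p a : Fin 3 → ℤ} {m : ℤ} (h : Par s X n m p a) (i : Fin 3) :
    (Dl n m : ℂ) ^ 2 * ((X i).1 ^ 3 + (X i).2 ^ 3) = 2 * Dl n m * p i ^ 3 + n i * Kp n m p := by
  obtain ⟨σ, -, -, h1, h2, h3, h4, h5⟩ := h.expl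
  fin_cases i <;> simp [Dl, Kp, h1, h2, h3, h4, h5] <;> ring

lemma Par.scale {s s' : ℂ} {X X' : Fin 3 → ℂ × ℂ} {n p p' a a' : Fin 3 → ℤ} {m : ℤ} (h : Par s X n m p a)
    (h' : Par s' X' n m p' a') (D0 : Dl n m ≠ 0) (n0 : n 0 ≠ 0) {P P' : ℤ} (P0 : P ≠ 0)
    (hP : ∀ i, P * p' i = P' * p i) : (P : ℂ) ^ 6 * (s' * s') = P' ^ 6 * (s * s) ∧
      ∀ i, (P : ℂ) ^ 3 * ((X' i).1 ^ 3 + (X' i).2 ^ 3) = P' ^ 3 * ((X i).1 ^ 3 + (X i).2 ^ 3) := by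
  have D1 : (Dl n m : ℂ) ≠ 0 := by exact_mod_cast D0
  have P1 : (P : ℂ) ≠ 0 := by exact_mod_cast P0
  have e : ∀ i, (p' i : ℂ) = P' / P * p i := fun i => by
    rw [div_mul_eq_mul_div, eq_div_iff P1, mul_comm]; exact_mod_cast hP i
  have e2 : ∀ i, (P : ℂ) ^ 3 * ((X' i).1 ^ 3 + (X' i).2 ^ 3) = P' ^ 3 * ((X i).1 ^ 3 + (X i).2 ^ 3) :=
    fun i => mul_left_cancel₀ (pow_ne_zero 2 D1) (by
      rw [mul_left_comm, h'.tr', mul_left_comm, h.tr']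
      simp only [Kp]; push_cast; simp only [e]; field_simp)
  refine ⟨mul_left_cancel₀ (pow_ne_zero 2 (show (n 0 : ℂ) ≠ 0 by exact_mod_cast n0)) ?_, e2⟩
  have e3 : (P : ℂ) ^ 2 * a' 0 = P' ^ 2 * a 0 := mul_right_cancel₀ D1 (by
    rw [mul_assoc, mul_assoc, ← Int.cast_mul, ← Int.cast_mul, h.qd, h'.qd]
    simp only [Qd]; push_cast; simp only [e]; field_simp)
  rw [h.2.2.2.2, h'.2.2.2.2] at e3
  have e4 := congrArg (· ^ 2) (h.2.1 0)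
  have e5 := congrArg (· ^ 2) (h'.2.1 0)
  have e6 := congrArg (· ^ 2) (e2 0)
  have e7 := congrArg (· ^ 3) e3
  linear_combination P ^ 6 * e5 - P' ^ 6 * e4 + e6 - 4 * e7

lemma grp {G : Type} [CommGroup G] {c₁ c₂ : G} (g1 : c₁ ^ 3 = 1) (g2 : c₂ ^ 3 = 1) (n1 : c₁ ≠ 1) :
    (c₁ * c₂ * c₂ * (c₁ * c₂)) ^ 2 ≠ 1 := fun h => n1 (by
  have : (c₁ * c₂ * c₂ * (c₁ * c₂)) ^ 2 = c₁ * c₁ ^ 3 * (c₂ ^ 3) ^ 2 := by
    simp only [pow_succ, pow_zero, one_mul, mul_assoc, mul_comm, mul_left_comm]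
  rwa [this, g1, g2, one_pow, mul_one, mul_one] at h)

open Classical in
theorem tuples {d : ℤ} (hs : Squarefree d) (h1 : d ≠ 1) {W : ℝ} (hW : 18 * √|(d : ℝ)| ≤ W) :
    ∃ S : Finset (((Fin 3 → ℤ) × ℤ) × (Fin 3 → ℤ)), torsion 3 d ^ 2 ≤ 4 * #S + 16 ∧
      (∀ k ∈ S, Good W k.1.1 k.1.2 k.2 ∧ ∃ (s : ℂ) (X : Fin 3 → ℂ × ℂ) (a : Fin 3 → ℤ) (u : ℤ),
        u ≠ 0 ∧ s * s = u ^ 2 * d ∧ Par s X k.1.1 k.1.2 k.2 a) ∧
      ∀ k ∈ S, ∀ k' ∈ S, k.1 = k'.1 → ∀ P P' : ℤ, 0 < P → 0 < P' → (∀ i, P * k'.2 i = P' * k.2 i) →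
        k = k' := by
  obtain ⟨a, b, f, _, _, -, hf, hD, he⟩ := torsion_eq hs h1 3
  obtain ⟨δ, hδ⟩ := IsAlgClosed.exists_eq_mul_self ((b : ℂ) ^ 2 + 4 * a)
  replace hδ := hδ.symm
  have hδ' : δ * δ = f ^ 2 * d := by rw [hδ]; exact_mod_cast hD
  have d1 : 1 ≤ |(d : ℝ)| := by exact_mod_cast Int.one_le_abs hs.ne_zero
  have δ2 : ‖δ‖ ^ 2 = f ^ 2 * |(d : ℝ)| := by
    rw [pow_two, ← norm_mul, hδ', norm_mul, norm_pow, Complex.norm_intCast, Complex.norm_intCast, sq_abs]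
  have f1 : (1 : ℝ) ≤ f ^ 2 ∧ (f : ℝ) ^ 2 ≤ 4 := by rcases hf with rfl | rfl <;> norm_num
  have δ1 : 1 ≤ ‖δ‖ := le_of_sq_le_sq (by nlinarith) (norm_nonneg _)
  have δ0 : δ ≠ 0 := norm_pos_iff.1 (by linarith)
  have δW : 9 * ‖δ‖ ≤ W := by
    have : ‖δ‖ ≤ 2 * √|(d : ℝ)| := le_of_sq_le_sq (by
      rw [mul_pow, Real.sq_sqrt (abs_nonneg _)]; nlinarith) (by positivity)
    linarith
  let _ := Fintype.ofFinite (ClassGroup (QuadraticAlgebra ℤ a b))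
  let G := univ.filter fun c : ClassGroup (QuadraticAlgebra ℤ a b) => c ^ 3 = 1
  have hG : torsion 3 d = #G := by rw [he, Nat.card_eq_fintype_card, Fintype.card_subtype]
  let Key : ClassGroup (QuadraticAlgebra ℤ a b) × ClassGroup (QuadraticAlgebra ℤ a b) →
      ((Fin 3 → ℤ) × ℤ) × (Fin 3 → ℤ) → Prop := fun c k => Good W k.1.1 k.1.2 k.2 ∧
    ∃ (I I' : Ideal (QuadraticAlgebra ℤ a b)) (ξ ξ' : ℂ × ℂ) (h : Dt hδ I ξ) (h' : Dt hδ I' ξ')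
      (x y z : ℂ × ℂ) (e : Fin 3 → ℤ) (g : ℤ),
      ClassGroup.mk0 ⟨I, mem_nonZeroDivisors_of_ne_zero h.1⟩ = c.1 ∧
      ClassGroup.mk0 ⟨I', mem_nonZeroDivisors_of_ne_zero h'.1⟩ = c.2 ∧ Mem hδ ξ x ∧ Mem hδ ξ' y ∧ x ≠ 0 ∧
      y ≠ 0 ∧ 0 < g ∧ Par (g * δ) ![x, y, z] k.1.1 k.1.2 k.2 e
  have dt : ∀ c ∈ G, ∃ (I : Ideal (QuadraticAlgebra ℤ a b)) (ξ : ℂ × ℂ) (h : Dt hδ I ξ),
      ClassGroup.mk0 ⟨I, mem_nonZeroDivisors_of_ne_zero h.1⟩ = c := fun c hc => by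
    obtain ⟨⟨I, hI⟩, rfl⟩ := ClassGroup.mk0_surjective c
    have := (mem_filter.1 hc).2
    rw [← map_pow, SubmonoidClass.mk_pow, ClassGroup.mk0_eq_one_iff] at this
    obtain ⟨ξ, hξ⟩ := exists_dt (hδ := hδ) (nonZeroDivisors.ne_zero hI) this.span_singleton_generator.symm
    exact ⟨I, ξ, hξ, rfl⟩
  have ne : ∀ {I ξ}, Dt hδ I ξ → ∃ u, Mem hδ ξ u ∧ u ≠ 0 := fun h => by
    obtain ⟨w, w', w1, -, w3, -⟩ := h.basis δ0
    exact ⟨w, w1, fun h0 => w3 (by simp [h0])⟩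
  have main : ∀ c₁ ∈ G, ∀ c₂ ∈ G, c₁ ≠ 1 → c₂ ≠ 1 → c₁ * c₂ ≠ 1 → c₁ * c₂ * c₂ ≠ 1 →
      (∃ k, Key (c₁, c₂) k) ∨ ∃ k, Key (c₁ * c₂ * c₂, c₁ * c₂) k := fun c₁ g1 c₂ g2 n1 n2 n3 n4 => by
    obtain ⟨I, ξ, h, rfl⟩ := dt c₁ g1
    obtain ⟨I', ξ', h', rfl⟩ := dt c₂ g2
    replace g1 := (mem_filter.1 g1).2
    replace g2 := (mem_filter.1 g2).2
    have sq1 : ∀ c : ClassGroup (QuadraticAlgebra ℤ a b), c ^ 3 = 1 → c ≠ 1 → c ^ 2 ≠ 1 :=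
      fun c h1 h2 h3 => h2 (by rwa [pow_succ, h3, one_mul] at h1)
    have h3 := (h.mul h').mul (h.mul h')
    have h4 := (h.mul h').mul h'
    have lb : ∀ {I I' ξ ξ'}, Dt hδ I ξ → Dt hδ I' ξ' → ∀ r ∈ {r | ∃ x y, Mem hδ ξ x ∧ x ≠ 0 ∧
        Mem hδ ξ' y ∧ y ≠ 0 ∧ r = ‖x‖ * ‖y‖}, 1 ≤ r := by
      rintro I I' ξ ξ' h h' _ ⟨x, y, x1, x0, y1, y0, rfl⟩
      exact one_le_mul_of_one_le_of_one_le (h.one_le δ0 x1 x0) (h'.one_le δ0 y1 y0)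
    have nn : ∀ {I I' ξ ξ'}, Dt hδ I ξ → Dt hδ I' ξ' → Set.Nonempty {r | ∃ x y, Mem hδ ξ x ∧ x ≠ 0 ∧
        Mem hδ ξ' y ∧ y ≠ 0 ∧ r = ‖x‖ * ‖y‖} := fun h h' => by
      obtain ⟨x, x1, x0⟩ := ne h
      obtain ⟨y, y1, y0⟩ := ne h'
      exact ⟨_, x, y, x1, x0, y1, y0, rfl⟩
    rcases dich (nn h h') (nn h3 h4) (lb h h') (lb h3 h4) with ⟨_, ⟨x, y, x1, x0, y1, y0, rfl⟩, hm⟩ |
      ⟨_, ⟨z, u, z1, z0, u1, u0, rfl⟩, hm⟩
    · obtain ⟨n, m, p, e, z, g, g0, gd, par⟩ := core δ1 δW h h' n1 n2 (sq1 _ (by rw [mul_pow, g1, g2, one_mul]) n3)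
        x1 y1 x0 y0 fun z u z1 z0 u1 u0 => hm _ ⟨z, u, z1, z0, u1, u0, rfl⟩
      exact Or.inl ⟨((n, m), p), gd, I, I', ξ, ξ', h, h', x, y, z, e, g, rfl, rfl, x1, y1, x0, y0, g0, par⟩
    · have e4 : ClassGroup.mk0 ⟨_, mem_nonZeroDivisors_of_ne_zero h4.1⟩ =
          ClassGroup.mk0 ⟨I, mem_nonZeroDivisors_of_ne_zero h.1⟩ *
          ClassGroup.mk0 ⟨I', mem_nonZeroDivisors_of_ne_zero h'.1⟩ *
          ClassGroup.mk0 ⟨I', mem_nonZeroDivisors_of_ne_zero h'.1⟩ := by rw [← map_mul, ← map_mul]; rfl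
      have e5 : ClassGroup.mk0 ⟨_, mem_nonZeroDivisors_of_ne_zero (h.mul h').1⟩ =
          ClassGroup.mk0 ⟨I, mem_nonZeroDivisors_of_ne_zero h.1⟩ *
          ClassGroup.mk0 ⟨I', mem_nonZeroDivisors_of_ne_zero h'.1⟩ := by rw [← map_mul]; rfl
      have z2 : Mem hδ (ξ * ξ') z.swap :=
        h.red (h'.red (by convert h3.swap z1 using 1; ring))
      have z3 : z.swap ≠ 0 := fun h0 => z0 (by simpa using congrArg Prod.swap h0)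
      obtain ⟨n, m, p, e, w, g, g0, gd, par⟩ := core δ1 δW h4 (h.mul h') (e4 ▸ n4) (e5 ▸ n3) (by
          rw [e4, e5]; exact grp g1 g2 n1)
        u1 z2 u0 z3 fun x y x1 x0 y1 y0 => by
          rw [norm_swap', mul_comm]
          exact hm _ ⟨x, y, h.red (h'.red (h'.red (by convert x1 using 1; ring))), x0,
            h.red (h'.red (by convert y1 using 1; ring)), y0, rfl⟩
      exact Or.inr ⟨((n, m), p), gd, _, _, _, _, h4, h.mul h', u, _, w, e, g, e4, e5, u1, z2, u0, z3, g0, par⟩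
  let A := (G ×ˢ G).filter fun c => ∃ k, Key c k
  choose! key hkey using fun c (hc : c ∈ A) => (mem_filter.1 hc).2
  have inj : ∀ c ∈ A, ∀ c' ∈ A, (key c).1 = (key c').1 → ∀ P P' : ℤ, 0 < P → 0 < P' →
      (∀ i, P * (key c').2 i = P' * (key c).2 i) → c = c' := fun c hc c' hc' e P P' P0 P0' hP => by
    obtain ⟨gd, I₁, I₂, ξ₁, ξ₂, h₁, h₂, x, y, z, e₁, g, a1, a2, a3, a4, a5, a6, a7, par⟩ := hkey c hc
    obtain ⟨-, I₁', I₂', ξ₁', ξ₂', h₁', h₂', x', y', z', e₁', g', b1, b2, b3, b4, b5, b6, b7, par'⟩ :=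
      hkey c' hc'
    rw [← e] at par'
    obtain ⟨s1, s2⟩ := par.scale par' gd.2.2.1 (gd.1 0) P0.ne' hP
    have s3 : P ^ 3 * g' = P' ^ 3 * g := by
      refine (pow_left_inj₀ (by positivity) (by positivity) two_ne_zero).1 (Int.cast_injective (α := ℂ) ?_)
      push_cast
      exact mul_right_cancel₀ (mul_ne_zero δ0 δ0) (by linear_combination s1)
    have s4 : (P : ℂ) ^ 3 * g' = P' ^ 3 * g := by exact_mod_cast s3
    have s5 : ∀ i, (P : ℂ × ℂ) ^ 3 * ![x', y', z'] i ^ 3 = P' ^ 3 * ![x, y, z] i ^ 3 := fun i => by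
      have t1 := s2 i
      have t2 := par.2.1 i
      have t3 := par'.2.1 i
      ext <;> simp only [Prod.fst_mul, Prod.snd_mul, Prod.pow_fst, Prod.pow_snd, Prod.fst_intCast,
        Prod.snd_intCast]
      · linear_combination t1 / 2 - P ^ 3 / 2 * t3 + P' ^ 3 / 2 * t2 + (key c).1.1 i * δ / 2 * s4
      · linear_combination t1 / 2 + P ^ 3 / 2 * t3 - P' ^ 3 / 2 * t2 - (key c).1.1 i * δ / 2 * s4
    exact Prod.ext (a1 ▸ b1 ▸ h₁.cls h₁' a3 b3 a5 b5 P0.ne' P0'.ne' (s5 0))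
      (a2 ▸ b2 ▸ h₂.cls h₂' a4 b4 a6 b6 P0.ne' P0'.ne' (s5 1))
  refine ⟨A.image key, ?_, fun k hk => ?_, fun k hk k' hk' e P P' P0 P0' hP => ?_⟩
  · rw [card_image_of_injOn fun c hc c' hc' e => inj c hc c' hc' (by rw [e]) 1 1 one_pos one_pos
      fun i => by rw [e], hG]
    have sub : G ×ˢ G ⊆ A ∪ (A.image fun c => (c.2 * c.2 * c.1⁻¹, c.1 * c.2⁻¹)) ∪
        ((G.image fun c => (1, c)) ∪ (G.image fun c => (c, 1)) ∪ (G.image fun c => (c⁻¹, c)) ∪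
          G.image fun c => ((c * c)⁻¹, c)) := by
      rintro ⟨c₁, c₂⟩ hc
      obtain ⟨g1, g2⟩ := mem_product.1 hc
      simp only [mem_union, mem_image]
      by_cases n1 : c₁ = 1
      · exact Or.inr (Or.inl (Or.inl (Or.inl ⟨c₂, g2, by rw [n1]⟩)))
      by_cases n2 : c₂ = 1
      · exact Or.inr (Or.inl (Or.inl (Or.inr ⟨c₁, g1, by rw [n2]⟩)))
      by_cases n3 : c₁ * c₂ = 1
      · exact Or.inr (Or.inl (Or.inr ⟨c₂, g2, by rw [eq_inv_of_mul_eq_one_left n3]⟩))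
      by_cases n4 : c₁ * c₂ * c₂ = 1
      · exact Or.inr (Or.inr ⟨c₂, g2, by rw [eq_inv_of_mul_eq_one_left ((mul_assoc _ _ _).symm.trans n4)]⟩)
      refine Or.inl ((main c₁ g1 c₂ g2 n1 n2 n3 n4).imp (fun h => mem_filter.2 ⟨hc, h⟩) fun h =>
        ⟨_, mem_filter.2 ⟨mem_product.2 ?_, h⟩, ?_⟩)
      · simp only [G, mem_filter, mem_univ, true_and] at g1 g2 ⊢
        simp [mul_pow, g1, g2]
      · exact Prod.ext (by dsimp only; rw [mul_inv_eq_iff_eq_mul]; ac_rfl)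
          (by dsimp only; rw [mul_inv_eq_iff_eq_mul]; ac_rfl)
    have c1 := (card_le_card sub).trans ((card_union_le _ _).trans (add_le_add ((card_union_le _ _).trans
      (add_le_add le_rfl card_image_le)) ((card_union_le _ _).trans (add_le_add ((card_union_le _ _).trans
      (add_le_add ((card_union_le _ _).trans (add_le_add card_image_le card_image_le)) card_image_le))
      card_image_le))))
    rw [card_product] at c1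
    nlinarith [sq_nonneg ((#G : ℤ) - 4)]
  · obtain ⟨c, hc, rfl⟩ := mem_image.1 hk
    obtain ⟨gd, -, -, -, -, -, -, x, y, z, e, g, -, -, -, -, -, -, g0, par⟩ := hkey c hc
    refine ⟨gd, _, _, e, g * f, mul_ne_zero g0.ne' (by omega), ?_, par⟩
    push_cast
    linear_combination g ^ 2 * hδ'
  · obtain ⟨c, hc, rfl⟩ := mem_image.1 hk
    obtain ⟨c', hc', rfl⟩ := mem_image.1 hk'
    rw [inj c hc c' hc' e P P' P0 P0' hP]

end Pool.Agent.MP_d0fd9b_nt.S72
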