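import Pool.Agent.MP_d0fd9b_nt.H72.Forms
import Pool.Agent.MP_d0fd9b_nt.H72.Tors

/-! Auxiliary definitions for the second moment of the 3-torsion. -/

set_option autoImplicit false

namespace Pool.Agent.MP_d0fd9b_nt.S72

open Finset

/-- the objects with property `P` are covered by `c` classes of `R`-related objects -/
def Cov {α : Type} (P : α → Prop) (R : α → α → Prop) (c : ℕ) : Prop :=
  ∀ S : Finset α, (∀ x ∈ S, P x) → ∀ K : ℕ,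
    (∀ T ⊆ S, (∀ x ∈ T, ∀ y ∈ T, R x y) → #T ≤ K) → #S ≤ c * K

section
variable {α β : Type} {P P' : α → Prop} {R R' : α → α → Prop} {c c' : ℕ}

lemma Cov.split (f : α → β) (T : Finset β) (h1 : ∀ x, P x → f x ∈ T)
    (h2 : ∀ b ∈ T, Cov (fun x => P x ∧ f x = b) R c) : Cov P R (#T * c) := fun S hS K hK => by
  classical
  rw [mul_assoc, mul_comm]
  exact card_le_mul_card_image_of_maps_to (fun x hx => h1 x (hS x hx)) _ fun b hb =>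
    h2 b hb _ (fun x hx => ⟨hS x (mem_filter.1 hx).1, (mem_filter.1 hx).2⟩) K
      fun U hU => hK U (hU.trans (filter_subset _ _))

lemma Cov.one (h : ∀ x y, P x → P y → R x y) : Cov P R 1 := fun S hS K hK => by
  rw [one_mul]
  exact hK S Subset.rfl fun x hx y hy => h x y (hS x hx) (hS y hy)

lemma Cov.of_label (f : α → β) (T : Finset β) (h1 : ∀ x, P x → f x ∈ T)
    (h2 : ∀ x y, P x → P y → f x = f y → R x y) : Cov P R #T := by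
  rw [← mul_one #T]
  exact Cov.split f T h1 fun b _ => Cov.one fun x y hx hy => h2 x y hx.1 hy.1 (hx.2.trans hy.2.symm)

lemma Cov.mono (h : Cov P R c) (hP : ∀ x, P' x → P x) (hR : ∀ x y, P' x → P' y → R x y → R' x y)
    (hc : c ≤ c') : Cov P' R' c' := fun S hS K hK =>
  (h S (fun x hx => hP x (hS x hx)) K fun T hT h2 => hK T hT fun x hx y hy =>
    hR x y (hS x (hT hx)) (hS y (hT hy)) (h2 x hx y hy)).trans (Nat.mul_le_mul_right _ hc)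

lemma Cov.and (h : Cov P R c) (h' : Cov P R' c') : Cov P (fun x y => R x y ∧ R' x y) (c * c') :=
  fun S hS K hK => by
    rw [mul_assoc]
    exact h S hS _ fun T hT h2 => h' T (fun x hx => hS x (hT hx)) K fun U hU h3 =>
      hK U (hU.trans hT) fun x hx y hy => ⟨h2 x (hU hx) y (hU hy), h3 x hx y hy⟩

end

/-- the modulus -/
def Dl (n : Fin 3 → ℤ) (m : ℤ) : ℤ := m ^ 3 - n 0 * n 1 * n 2

/-- the three quadratic forms -/
def Qd (n : Fin 3 → ℤ) (m : ℤ) (p : Fin 3 → ℤ) (i : Fin 3) : ℤ :=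
  m * p i ^ 2 - n i * p (i + 1) * p (i + 2)

/-- first operator -/
def E1 (n : Fin 3 → ℤ) (m : ℤ) (p : Fin 3 → ℤ) : Fin 3 → ℤ :=
  ![n 0 * m * p 1, n 0 * n 1 * p 2, m ^ 2 * p 0]

/-- second operator -/
def E2 (n : Fin 3 → ℤ) (m : ℤ) (p : Fin 3 → ℤ) : Fin 3 → ℤ :=
  ![n 0 * n 1 * p 2, n 1 * m * p 0, m ^ 2 * p 1]

/-- the lattice data attached to a solution -/
def Dat (W : ℝ) (n : Fin 3 → ℤ) (m : ℤ) (p : Fin 3 → ℤ) (Y : Fin 3 → ℝ) (L : AddSubgroup (ℂ × ℂ))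
    (v : Fin 3 → ℂ × ℂ) : Prop :=
  (∀ i, 1 ≤ Y i ∧ Y i ≤ W ^ 2 ∧ v i ∈ L ∧ ‖v i‖ ≤ Y (i + 1) * Y (i + 2) ∧
    ∃ a : ℤ, a ≠ 0 ∧ |(a : ℝ)| ≤ Y i ^ 2 ∧ a * Dl n m = Qd n m p i) ∧
  ∑ i, p i • v i = 0 ∧ (∃ α ∈ L, ∑ i, E1 n m p i • v i = Dl n m • α) ∧
  (∃ α ∈ L, ∑ i, E2 n m p i • v i = Dl n m • α) ∧
  (∀ u ∈ L, u ≠ 0 → Y 0 * Y 1 * Y 2 ≤ W * ‖u‖) ∧
  ∀ y : Fin 3 → ℤ, ∑ i, y i • v i = 0 → ∀ i j, y i * p j = y j * p i

/-- the conditions satisfied by the tuple attached to two independent classes of order 3 -/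
def Good (W : ℝ) (n : Fin 3 → ℤ) (m : ℤ) (p : Fin 3 → ℤ) : Prop :=
  (∀ i, n i ≠ 0) ∧ m ≠ 0 ∧ Dl n m ≠ 0 ∧ (∀ l : ℕ, l.Prime → (l : ℤ) ∣ m → ∃ i, ¬ (l : ℤ) ∣ n i) ∧
  |((m * Dl n m : ℤ) : ℝ)| ≤ 6000 * W ^ 2 ∧ (∀ i, |(p i : ℝ)| ≤ 3 * W ^ 2) ∧
  ∃ Y L v, Dat W n m p Y L v

end Pool.Agent.MP_d0fd9b_nt.S72
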