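import Pool.Agent.MP_d0fd9b_nt.S72.Lat

/-! The tuple attached to two classes of order three. -/

set_option autoImplicit false

namespace Pool.Agent.MP_d0fd9b_nt.S72

open QuadraticAlgebra Ideal H72 Complex

variable {a b : ℤ} {δ : ℂ} {hδ : δ * δ = b ^ 2 + 4 * a} [IsDedekindDomain (QuadraticAlgebra ℤ a b)]
  {I I' : Ideal (QuadraticAlgebra ℤ a b)} {ξ ξ' : ℂ × ℂ}

lemma lagr {u u' : ℂ × ℂ} (q1 : 1 ≤ ‖u‖) (q2 : 1 ≤ ‖u'‖)
    (im0 : (u.1 * (starRingEnd ℂ) u'.1 + u.2 * (starRingEnd ℂ) u'.2).im = 0)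
    (m1 : 4 * (normSq u'.1 + normSq u'.2) < 4 * (normSq (u' + u).1 + normSq (u' + u).2) + 1)
    (m2 : 4 * (normSq u'.1 + normSq u'.2) < 4 * (normSq (u' - u).1 + normSq (u' - u).2) + 1)
    (m3 : 4 * (normSq u.1 + normSq u.2) < 4 * (normSq (u + u').1 + normSq (u + u').2) + 1)
    (m4 : 4 * (normSq u.1 + normSq u.2) < 4 * (normSq (u - u').1 + normSq (u - u').2) + 1) :
    ‖u‖ ^ 2 * ‖u'‖ ^ 2 ≤ (3 / 2) ^ 2 * normSq (u.1 * u'.2 - u.2 * u'.1) := by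
  have nq : ∀ u : ℂ × ℂ, ‖u‖ ^ 2 ≤ normSq u.1 + normSq u.2 := fun u => by
    rw [Prod.norm_def, ← Complex.sq_norm, ← Complex.sq_norm]
    rcases max_cases ‖u.1‖ ‖u.2‖ with h | h <;> rw [h.1] <;> nlinarith
  have q3 := (one_le_pow₀ q1).trans (nq u)
  have q4 := (one_le_pow₀ q2).trans (nq u')
  refine (mul_le_mul (nq u) (nq u') (by positivity) (by linarith)).trans ?_
  obtain ⟨B, lag, e1, e2, e3, e4⟩ : ∃ B : ℝ,
      (normSq u.1 + normSq u.2) * (normSq u'.1 + normSq u'.2) = B * B +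
        (u.1 * (starRingEnd ℂ) u'.1 + u.2 * (starRingEnd ℂ) u'.2).im ^ 2 +
        normSq (u.1 * u'.2 - u.2 * u'.1) ∧
      normSq (u' + u).1 + normSq (u' + u).2 = normSq u.1 + normSq u.2 + (normSq u'.1 + normSq u'.2) + 2 * B ∧
      normSq (u' - u).1 + normSq (u' - u).2 = normSq u.1 + normSq u.2 + (normSq u'.1 + normSq u'.2) - 2 * B ∧
      normSq (u + u').1 + normSq (u + u').2 = normSq u.1 + normSq u.2 + (normSq u'.1 + normSq u'.2) + 2 * B ∧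
      normSq (u - u').1 + normSq (u - u').2 = normSq u.1 + normSq u.2 + (normSq u'.1 + normSq u'.2) - 2 * B := by
    refine ⟨u.1.re * u'.1.re + u.1.im * u'.1.im + u.2.re * u'.2.re + u.2.im * u'.2.im, ?_, ?_, ?_, ?_, ?_⟩ <;>
      simp [normSq_apply] <;> ring
  rw [im0] at lag
  have b1 : |B| ≤ 5 / 8 * (normSq u.1 + normSq u.2) := abs_le.2 ⟨by linarith, by linarith⟩
  have b2 : |B| ≤ 5 / 8 * (normSq u'.1 + normSq u'.2) := abs_le.2 ⟨by linarith, by linarith⟩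
  have b3 := mul_le_mul b1 b2 (abs_nonneg _) (by linarith)
  rw [abs_mul_abs_self] at b3
  linarith [normSq_nonneg (u.1 * u'.2 - u.2 * u'.1)]

lemma Dt.basis (δ0 : δ ≠ 0) (h : Dt hδ I ξ) : ∃ w w', Mem hδ ξ w ∧ Mem hδ ξ w' ∧
    w.1 * w'.2 - w.2 * w'.1 ≠ 0 ∧ ‖w‖ * ‖w'‖ ≤ 3 / 2 * ‖δ‖ := by
  classical
  let Q : QuadraticAlgebra ℤ a b → ℝ := fun α => normSq (eb hδ α * ξ).1 + normSq (eb hδ α * ξ).2
  have hex : ∃ k : ℕ, ∃ α ∈ I, ∃ α' ∈ I, (α.im * α'.re - α.re * α'.im).natAbs = absNorm I ∧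
      ⌊4 * (Q α + Q α')⌋₊ = k := by
    let B := I.selfBasis (QuadraticAlgebra.basis a b) h.1
    refine ⟨_, B 1, (B 1).2, B 0, (B 0).2, ?_, rfl⟩
    rw [← natAbs_det_basis_change (QuadraticAlgebra.basis a b) I B, Module.Basis.det_apply,
      Matrix.det_fin_two]
    simp only [Module.Basis.toMatrix_apply, basis_repr_apply, Function.comp]
    simp [mul_comm]
  obtain ⟨α, h1, α', h2, h3, h4⟩ := Nat.find_spec hex
  have hmin : ∀ β ∈ I, ∀ β' ∈ I, β.im * β'.re - β.re * β'.im = α.im * α'.re - α.re * α'.im →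
      4 * (Q α + Q α') < 4 * (Q β + Q β') + 1 := fun β b1 β' b2 b3 => by
    have := h4 ▸ Nat.find_min' hex ⟨β, b1, β', b2, b3 ▸ h3, rfl⟩
    have h5 : 0 ≤ 4 * (Q β + Q β') := by
      simp only [Q, ← Complex.sq_norm]; positivity
    exact (Nat.lt_floor_add_one _).trans_le (by
      gcongr; exact (Nat.cast_le.2 this).trans (Nat.floor_le h5))
  have m1 := hmin α h1 _ (I.add_mem h2 h1) (by simp; ring)
  have m2 := hmin α h1 _ (I.sub_mem h2 h1) (by simp; ring)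
  have m3 := hmin _ (I.add_mem h1 h2) α' h2 (by simp; ring)
  have m4 := hmin _ (I.sub_mem h1 h2) α' h2 (by simp; ring)
  obtain ⟨i, γ, ν, g1, g2, g3, g4⟩ := id h
  have det : ‖(eb hδ α * ξ).1 * (eb hδ α' * ξ).2 - (eb hδ α * ξ).2 * (eb hδ α' * ξ).1‖ = ‖δ‖ := by
    have := congrArg (‖·‖) g3
    rw [norm_mul, Complex.norm_intCast, ← Int.cast_abs, ← Nat.cast_natAbs, g4, NormOneClass.norm_one] at this
    rw [show (eb hδ α * ξ).1 * (eb hδ α' * ξ).2 - (eb hδ α * ξ).2 * (eb hδ α' * ξ).1 =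
      ((eb hδ α).1 * (eb hδ α').2 - (eb hδ α).2 * (eb hδ α').1) * (ξ.1 * ξ.2) by
      simp only [Prod.fst_mul, Prod.snd_mul]; ring, eb_det, norm_mul, norm_mul, Complex.norm_intCast,
      ← Int.cast_abs, ← Nat.cast_natAbs, h3, mul_right_comm, this, one_mul]
  have im0 : ((eb hδ α * ξ).1 * (starRingEnd ℂ) (eb hδ α' * ξ).1 +
      (eb hδ α * ξ).2 * (starRingEnd ℂ) (eb hδ α' * ξ).2).im = 0 := by
    have c : (starRingEnd ℂ) δ * (starRingEnd ℂ) δ = δ * δ := by rw [← map_mul, hδ]; simp [map_ofNat]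
    rw [← conj_eq_iff_im]
    rcases mul_self_eq_mul_self_iff.1 c with c | c
    · simp [eb, ec, c, map_ofNat]; ring
    · have c1 : ∀ z, (starRingEnd ℂ) (eb hδ z).1 = (eb hδ z).2 := fun z => by
        simp [eb, ec, c, sub_eq_add_neg, map_ofNat]
      have c2 : ∀ z, (starRingEnd ℂ) (eb hδ z).2 = (eb hδ z).1 := fun z => by rw [← c1, conj_conj]
      have a1 : ‖(eb hδ γ).1 * ξ.1 ^ 3‖ = ‖(eb hδ γ).2 * ξ.2 ^ 3‖ :=
        congrArg (‖·‖) ((congrArg Prod.fst g2).trans (congrArg Prod.snd g2).symm)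
      rw [norm_mul, norm_mul, ← c1, norm_conj, norm_pow, norm_pow, mul_right_inj' (norm_ne_zero_iff.2
        (eb_ne fun h0 => pow_ne_zero 3 i (by rw [g1, h0]; simp)).1),
        pow_left_inj₀ (norm_nonneg _) (norm_nonneg _) three_ne_zero] at a1
      have a2 : ξ.1 * (starRingEnd ℂ) ξ.1 = ξ.2 * (starRingEnd ℂ) ξ.2 := by
        rw [mul_conj', mul_conj', a1]
      simp only [Prod.fst_mul, Prod.snd_mul, map_add, map_mul, c1, c2, conj_conj]
      linear_combination ((eb hδ α).2 * (eb hδ α').1 - (eb hδ α).1 * (eb hδ α').2) * a2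
  have d0 := norm_ne_zero_iff.1 (det ▸ norm_ne_zero_iff.2 δ0)
  have q1 := h.one_le δ0 (h.mem h1) fun h0 => d0 (by simp [h0])
  have q2 := h.one_le δ0 (h.mem h2) fun h0 => d0 (by simp [h0])
  refine ⟨_, _, h.mem h1, h.mem h2, d0, le_of_sq_le_sq ?_ (by positivity)⟩
  simp only [Q, map_add, map_sub, add_mul, sub_mul] at m1 m2 m3 m4
  rw [mul_pow, mul_pow, ← det, Complex.sq_norm]
  generalize eb hδ α * ξ = u at *
  generalize eb hδ α' * ξ = u' at *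
  exact lagr q1 q2 im0 (by linarith) (by linarith) (by linarith) (by linarith)

lemma dich {A B : Set ℝ} (ha : A.Nonempty) (hb : B.Nonempty) (h1 : ∀ x ∈ A, 1 ≤ x) (h2 : ∀ x ∈ B, 1 ≤ x) :
    (∃ x ∈ A, ∀ y ∈ B, x ≤ 2 * y) ∨ ∃ y ∈ B, ∀ x ∈ A, y ≤ 2 * x := by
  wlog h : sInf A ≤ sInf B generalizing A B
  · exact (this hb ha h2 h1 (not_le.1 h).le).symm
  have := le_csInf ha h1
  obtain ⟨x, x1, x2⟩ := exists_lt_of_csInf_lt ha (show sInf A < 2 * sInf A by linarith)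
  exact Or.inl ⟨x, x1, fun y hy => by linarith [csInf_le ⟨1, h2⟩ hy]⟩

lemma exists_shift {A B C : ℂ} (hA : A ≠ 0) (hB : B ≠ 0) {w w' : ℂ × ℂ} (hw : w.1 * w'.2 - w.2 * w'.1 ≠ 0) :
    ∃ t : ℤ, |t| ≤ 2 ∧ (A * (w + t • w').1 - B * (w + t • w').2) *
      ((A * (w + t • w').1 - B * (w + t • w').2) ^ 3 - C * ((w + t • w').1 ^ 3 - (w + t • w').2 ^ 3)) ≠ 0 := by
  by_contra! h
  have h1 := h (-2) (by decide)
  have h2 := h (-1) (by decide)
  have h3 := h 0 (by decide)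
  have h4 := h 1 (by decide)
  have h5 := h 2 (by decide)
  simp only [zsmul_eq_mul, Prod.fst_add, Prod.snd_add, Prod.fst_mul, Prod.snd_mul, Prod.fst_intCast,
    Prod.snd_intCast] at h1 h2 h3 h4 h5
  push_cast at h1 h2 h3 h4 h5
  have key : ∀ i j : ℂ, (A * (i * w.1 + j * w'.1) - B * (i * w.2 + j * w'.2)) *
      ((A * (i * w.1 + j * w'.1) - B * (i * w.2 + j * w'.2)) ^ 3 -
        C * ((i * w.1 + j * w'.1) ^ 3 - (i * w.2 + j * w'.2) ^ 3)) = 0 := fun i j => by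
    linear_combination (j + i) * j * (j - i) * (j - 2 * i) / 24 * h1 -
      (j + 2 * i) * j * (j - i) * (j - 2 * i) / 6 * h2 +
      (j + 2 * i) * (j + i) * (j - i) * (j - 2 * i) / 4 * h3 -
      (j + 2 * i) * (j + i) * j * (j - 2 * i) / 6 * h4 + (j + 2 * i) * (j + i) * j * (j - i) / 24 * h5
  apply mul_ne_zero (pow_ne_zero 4 hw) (pow_ne_zero 2 (mul_ne_zero hA hB))
  linear_combination (key (w'.2 - w'.1) (w.1 - w.2) + key (w'.2 + w'.1) (-w.1 - w.2) -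
    2 * key w'.2 (-w.2) - 2 * key (-w'.1) w.1) / 12

theorem core (δ1 : 1 ≤ ‖δ‖) {W : ℝ} (hW : 9 * ‖δ‖ ≤ W) (h : Dt hδ I ξ) (h' : Dt hδ I' ξ')
    (c1 : ClassGroup.mk0 ⟨I, mem_nonZeroDivisors_of_ne_zero h.1⟩ ≠ 1)
    (c2 : ClassGroup.mk0 ⟨I', mem_nonZeroDivisors_of_ne_zero h'.1⟩ ≠ 1)
    (c3 : (ClassGroup.mk0 ⟨I, mem_nonZeroDivisors_of_ne_zero h.1⟩ *
      ClassGroup.mk0 ⟨I', mem_nonZeroDivisors_of_ne_zero h'.1⟩) ^ 2 ≠ 1)
    {x y : ℂ × ℂ} (hx : Mem hδ ξ x) (hy : Mem hδ ξ' y) (x0 : x ≠ 0) (y0 : y ≠ 0)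
    (hm : ∀ z u, Mem hδ (ξ * ξ' * (ξ * ξ')) z → z ≠ 0 → Mem hδ (ξ * ξ' * ξ') u → u ≠ 0 →
      ‖x‖ * ‖y‖ ≤ 2 * (‖z‖ * ‖u‖)) :
    ∃ (n : Fin 3 → ℤ) (m : ℤ) (p c : Fin 3 → ℤ) (z : ℂ × ℂ) (g : ℤ), 0 < g ∧ Good W n m p ∧
      Par (g * δ) ![x, y, z] n m p c := by
  have δ0 : δ ≠ 0 := norm_pos_iff.1 (by linarith)
  have h3 := (h.mul h').mul (h.mul h')
  obtain ⟨w, w', w1, w2, w3, w4⟩ := h3.basis δ0
  obtain ⟨u, u', u1, u2, u3, u4⟩ := ((h.mul h').mul h').basis δ0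
  obtain ⟨a₁, a1, a1'⟩ := h.norm δ0 hx x0
  obtain ⟨a₂, a2, a2'⟩ := h'.norm δ0 hy y0
  have a3 : x.1 * y.1 * (x.2 * y.2) ≠ 0 := by
    rw [mul_mul_mul_comm, ← a1', ← a2']; exact_mod_cast mul_ne_zero a1 a2
  obtain ⟨t, t1, t2⟩ := exists_shift (C := (x.1 ^ 3 - x.2 ^ 3) * (y.1 ^ 3 - y.2 ^ 3))
    (left_ne_zero_of_mul a3) (right_ne_zero_of_mul a3) w3
  have hz : Mem hδ (ξ * ξ' * (ξ * ξ')) (w + t • w') := (Lat hδ _).add_mem w1 ((Lat hδ _).zsmul_mem w2 t)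
  have hV : ∀ u, Mem hδ (ξ * ξ' * ξ') u → u ≠ 0 → ‖x‖ * ‖y‖ * ‖w + t • w'‖ ≤ 9 * ‖δ‖ * ‖u‖ :=
    fun u b1 b2 => by
      have b3 := hm w u w1 (fun h0 => w3 (by simp [h0])) b1 b2
      have b4 := hm w' u w2 (fun h0 => w3 (by simp [h0])) b1 b2
      have b5 : ‖w + t • w'‖ ≤ ‖w‖ + 2 * ‖w'‖ := by
        refine (norm_add_le _ _).trans ?_
        rw [norm_zsmul ℝ, Real.norm_eq_abs]
        gcongr; exact_mod_cast t1
      nlinarith [mul_le_mul_of_nonneg_left b5 (show 0 ≤ ‖x‖ * ‖y‖ by positivity),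
        mul_le_mul_of_nonneg_right b3 (norm_nonneg w'), mul_le_mul_of_nonneg_right b4 (norm_nonneg w),
        mul_le_mul_of_nonneg_right w4 (norm_nonneg u)]
  generalize w + t • w' = z at hz hV t2
  have z0 : z ≠ 0 := fun h0 => t2 (by simp [h0])
  obtain ⟨a₃, a3, a3'⟩ := h3.norm δ0 hz z0
  have hx' := h.swap hx
  have hy' := h'.swap hy
  have hz' := h3.swap hz
  have red : ∀ (i j : ℕ) {η u}, Mem hδ (ξ ^ (3 * i) * ξ' ^ (3 * j) * η) u → Mem hδ η u := by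
    intro i j
    induction i with
    | zero => induction j with
      | zero => intro η u hu; simpa using hu
      | succ j ih => intro η u hu; exact ih (h'.red (by convert hu using 1; ring))
    | succ i ih => intro η u hu; exact ih (h.red (by convert hu using 1; ring))
  obtain ⟨β₁, b1⟩ := h.cube hx
  obtain ⟨β₂, b2⟩ := h'.cube hy
  obtain ⟨β₃, b3⟩ := h3.cube hz
  obtain ⟨μ, b4⟩ := (red 1 1 (η := 1) (by convert (hx.mul hy).mul hz using 1; ring)).one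
  obtain ⟨π₁, b5⟩ := (red 2 1 (η := 1) (by convert ((hx'.mul hx').mul hy).mul hz using 1; ring)).one
  obtain ⟨π₂, b6⟩ := (red 1 2 (η := 1) (by convert ((hy'.mul hy').mul hz).mul hx using 1; ring)).one
  obtain ⟨π₃, b7⟩ := (red 3 3 (η := 1) (by convert ((hz'.mul hz').mul hx).mul hy using 1; ring)).one
  let f : Fin 7 → ℤ := ![β₁.im, β₂.im, β₃.im, μ.im, π₁.im, π₂.im, π₃.im]
  have m0 : μ.im ≠ 0 := fun h0 => by
    have := eb_sub hδ μ
    rw [← b4, h0, Int.cast_zero, zero_mul] at this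
    exact left_ne_zero_of_mul t2 this
  obtain ⟨f', f1, f2⟩ := Finset.extract_gcd f (s := Finset.univ) Finset.univ_nonempty
  have g0 : 0 < Finset.univ.gcd f := by
    refine lt_of_le_of_ne (Int.nonneg_of_normalize_eq_self Finset.normalize_gcd) fun h0 => m0 ?_
    exact (Finset.gcd_eq_zero_iff.1 h0.symm 3 (Finset.mem_univ _))
  generalize Finset.univ.gcd f = g at f1 g0
  have s0 : (g : ℂ) * δ ≠ 0 := mul_ne_zero (by exact_mod_cast g0.ne') δ0
  have hf : ∀ (i : Fin 7) (β : QuadraticAlgebra ℤ a b), β.im = f i →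
      f' i * (g * δ) = (eb hδ β).1 - (eb hδ β).2 := fun i β e => by
    rw [eb_sub, e, f1 i (Finset.mem_univ _)]; push_cast; ring
  have par : Par (g * δ) ![x, y, z] ![f' 0, f' 1, f' 2] (f' 3) ![f' 4, f' 5, f' 6] ![a₁, a₂, a₃] := by
    refine ⟨s0, fun i => ?_, ?_, fun i => ?_, fun i => ?_⟩
    · fin_cases i
      · exact (hf 0 β₁ rfl).trans (by rw [← b1]; rfl)
      · exact (hf 1 β₂ rfl).trans (by rw [← b2]; rfl)
      · exact (hf 2 β₃ rfl).trans (by rw [← b3]; rfl)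
    · exact (hf 3 μ rfl).trans (by rw [← b4]; rfl)
    · fin_cases i
      · exact (hf 4 π₁ rfl).trans (by rw [← b5]; simp [pow_two])
      · exact (hf 5 π₂ rfl).trans (by rw [← b6]; simp [pow_two])
      · exact (hf 6 π₃ rfl).trans (by rw [← b7]; simp [pow_two])
    · fin_cases i
      exacts [a1', a2', a3']
  refine ⟨_, _, _, _, z, g, g0, ?_, par⟩
  have D0 : Dl ![f' 0, f' 1, f' 2] (f' 3) ≠ 0 := fun h0 => by
    obtain ⟨σ, σ0, -, e1, e2, -⟩ := par.expl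
    have := congrArg (Int.cast : ℤ → ℂ) h0
    rw [Dl, Int.cast_zero, Int.cast_sub, Int.cast_pow, Int.cast_mul, Int.cast_mul, e1, e1, e1, e2] at this
    apply mul_ne_zero (right_ne_zero_of_mul t2) (pow_ne_zero 3 σ0)
    rw [← this]; simp; ring
  have tt : ∀ (i j : Fin 7) (β β' : QuadraticAlgebra ℤ a b), β.im = f i → β'.im = f j → ∃ t : ℤ,
      t * (g * δ) = (eb hδ β).1 * (eb hδ β').2 - (eb hδ β).2 * (eb hδ β').1 := fun i j β β' e e' =>
    ⟨f' i * β'.re - β.re * f' j, by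
      rw [eb_det, e, e', f1 i (Finset.mem_univ _), f1 j (Finset.mem_univ _)]; push_cast; ring⟩
  refine par.good δ1 ?_ hW (fun i h0 => ?_) (fun h0 => m0 ?_) D0 (fun i => ?_) (fun l hl d1 => ?_)
    (Lat hδ (ξ * ξ' * ξ')) (fun i => ?_) ?_ ?_ hV ?_
  · rw [norm_mul, Complex.norm_intCast]
    exact le_mul_of_one_le_left (norm_nonneg _) (by exact_mod_cast Int.one_le_abs g0.ne')
  · have := par.2.1 i
    rw [h0, Int.cast_zero, zero_mul, eq_comm, sub_eq_zero] at this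
    fin_cases i
    · exact h.ne δ0 hx x0 c1 this
    · exact h'.ne δ0 hy y0 c2 this
    · exact h3.ne δ0 hz z0 (by rwa [pow_two, ← map_mul, ← map_mul] at c3) this
  · exact (f1 3 (Finset.mem_univ _)).trans (by rw [h0, mul_zero])
  · fin_cases i
    exacts [a1, a2, a3]
  · by_contra! d2
    have hl' := Nat.prime_iff_prime_int.1 hl
    have d3 := par.prim D0 (fun i => by
      fin_cases i
      · simpa [← b2, ← b3] using tt 1 2 β₂ β₃ rfl rfl
      · simpa [← b3, ← b1] using tt 2 0 β₃ β₁ rfl rfl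
      · simpa [← b1, ← b2] using tt 0 1 β₁ β₂ rfl rfl) hl' d1 d2
    refine hl'.not_dvd_one (f2 ▸ Finset.dvd_gcd fun i _ => ?_)
    fin_cases i
    exacts [d2 0, d2 1, d2 2, d1, d3 0, d3 1, d3 2]
  · fin_cases i
    · exact red 1 1 (u := y * z.swap) (by convert hy.mul hz' using 1; ring)
    · exact red 1 0 (u := z * x.swap) (by convert hz.mul hx' using 1; ring)
    · exact red 0 0 (u := x * y.swap) (by convert hx.mul hy' using 1; ring)
  · exact red 1 0 (by convert (hx'.mul hx').mul hy' using 1 <;> [ring; simp [pow_two]])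
  · exact red 0 0 (by convert hx.mul (hy.mul hy) using 1 <;> [ring; simp [pow_two]])
  · have b8 := mul_le_mul (hV u u1 fun h0 => u3 (by simp [h0])) (hV u' u2 fun h0 => u3 (by simp [h0]))
      (by positivity) (by positivity)
    change 2 * (‖x‖ * ‖y‖ * ‖z‖) ^ 2 ≤ _
    nlinarith [mul_le_mul_of_nonneg_left u4 (show 0 ≤ ‖δ‖ ^ 2 by positivity)]

end Pool.Agent.MP_d0fd9b_nt.S72
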