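import Pool.Agent.MP_d0fd9b_nt.S72.Base

/-! The polynomial identities between the imaginary parts. -/

set_option autoImplicit false

namespace Pool.Agent.MP_d0fd9b_nt.S72

open Finset

/-- the integers attached to three pairs of complex numbers -/
def Par (s : ℂ) (X : Fin 3 → ℂ × ℂ) (n : Fin 3 → ℤ) (m : ℤ) (p a : Fin 3 → ℤ) : Prop :=
  s ≠ 0 ∧ (∀ i, n i * s = (X i).1 ^ 3 - (X i).2 ^ 3) ∧
  m * s = (X 0).1 * (X 1).1 * (X 2).1 - (X 0).2 * (X 1).2 * (X 2).2 ∧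
  (∀ i, p i * s = (X i).2 ^ 2 * (X (i + 1)).1 * (X (i + 2)).1 - (X i).1 ^ 2 * (X (i + 1)).2 * (X (i + 2)).2) ∧
  ∀ i, a i = (X i).1 * (X i).2

/-- the cubic form giving the traces -/
def Kp (n : Fin 3 → ℤ) (m : ℤ) (p : Fin 3 → ℤ) : ℤ :=
  n 1 * n 2 * p 0 ^ 3 + n 0 * n 2 * p 1 ^ 3 + n 0 * n 1 * p 2 ^ 3 - 3 * m ^ 2 * p 0 * p 1 * p 2

variable {s : ℂ} {X : Fin 3 → ℂ × ℂ} {n p a : Fin 3 → ℤ} {m : ℤ}

lemma Par.expl (h : Par s X n m p a) : ∃ σ : ℂ, σ ≠ 0 ∧ s * σ = 1 ∧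
    (∀ i, (n i : ℂ) = ((X i).1 ^ 3 - (X i).2 ^ 3) * σ) ∧
    (m : ℂ) = ((X 0).1 * (X 1).1 * (X 2).1 - (X 0).2 * (X 1).2 * (X 2).2) * σ ∧
    (p 0 : ℂ) = ((X 0).2 ^ 2 * (X 1).1 * (X 2).1 - (X 0).1 ^ 2 * (X 1).2 * (X 2).2) * σ ∧
    (p 1 : ℂ) = ((X 1).2 ^ 2 * (X 2).1 * (X 0).1 - (X 1).1 ^ 2 * (X 2).2 * (X 0).2) * σ ∧
    (p 2 : ℂ) = ((X 2).2 ^ 2 * (X 0).1 * (X 1).1 - (X 2).1 ^ 2 * (X 0).2 * (X 1).2) * σ :=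
  ⟨s⁻¹, inv_ne_zero h.1, mul_inv_cancel₀ h.1, fun i => (eq_mul_inv_iff_mul_eq₀ h.1).2 (h.2.1 i),
    (eq_mul_inv_iff_mul_eq₀ h.1).2 h.2.2.1, (eq_mul_inv_iff_mul_eq₀ h.1).2 (h.2.2.2.1 0),
    (eq_mul_inv_iff_mul_eq₀ h.1).2 (h.2.2.2.1 1), (eq_mul_inv_iff_mul_eq₀ h.1).2 (h.2.2.2.1 2)⟩

lemma Par.qd (h : Par s X n m p a) (i : Fin 3) : a i * Dl n m = Qd n m p i := by
  obtain ⟨σ, -, -, h1, h2, h3, h4, h5⟩ := h.expl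
  apply Int.cast_injective (α := ℂ)
  fin_cases i <;> simp [Dl, Qd, h1, h2, h3, h4, h5, h.2.2.2.2] <;> ring

lemma Par.tr (h : Par s X n m p a) (i : Fin 3) {T : ℤ} (hT : (T : ℂ) = (X i).1 ^ 3 + (X i).2 ^ 3) :
    Dl n m ^ 2 * T = 2 * Dl n m * p i ^ 3 + n i * Kp n m p := by
  obtain ⟨σ, -, -, h1, h2, h3, h4, h5⟩ := h.expl
  apply Int.cast_injective (α := ℂ)
  fin_cases i <;> simp [Dl, Kp, h1, h2, h3, h4, h5, hT] <;> ring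

lemma Par.cub (h : Par s X n m p a) (i : Fin 3) {t : ℤ}
    (ht : t * s = (X (i + 1)).1 ^ 3 * (X (i + 2)).2 ^ 3 - (X (i + 1)).2 ^ 3 * (X (i + 2)).1 ^ 3) :
    n (i + 1) * p (i + 2) ^ 3 - n (i + 2) * p (i + 1) ^ 3 = Dl n m * t := by
  obtain ⟨σ, -, hσ, h1, h2, h3, h4, h5⟩ := h.expl
  have : (t : ℂ) = ((X (i + 1)).1 ^ 3 * (X (i + 2)).2 ^ 3 - (X (i + 1)).2 ^ 3 * (X (i + 2)).1 ^ 3) * σ := by
    rw [← ht, mul_assoc, hσ, mul_one]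
  apply Int.cast_injective (α := ℂ)
  fin_cases i <;> simp [Dl, h1, h2, h3, h4, h5, this] <;> ring

lemma prim_aux {n₁ n₂ n₃ m p₁ p₂ p₃ c t₁ t₂ l : ℤ} (hl : Prime l) (D0 : m ^ 3 - n₁ * n₂ * n₃ ≠ 0)
    (h1 : c * (m ^ 3 - n₁ * n₂ * n₃) = m * p₃ ^ 2 - n₃ * p₁ * p₂)
    (h2 : n₂ * p₃ ^ 3 - n₃ * p₂ ^ 3 = (m ^ 3 - n₁ * n₂ * n₃) * t₁)
    (h3 : n₃ * p₁ ^ 3 - n₁ * p₃ ^ 3 = (m ^ 3 - n₁ * n₂ * n₃) * t₂) (d1 : l ∣ m) (d2 : l ∣ n₃) : l ∣ p₃ := by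
  have d3 : l ∣ m ^ 3 - n₁ * n₂ * n₃ := dvd_sub (d1.trans (dvd_pow_self m three_ne_zero)) (d2.mul_left _)
  have e : (m ^ 3 - n₁ * n₂ * n₃) * p₃ ^ 6 = (m * p₃ ^ 2) ^ 3 - n₃ * (n₁ * p₃ ^ 3) * (n₂ * p₃ ^ 3) := by ring
  generalize m ^ 3 - n₁ * n₂ * n₃ = D at *
  rw [show m * p₃ ^ 2 = n₃ * p₁ * p₂ + c * D by linarith, show n₁ * p₃ ^ 3 = n₃ * p₁ ^ 3 - D * t₂ by linarith,
    show n₂ * p₃ ^ 3 = n₃ * p₂ ^ 3 + D * t₁ by linarith] at e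
  refine hl.dvd_of_dvd_pow (n := 6) ?_
  rw [mul_left_cancel₀ D0 (e.trans (show _ = D * (n₃ * (3 * n₃ * (p₁ * p₂) ^ 2 * c + 3 * p₁ * p₂ * c ^ 2 * D -
    n₃ * (p₁ ^ 3 * t₁ - p₂ ^ 3 * t₂) + t₁ * t₂ * D) + D * (c ^ 3 * D)) by ring))]
  exact dvd_add (d2.mul_right _) (d3.mul_right _)

lemma Par.prim (h : Par s X n m p a) (D0 : Dl n m ≠ 0) (ht : ∀ i, ∃ t : ℤ,
      t * s = (X (i + 1)).1 ^ 3 * (X (i + 2)).2 ^ 3 - (X (i + 1)).2 ^ 3 * (X (i + 2)).1 ^ 3)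
    {l : ℤ} (hl : Prime l) (d1 : l ∣ m) (d2 : ∀ i, l ∣ n i) (i : Fin 3) : l ∣ p i := by
  choose t ht using ht
  have e : Dl n m = m ^ 3 - n (i + 1) * n (i + 2) * n i := by fin_cases i <;> simp [Dl] <;> ring
  have a1 := h.qd i
  have a2 := h.cub (i + 1) (ht _)
  have a3 := h.cub (i + 2) (ht _)
  rw [e] at a1 a2 a3 D0
  obtain ⟨b1, b2, b3, b4⟩ := (by decide : ∀ i : Fin 3, i + 1 + 1 = i + 2 ∧ i + 1 + 2 = i ∧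
    i + 2 + 1 = i ∧ i + 2 + 2 = i + 1) i
  rw [b1, b2] at a2
  rw [b3, b4] at a3
  exact prim_aux hl D0 a1 a2 a3 d1 (d2 i)

lemma norm_swap' (u : ℂ × ℂ) : ‖u.swap‖ = ‖u‖ := max_comm _ _

theorem Par.good (h : Par s X n m p a) {W r : ℝ} (r1 : 1 ≤ r) (rs : r ≤ ‖s‖) (rW : 9 * r ≤ W)
    (n0 : ∀ i, n i ≠ 0) (m0 : m ≠ 0) (D0 : Dl n m ≠ 0) (a0 : ∀ i, a i ≠ 0)
    (hpr : ∀ l : ℕ, l.Prime → (l : ℤ) ∣ m → ∃ i, ¬ (l : ℤ) ∣ n i) (L : AddSubgroup (ℂ × ℂ))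
    (l1 : ∀ i, X (i + 1) * (X (i + 2)).swap ∈ L) (l2 : (X 0).swap ^ 2 * (X 1).swap ∈ L)
    (l3 : X 0 * X 1 ^ 2 ∈ L) (l4 : ∀ u ∈ L, u ≠ 0 → ‖X 0‖ * ‖X 1‖ * ‖X 2‖ ≤ 9 * r * ‖u‖)
    (hV : 2 * (‖X 0‖ * ‖X 1‖ * ‖X 2‖) ^ 2 ≤ 243 * r ^ 3) : Good W n m p := by
  have f1 : ∀ i, ‖(X i).1‖ ≤ ‖X i‖ := fun i => norm_fst_le _
  have f2 : ∀ i, ‖(X i).2‖ ≤ ‖X i‖ := fun i => norm_snd_le _
  have ab : ∀ i, |(a i : ℝ)| ≤ ‖X i‖ ^ 2 := fun i => by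
    rw [← Complex.norm_intCast, h.2.2.2.2, norm_mul, pow_two]; gcongr <;> apply_assumption
  have X1 : ∀ i, 1 ≤ ‖X i‖ := fun i => le_of_sq_le_sq
    (le_trans (by exact_mod_cast Int.one_le_abs (a0 i)) (ab i)) (norm_nonneg _)
  have pr : ∀ i, ‖X i‖ * (‖X (i + 1)‖ * ‖X (i + 2)‖) = ‖X 0‖ * ‖X 1‖ * ‖X 2‖ := fun i => by
    fin_cases i <;> simp <;> ring
  have bd : ∀ {k : ℤ} {u w : ℂ} {y : ℝ}, k * s = u - w → ‖u‖ ≤ y → ‖w‖ ≤ y → |(k : ℝ)| * r ≤ 2 * y :=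
    fun {k u w y} h1 h2 h3 => by
      have := norm_sub_le u w
      rw [← h1, norm_mul, Complex.norm_intCast] at this
      nlinarith [abs_nonneg (k : ℝ)]
  have nb : ∀ i, |(n i : ℝ)| * r ≤ 2 * ‖X i‖ ^ 3 := fun i =>
    bd (h.2.1 i) (by rw [norm_pow]; gcongr; apply f1) (by rw [norm_pow]; gcongr; apply f2)
  have mb : |(m : ℝ)| * r ≤ 2 * (‖X 0‖ * ‖X 1‖ * ‖X 2‖) :=
    bd h.2.2.1 (by simp only [norm_mul]; gcongr <;> apply f1) (by simp only [norm_mul]; gcongr <;> apply f2)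
  have pb : ∀ i, |(p i : ℝ)| * r ≤ 2 * (‖X i‖ ^ 2 * ‖X (i + 1)‖ * ‖X (i + 2)‖) := fun i =>
    bd (h.2.2.2.1 i) (by simp only [norm_mul, norm_pow]; gcongr <;> apply_assumption)
      (by simp only [norm_mul, norm_pow]; gcongr <;> apply_assumption)
  have XV : ∀ i, ‖X i‖ ≤ ‖X 0‖ * ‖X 1‖ * ‖X 2‖ := fun i => by
    rw [← pr i]
    exact le_mul_of_one_le_right (norm_nonneg _) (one_le_mul_of_one_le_of_one_le (X1 _) (X1 _))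
  have nn : |(n 0 : ℝ)| * |(n 1 : ℝ)| * |(n 2 : ℝ)| * r ^ 3 ≤ 8 * (‖X 0‖ * ‖X 1‖ * ‖X 2‖) ^ 3 := by
    calc _ = |(n 0 : ℝ)| * r * (|(n 1 : ℝ)| * r) * (|(n 2 : ℝ)| * r) := by ring
      _ ≤ 2 * ‖X 0‖ ^ 3 * (2 * ‖X 1‖ ^ 3) * (2 * ‖X 2‖ ^ 3) := mul_le_mul (mul_le_mul (nb 0) (nb 1)
        (by positivity) (by positivity)) (nb 2) (by positivity) (by positivity)
      _ = _ := by ring
  have pb' : ∀ i, |(p i : ℝ)| * r ≤ 2 * (‖X 0‖ * ‖X 1‖ * ‖X 2‖) ^ 2 := fun i => by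
    refine (pb i).trans ?_
    rw [show ‖X i‖ ^ 2 * ‖X (i + 1)‖ * ‖X (i + 2)‖ = ‖X i‖ * (‖X i‖ * (‖X (i + 1)‖ * ‖X (i + 2)‖)) by ring,
      pr, pow_two]
    gcongr; apply XV
  have V0 : 0 ≤ ‖X 0‖ * ‖X 1‖ * ‖X 2‖ := by positivity
  have r0 : 0 < r := by linarith
  have W2 : 81 * r ^ 2 ≤ W ^ 2 := by nlinarith
  obtain ⟨σ, σ0, -, h1, h2, h3, h4, h5⟩ := h.expl
  refine ⟨n0, m0, D0, hpr, ?_, fun i => ?_, fun i => ‖X i‖, L, fun i => X (i + 1) * (X (i + 2)).swap,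
    fun i => ⟨X1 i, (XV i).trans ?_, l1 i, ?_, a i, a0 i, ab i, h.qd i⟩, ?_, ⟨_, l2, ?_⟩, ⟨_, l3, ?_⟩,
    fun u u1 u2 => (l4 u u1 u2).trans (by gcongr), fun y hy => ?_⟩
  · have d1 : |(Dl n m : ℝ)| * r ^ 3 ≤ 16 * (‖X 0‖ * ‖X 1‖ * ‖X 2‖) ^ 3 := by
      have := pow_le_pow_left₀ (by positivity) mb 3
      have d2 : |(Dl n m : ℝ)| ≤ |(m : ℝ)| ^ 3 + |(n 0 : ℝ)| * |(n 1 : ℝ)| * |(n 2 : ℝ)| := by
        rw [Dl, ← abs_pow, ← abs_mul, ← abs_mul]; push_cast; exact abs_sub _ _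
      nlinarith [mul_le_mul_of_nonneg_right d2 (pow_pos r0 3).le]
    have d3 := mul_le_mul mb d1 (by positivity) (by positivity)
    have d4 := pow_le_pow_left₀ (by positivity) hV 2
    rw [Int.cast_mul, abs_mul]
    refine le_of_mul_le_mul_right ?_ (pow_pos r0 4)
    nlinarith [mul_le_mul_of_nonneg_right W2 (pow_pos r0 4).le, pow_pos r0 6]
  · refine le_of_mul_le_mul_right ((pb' i).trans ?_) r0
    nlinarith [mul_le_mul_of_nonneg_right W2 r0.le]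
  · refine le_of_sq_le_sq ?_ (by positivity)
    have := pow_le_pow_left₀ (by positivity) W2 2
    nlinarith [pow_le_pow_right₀ r1 (show 3 ≤ 4 by norm_num), pow_pos r0 4]
  · refine (norm_mul_le _ _).trans_eq ?_
    rw [norm_swap']
  · ext <;> simp [Fin.sum_univ_three, h3, h4, h5] <;> ring
  · ext <;> simp [Fin.sum_univ_three, E1, Dl, h1, h2, h3, h4, h5] <;> ring
  · ext <;> simp [Fin.sum_univ_three, E2, Dl, h1, h2, h3, h4, h5] <;> ring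
  · have y1 := congrArg Prod.fst hy
    have y2 := congrArg Prod.snd hy
    simp [Fin.sum_univ_three] at y1 y2
    have c1 : y 0 * p 1 = y 1 * p 0 := by
      apply Int.cast_injective (α := ℂ)
      push_cast
      rw [h3, h4]
      linear_combination σ * (X 0).1 * (X 1).2 * y2 - σ * (X 0).2 * (X 1).1 * y1
    have c2 : y 1 * p 2 = y 2 * p 1 := by
      apply Int.cast_injective (α := ℂ)
      push_cast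
      rw [h5, h4]
      linear_combination σ * (X 1).1 * (X 2).2 * y2 - σ * (X 1).2 * (X 2).1 * y1
    have c3 : y 2 * p 0 = y 0 * p 2 := by
      apply Int.cast_injective (α := ℂ)
      push_cast
      rw [h5, h3]
      linear_combination σ * (X 2).1 * (X 0).2 * y2 - σ * (X 2).2 * (X 0).1 * y1
    intro i j
    fin_cases i <;> fin_cases j <;> simp [c1, c2, c3]

end Pool.Agent.MP_d0fd9b_nt.S72
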