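import Pool.Agent.MP_d0fd9b_nt.S72.Ident

/-! The lattices attached to ideals whose cube is principal. -/

set_option autoImplicit false

namespace Pool.Agent.MP_d0fd9b_nt.S72

open QuadraticAlgebra Ideal H72

variable {a b : ℤ} {δ : ℂ} (hδ : δ * δ = b ^ 2 + 4 * a)

/-- the pair of complex embeddings -/
noncomputable def eb : QuadraticAlgebra ℤ a b →+* ℂ × ℂ where
  toFun z := (ec ((b + δ) / 2) z, ec ((b - δ) / 2) z)
  map_one' := by simp [ec]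
  map_mul' x y := Prod.ext (ec_mul (by linear_combination hδ / 4) x y)
    (ec_mul (by linear_combination hδ / 4) x y)
  map_zero' := by simp [ec]
  map_add' x y := by ext <;> simp [ec] <;> ring

lemma eb_sub (z : QuadraticAlgebra ℤ a b) : (eb hδ z).1 - (eb hδ z).2 = z.im * δ := by
  simp [eb, ec]; ring

lemma eb_norm (z : QuadraticAlgebra ℤ a b) : (eb hδ z).1 * (eb hδ z).2 = (z.norm : ℤ) := ec_norm hδ z

lemma eb_star (z : QuadraticAlgebra ℤ a b) : eb hδ (star z) = (eb hδ z).swap := by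
  ext <;> simp [eb, ec] <;> ring

lemma eb_det (z w : QuadraticAlgebra ℤ a b) :
    (eb hδ z).1 * (eb hδ w).2 - (eb hδ z).2 * (eb hδ w).1 = (z.im * w.re - z.re * w.im : ℤ) * δ := by
  simp [eb, ec]; ring

/-- integral elements of the line through `ξ` -/
def Mem (ξ u : ℂ × ℂ) : Prop :=
  IsIntegral ℤ u ∧ ∃ (κ : QuadraticAlgebra ℤ a b) (m : ℤ), m ≠ 0 ∧ m * u = eb hδ κ * ξ

variable {hδ} {ξ ξ' u u' : ℂ × ℂ}

lemma Mem.mul (h : Mem hδ ξ u) (h' : Mem hδ ξ' u') : Mem hδ (ξ * ξ') (u * u') := by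
  obtain ⟨i, κ, m, m0, e⟩ := h
  obtain ⟨i', κ', m', m0', e'⟩ := h'
  exact ⟨i.mul i', κ * κ', m * m', mul_ne_zero m0 m0', by
    rw [map_mul]; push_cast; linear_combination (m' * u') * e + eb hδ κ * ξ * e'⟩

lemma Mem.swap (h : Mem hδ ξ u) : Mem hδ ξ.swap u.swap := by
  obtain ⟨i, κ, m, m0, e⟩ := h
  exact ⟨i.map (AlgHom.prod (AlgHom.snd ℤ ℂ ℂ) (AlgHom.fst ℤ ℂ ℂ)), star κ, m, m0, by
    rw [eb_star, ← Prod.swap_mul, ← e]; rfl⟩

lemma Mem.of_eq (h : Mem hδ ξ u) {k : ℤ} (k0 : k ≠ 0) {κ₀ : QuadraticAlgebra ℤ a b}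
    (e₀ : k * ξ = eb hδ κ₀ * ξ') : Mem hδ ξ' u := by
  obtain ⟨i, κ, m, m0, e⟩ := h
  exact ⟨i, κ * κ₀, m * k, mul_ne_zero m0 k0, by
    rw [map_mul]; push_cast; linear_combination k * e + eb hδ κ * e₀⟩

/-- the lattice -/
def Lat (hδ : δ * δ = b ^ 2 + 4 * a) (ξ : ℂ × ℂ) : AddSubgroup (ℂ × ℂ) where
  carrier := {u | Mem hδ ξ u}
  add_mem' := by
    rintro u u' ⟨i, κ, m, m0, e⟩ ⟨i', κ', m', m0', e'⟩
    exact ⟨i.add i', m' * κ + m * κ', m * m', mul_ne_zero m0 m0', by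
      simp only [map_add, map_mul, map_intCast]; push_cast; linear_combination m' * e + m * e'⟩
  zero_mem' := ⟨isIntegral_zero, 0, 1, one_ne_zero, by simp⟩
  neg_mem' := by
    rintro u ⟨i, κ, m, m0, e⟩
    exact ⟨i.neg, -κ, m, m0, by rw [map_neg]; linear_combination -e⟩

lemma cast_cancel {m : ℤ} (m0 : m ≠ 0) {u w : ℂ × ℂ} (h : m * u = m * w) : u = w := by
  have : (m : ℂ) ≠ 0 := by exact_mod_cast m0
  exact Prod.ext (mul_left_cancel₀ this (congrArg Prod.fst h)) (mul_left_cancel₀ this (congrArg Prod.snd h))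

variable [IsDedekindDomain (QuadraticAlgebra ℤ a b)]

lemma norm_ne {z : QuadraticAlgebra ℤ a b} (hz : z ≠ 0) : z.norm ≠ 0 := fun h => by
  have := algebraMap_norm_eq_mul_star z
  rw [h, map_zero, eq_comm, mul_eq_zero, star_eq_zero, or_self] at this
  exact hz this

lemma eb_ne {z : QuadraticAlgebra ℤ a b} (hz : z ≠ 0) : (eb hδ z).1 ≠ 0 ∧ (eb hδ z).2 ≠ 0 := by
  rw [← mul_ne_zero_iff, eb_norm]; exact_mod_cast norm_ne hz

lemma eb_inj : Function.Injective (eb hδ) :=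
  (injective_iff_map_eq_zero _).2 fun _ h => by_contra fun hz => (eb_ne hz).1 (congrArg Prod.fst h)

lemma Mem.one (h : Mem hδ 1 u) : ∃ β, u = eb hδ β := by
  obtain ⟨i, κ, m, m0, e⟩ := h
  have inj : Function.Injective ((RingHom.fst ℂ ℂ).comp (eb hδ)) :=
    (injective_iff_map_eq_zero _).2 fun z h => by_contra fun hz => (eb_ne (hδ := hδ) hz).1 h
  let K := FractionRing (QuadraticAlgebra ℤ a b)
  let φ : K →+* ℂ := IsFractionRing.lift inj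
  have m1 : (m : ℂ) ≠ 0 := by exact_mod_cast m0
  have m2 : (m : K) ≠ 0 := fun h => m1 (by rw [← map_intCast φ, h, map_zero])
  have e1 : φ (algebraMap _ K κ / m) = u.1 := by
    rw [map_div₀, map_intCast, IsFractionRing.lift_algebraMap, div_eq_iff m1, mul_comm]
    simpa using (congrArg Prod.fst e).symm
  have i1 : IsIntegral ℤ (algebraMap _ K κ / m) := by
    rw [← isIntegral_algHom_iff (⟨φ, fun n => by simp⟩ : K →ₐ[ℤ] ℂ) φ.injective]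
    exact e1.symm ▸ (i.map (AlgHom.fst ℤ ℂ ℂ) : IsIntegral ℤ u.1)
  obtain ⟨β, hβ⟩ := IsIntegrallyClosed.algebraMap_eq_of_integral
    (i1.tower_top (A := QuadraticAlgebra ℤ a b))
  rw [eq_div_iff m2, ← map_intCast (algebraMap (QuadraticAlgebra ℤ a b) K), ← map_mul] at hβ
  refine ⟨β, cast_cancel m0 ?_⟩
  rw [e, ← IsFractionRing.injective _ K hβ, map_mul, map_intCast]; ring

/-- an ideal whose cube is principal, with an inverse cube root of a generator -/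
def Dt (hδ : δ * δ = b ^ 2 + 4 * a) (I : Ideal (QuadraticAlgebra ℤ a b)) (ξ : ℂ × ℂ) : Prop :=
  I ≠ ⊥ ∧ ∃ (γ : QuadraticAlgebra ℤ a b) (ν : ℤ), I ^ 3 = span {γ} ∧ eb hδ γ * ξ ^ 3 = 1 ∧
    ν * (ξ.1 * ξ.2) = 1 ∧ ν.natAbs = absNorm I

variable {I I' : Ideal (QuadraticAlgebra ℤ a b)}

lemma Dt.mul (h : Dt hδ I ξ) (h' : Dt hδ I' ξ') : Dt hδ (I * I') (ξ * ξ') := by
  obtain ⟨i, γ, ν, h1, h2, h3, h4⟩ := h
  obtain ⟨i', γ', ν', h1', h2', h3', h4'⟩ := h'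
  refine ⟨mul_ne_zero i i', γ * γ', ν * ν', by rw [mul_pow, h1, h1', span_singleton_mul_span_singleton],
    by rw [map_mul]; linear_combination (eb hδ γ' * ξ' ^ 3) * h2 + h2', ?_,
    by rw [Int.natAbs_mul, map_mul, h4, h4']⟩
  push_cast [Prod.fst_mul, Prod.snd_mul]
  linear_combination (ν' * (ξ'.1 * ξ'.2)) * h3 + h3'

lemma Dt.one : Dt hδ ⊤ 1 := ⟨top_ne_bot, 1, 1, by simp, by simp, by simp, by simp⟩

lemma exists_dt (hI : I ≠ ⊥) {γ : QuadraticAlgebra ℤ a b} (h : I ^ 3 = span {γ}) : ∃ ξ, Dt hδ I ξ := by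
  have γ0 : γ ≠ 0 := fun h0 => pow_ne_zero 3 hI (by rw [h, h0]; simp)
  have hN : absNorm I ^ 3 = γ.norm.natAbs := by rw [← map_pow, h, absNorm_span_singleton, alg_norm]
  obtain ⟨ν, h1, h2⟩ : ∃ ν : ℤ, ν ^ 3 = γ.norm ∧ ν.natAbs = absNorm I := by
    rcases Int.natAbs_eq γ.norm with h1 | h1
    · exact ⟨absNorm I, by rw [h1, ← hN]; simp, by simp⟩
    · exact ⟨-absNorm I, by rw [h1, ← hN]; push_cast; ring, by simp⟩
  obtain ⟨r, hr⟩ := IsAlgClosed.exists_pow_nat_eq (eb hδ γ).1 three_pos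
  obtain ⟨e1, e2⟩ := eb_ne (hδ := hδ) γ0
  have r0 : r ≠ 0 := by rintro rfl; simp [← hr] at e1
  have e3 := eb_norm hδ γ
  rw [← h1, Int.cast_pow] at e3
  have ν0 : (ν : ℂ) ≠ 0 := fun h => by simp [h, e1, e2] at e3
  refine ⟨(r⁻¹, r / ν), hI, γ, ν, h, Prod.ext ?_ ?_, by field_simp, h2⟩
  · simp [← hr, r0]
  · simp only [Prod.snd_mul, Prod.pow_snd, Prod.snd_one, div_pow, hr, ← e3]
    field_simp

lemma Dt.mem (h : Dt hδ I ξ) {α : QuadraticAlgebra ℤ a b} (hα : α ∈ I) : Mem hδ ξ (eb hδ α * ξ) := by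
  obtain ⟨-, γ, ν, h1, h2, -⟩ := h
  obtain ⟨β, hβ⟩ := mem_span_singleton'.1 (h1 ▸ pow_mem_pow hα 3)
  refine ⟨IsIntegral.of_pow three_pos ?_, α, 1, one_ne_zero, by simp⟩
  rw [mul_pow, ← map_pow, ← hβ, map_mul, mul_assoc, h2, mul_one]
  exact (Algebra.IsIntegral.isIntegral (R := ℤ) β).map (eb hδ).toIntAlgHom

lemma Dt.red (h : Dt hδ I ξ) (hu : Mem hδ (ξ ^ 3 * ξ') u) : Mem hδ ξ' u := by
  obtain ⟨i, γ, ν, h1, h2, -⟩ := h
  have γ0 : γ ≠ 0 := fun h0 => pow_ne_zero 3 i (by rw [h1, h0]; simp)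
  refine hu.of_eq (norm_ne γ0) (κ₀ := star γ) ?_
  rw [← map_intCast (eb hδ), ← eq_intCast (algebraMap ℤ (QuadraticAlgebra ℤ a b)),
    algebraMap_norm_eq_mul_star, map_mul]
  linear_combination eb hδ (star γ) * ξ' * h2

lemma Dt.swap (h : Dt hδ I ξ) (hu : Mem hδ ξ u) : Mem hδ (ξ ^ 2) u.swap := by
  obtain ⟨i, γ, ν, -, h2, h3, -⟩ := h
  have a1 : (eb hδ γ).1 * ξ.1 ^ 3 = 1 := congrArg Prod.fst h2
  have a2 : (eb hδ γ).2 * ξ.2 ^ 3 = 1 := congrArg Prod.snd h2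
  refine hu.swap.of_eq (k := ν) (fun h => by simp [h] at h3) (κ₀ := γ) (Prod.ext ?_ ?_)
  · change ν * ξ.2 = (eb hδ γ).1 * ξ.1 ^ 2
    linear_combination (eb hδ γ).1 * ξ.1 ^ 2 * h3 - ν * ξ.2 * a1
  · change ν * ξ.1 = (eb hδ γ).2 * ξ.2 ^ 2
    linear_combination (eb hδ γ).2 * ξ.2 ^ 2 * h3 - ν * ξ.1 * a2

lemma Dt.cube (h : Dt hδ I ξ) (hu : Mem hδ ξ u) : ∃ β, u ^ 3 = eb hδ β :=
  (h.red (ξ' := 1) (by convert (hu.mul hu).mul hu using 1 <;> ring)).one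

lemma Dt.norm (δ0 : δ ≠ 0) (h : Dt hδ I ξ) (hu : Mem hδ ξ u) (u0 : u ≠ 0) :
    ∃ n : ℤ, n ≠ 0 ∧ n = u.1 * u.2 := by
  obtain ⟨β, hβ⟩ := (h.red (ξ' := 1) (by convert hu.mul (h.swap hu) using 1; ring)).one
  have e1 : u.1 * u.2 = (eb hδ β).1 := congrArg Prod.fst hβ
  have e2 : u.2 * u.1 = (eb hδ β).2 := congrArg Prod.snd hβ
  have e3 := eb_sub hδ β
  rw [← e1, ← e2, mul_comm, sub_self, eq_comm, mul_eq_zero, Int.cast_eq_zero, or_iff_left δ0] at e3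
  have e4 : (β.re : ℂ) = u.1 * u.2 := by rw [e1]; simp [eb, ec, e3]
  refine ⟨β.re, fun h0 => ?_, e4⟩
  obtain ⟨-, κ, m, m0, e⟩ := hu
  obtain ⟨-, γ, ν, -, -, h3, -⟩ := h
  have κ0 : κ ≠ 0 := by
    rintro rfl
    exact u0 (cast_cancel m0 (by rw [e]; simp))
  have a1 : m * u.1 = (eb hδ κ).1 * ξ.1 := congrArg Prod.fst e
  have a2 : m * u.2 = (eb hδ κ).2 * ξ.2 := congrArg Prod.snd e
  rw [h0, Int.cast_zero] at e4
  apply mul_ne_zero (eb_ne (hδ := hδ) κ0).1 (eb_ne (hδ := hδ) κ0).2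
  linear_combination -(eb hδ κ).1 * (eb hδ κ).2 * h3 - ν * (eb hδ κ).2 * ξ.2 * a1 - ν * m * u.1 * a2 -
    ν * m ^ 2 * e4

lemma Dt.one_le (δ0 : δ ≠ 0) (h : Dt hδ I ξ) (hu : Mem hδ ξ u) (u0 : u ≠ 0) : 1 ≤ ‖u‖ := by
  obtain ⟨n, n0, e⟩ := h.norm δ0 hu u0
  refine le_of_sq_le_sq (le_trans (by exact_mod_cast Int.one_le_abs n0 : _ ≤ |(n : ℝ)|) ?_) (norm_nonneg _)
  rw [← Complex.norm_intCast, e, norm_mul, pow_two]
  exact mul_le_mul (norm_fst_le _) (norm_snd_le _) (norm_nonneg _) (norm_nonneg _)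

lemma Dt.cls (h : Dt hδ I ξ) (h' : Dt hδ I' ξ') (hu : Mem hδ ξ u) (hu' : Mem hδ ξ' u') (u0 : u ≠ 0)
    (u0' : u' ≠ 0) {P P' : ℤ} (P0 : P ≠ 0) (P0' : P' ≠ 0) (e₀ : P ^ 3 * u' ^ 3 = P' ^ 3 * u ^ 3) :
    ClassGroup.mk0 ⟨I, mem_nonZeroDivisors_of_ne_zero h.1⟩ =
      ClassGroup.mk0 ⟨I', mem_nonZeroDivisors_of_ne_zero h'.1⟩ := by
  obtain ⟨-, κ, m, m0, e⟩ := hu
  obtain ⟨-, κ', m', m0', e'⟩ := hu'
  obtain ⟨i, γ, ν, h1, h2, -⟩ := h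
  obtain ⟨i', γ', ν', h1', h2', -⟩ := h'
  have κ0 : κ ≠ 0 := by
    rintro rfl
    exact u0 (cast_cancel m0 (by rw [e]; simp))
  have κ0' : κ' ≠ 0 := by
    rintro rfl
    exact u0' (cast_cancel m0' (by rw [e']; simp))
  have c1 : eb hδ κ ^ 3 = eb hδ γ * (m * u) ^ 3 := by rw [e]; linear_combination -eb hδ κ ^ 3 * h2
  have c2 : eb hδ κ' ^ 3 = eb hδ γ' * (m' * u') ^ 3 := by rw [e']; linear_combination -eb hδ κ' ^ 3 * h2'
  have c3 : (P * m * κ') ^ 3 * γ = (P' * m' * κ) ^ 3 * γ' := eb_inj (hδ := hδ) (by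
    simp only [map_mul, map_pow, map_intCast, mul_pow, c1, c2]
    linear_combination (m ^ 3 * m' ^ 3 * eb hδ γ * eb hδ γ') * e₀)
  refine ClassGroup.mk0_eq_mk0_iff.2 ⟨P * m * κ', P' * m' * κ, ?_, ?_, pow_left_injective three_ne_zero ?_⟩
  · exact mul_ne_zero (by exact_mod_cast mul_ne_zero P0 m0) κ0'
  · exact mul_ne_zero (by exact_mod_cast mul_ne_zero P0' m0') κ0
  · simp only [mul_pow, h1, h1', span_singleton_pow, span_singleton_mul_span_singleton]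
    rw [← mul_pow, ← mul_pow, c3, mul_pow, mul_pow]

lemma Dt.ne (δ0 : δ ≠ 0) (h : Dt hδ I ξ) (hu : Mem hδ ξ u) (u0 : u ≠ 0)
    (hc : ClassGroup.mk0 ⟨I, mem_nonZeroDivisors_of_ne_zero h.1⟩ ≠ 1) : u.1 ^ 3 ≠ u.2 ^ 3 := fun he => by
  obtain ⟨n, n0, e⟩ := h.norm δ0 hu u0
  obtain ⟨β, hβ⟩ := h.cube hu
  have β0 : β ≠ 0 := by
    rintro rfl
    rw [map_zero] at hβ
    have : u.1 ^ 3 = 0 := congrArg Prod.fst hβ
    simp [pow_eq_zero_iff three_ne_zero |>.1 this, n0] at e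
  refine hc ((h.cls Dt.one hu (u' := eb hδ β) ⟨(Algebra.IsIntegral.isIntegral (R := ℤ) β).map
    (eb hδ).toIntAlgHom, β, 1, one_ne_zero, by simp⟩ u0 (fun h0 => β0 (eb_inj (h0.trans (map_zero _).symm))) one_ne_zero
    n0 ?_).trans ((ClassGroup.mk0_eq_one_iff _).2 top_isPrincipal))
  rw [← hβ]
  ext <;> simp [e]
  · linear_combination u.1 ^ 6 * he
  · linear_combination -u.2 ^ 6 * he

end Pool.Agent.MP_d0fd9b_nt.S72
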