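import Pool.Agent.MP_d0fd9b_nt.S72.Base

set_option autoImplicit false

namespace Pool.Agent.MP_d0fd9b_nt.S72

open Finset NumberField H72

lemma t4_cube {R : Type} [CommRing R] {γ δ n : R} (h : γ * δ = n ^ 3) (hc : IsCoprime γ δ) :
    Ideal.span {γ, n} ^ 3 = Ideal.span {γ} := by
  apply le_antisymm
  · rw [Ideal.span_insert, ← Ideal.add_eq_sup]
    have e : (Ideal.span {γ} + Ideal.span {n}) ^ 3 = Ideal.span {γ} * (Ideal.span {γ} ^ 2 +
        3 * Ideal.span {γ} * Ideal.span {n} + 3 * Ideal.span {n} ^ 2) + Ideal.span {n} ^ 3 := by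
      ring
    rw [e, Ideal.add_eq_sup]
    refine sup_le Ideal.mul_le_left ?_
    rw [Ideal.span_singleton_pow, Ideal.span_singleton_le_span_singleton]
    exact ⟨δ, h.symm⟩
  · rw [Ideal.span_singleton_le_iff_mem]
    obtain ⟨u, v, huv⟩ := hc.pow_left (m := 2)
    have e : γ = u * γ ^ 3 + v * n ^ 3 := by linear_combination (-γ) * huv + v * h
    have hm : u * γ ^ 3 + v * n ^ 3 ∈ Ideal.span {γ, n} ^ 3 :=
      add_mem (Ideal.mul_mem_left _ _ (Ideal.pow_mem_pow (Ideal.subset_span (by simp)) 3))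
        (Ideal.mul_mem_left _ _ (Ideal.pow_mem_pow (Ideal.subset_span (by simp)) 3))
    rwa [← e] at hm

lemma t4_conj {R : Type} [CommRing R] {γ δ n : R} (h : γ * δ = n ^ 3) (hc : IsCoprime γ δ) :
    Ideal.span {γ, n} * Ideal.span {δ, n} = Ideal.span {n} := by
  apply le_antisymm
  · rw [Ideal.span_pair_mul_span_pair, Ideal.span_le]
    intro z hz
    simp only [Set.mem_insert_iff, Set.mem_singleton_iff] at hz
    rw [SetLike.mem_coe, Ideal.mem_span_singleton]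
    rcases hz with rfl | rfl | rfl | rfl
    · exact ⟨n ^ 2, by rw [h]; ring⟩
    · exact dvd_mul_left _ _
    · exact dvd_mul_right _ _
    · exact dvd_mul_right _ _
  · rw [Ideal.span_singleton_le_iff_mem]
    obtain ⟨u, v, huv⟩ := hc
    have e : n = u * (γ * n) + v * (n * δ) := by linear_combination (-n) * huv
    have hm : u * (γ * n) + v * (n * δ) ∈ Ideal.span {γ, n} * Ideal.span {δ, n} :=
      add_mem (Ideal.mul_mem_left _ _
        (Ideal.mul_mem_mul (Ideal.subset_span (by simp)) (Ideal.subset_span (by simp))))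
        (Ideal.mul_mem_left _ _
          (Ideal.mul_mem_mul (Ideal.subset_span (by simp)) (Ideal.subset_span (by simp))))
    rwa [← e] at hm

open nonZeroDivisors in
lemma t4_nzd {R : Type} [CommRing R] [IsDedekindDomain R] (γ : R) {n : R} (hn : n ≠ 0) :
    Ideal.span {γ, n} ∈ (Ideal R)⁰ :=
  mem_nonZeroDivisors_of_ne_zero fun h => hn (by
    have : n ∈ Ideal.span {γ, n} := Ideal.subset_span (by simp)
    rw [h] at this
    simpa using this)

open nonZeroDivisors in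
lemma t4_tors {R : Type} [CommRing R] [IsDedekindDomain R] {γ δ n : R} (h : γ * δ = n ^ 3)
    (hc : IsCoprime γ δ) (hn : n ≠ 0) : ClassGroup.mk0 ⟨_, t4_nzd γ hn⟩ ^ 3 = 1 := by
  rw [← map_pow, SubmonoidClass.mk_pow, ClassGroup.mk0_eq_one_iff, t4_cube h hc]
  infer_instance

open nonZeroDivisors in
lemma t4_kappa {R : Type} [CommRing R] [IsDedekindDomain R] {γ δ n γ₀ δ₀ n₀ : R}
    (h : γ * δ = n ^ 3) (hc : IsCoprime γ δ) (hn : n ≠ 0) (h₀ : γ₀ * δ₀ = n₀ ^ 3)
    (hc₀ : IsCoprime γ₀ δ₀) (hn₀ : n₀ ≠ 0)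
    (e : ClassGroup.mk0 ⟨_, t4_nzd γ₀ hn₀⟩ = ClassGroup.mk0 ⟨_, t4_nzd γ hn⟩) :
    ∃ κ ∈ Ideal.span {γ₀, n₀}, ∃ u : Rˣ, κ ^ 3 * u = γ₀ * δ := by
  have h1 : ClassGroup.mk0 ⟨_, t4_nzd γ hn⟩ = (ClassGroup.mk0 ⟨_, t4_nzd δ hn⟩)⁻¹ :=
    ClassGroup.mk0_eq_mk0_inv_iff.2 ⟨n, hn, t4_conj h hc⟩
  obtain ⟨κ, -, hκ⟩ := ClassGroup.mk0_eq_mk0_inv_iff.1 (e.trans h1)
  replace hκ : Ideal.span {γ₀, n₀} * Ideal.span {δ, n} = Ideal.span {κ} := hκ
  have h2 : κ ∈ Ideal.span {γ₀, n₀} * Ideal.span {δ, n} := by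
    rw [hκ]; exact Ideal.mem_span_singleton_self κ
  refine ⟨κ, Ideal.mul_le_left h2, ?_⟩
  have h3 : (Ideal.span {γ₀, n₀} * Ideal.span {δ, n}) ^ 3 = Ideal.span {κ} ^ 3 := by rw [hκ]
  rw [mul_pow, t4_cube h₀ hc₀, t4_cube ((mul_comm _ _).trans h) hc.symm, Ideal.span_singleton_pow,
    Ideal.span_singleton_mul_span_singleton] at h3
  exact Ideal.span_singleton_eq_span_singleton.1 h3.symm

lemma t4_half {R : Type} [CommRing R] [IsDedekindDomain R] {g x k : R} (h2 : (2 : R) ≠ 0)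
    (h : g * g = 2 * x * g - 4 * k) : 2 ∣ g := by
  have m2 : (2 : R) ∈ Ideal.span {g, 2} := Ideal.subset_span (by simp)
  have mg : g ∈ Ideal.span {g, (2 : R)} := Ideal.subset_span (by simp)
  have hm : ∀ z ∈ Ideal.span {g, (2 : R)}, 2 * z ∈ Ideal.span {2} * Ideal.span {g, (2 : R)} :=
    fun z hz => Ideal.mul_mem_mul (Ideal.mem_span_singleton_self _) hz
  have h1 : Ideal.span {g, 2} * Ideal.span {g, 2} ≤ Ideal.span {2} * Ideal.span {g, (2 : R)} := by
    rw [Ideal.span_pair_mul_span_pair, Ideal.span_le]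
    intro z hz
    simp only [Set.mem_insert_iff, Set.mem_singleton_iff] at hz
    rw [SetLike.mem_coe]
    rcases hz with rfl | rfl | rfl | rfl
    · rw [show g * g = 2 * (x * g - k * 2) by linear_combination h]
      exact hm _ (sub_mem (Ideal.mul_mem_left _ _ mg) (Ideal.mul_mem_left _ _ m2))
    · rw [mul_comm g]; exact hm _ mg
    · exact hm _ mg
    · exact hm _ m2
  have h3 := (mul_dvd_mul_iff_right (nonZeroDivisors.ne_zero (t4_nzd g h2))).1
    (Ideal.dvd_iff_le.2 h1)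
  exact Ideal.mem_span_singleton.1 (Ideal.dvd_iff_le.1 h3 mg)

lemma t4_gamma {a b f e n x y : ℤ} [IsDedekindDomain (QuadraticAlgebra ℤ a b)] (hs : Squarefree e)
    (hb : |b| ≤ 1) (hf : f = 1 ∨ f = 2) (hD : b ^ 2 + 4 * a = f ^ 2 * e)
    (h : x ^ 2 - e * y ^ 2 = 4 * n ^ 3) :
    ∃ γ : QuadraticAlgebra ℤ a b, 2 * γ.re + b * γ.im = x ∧ f * γ.im = y := by
  have hb' : b = 0 ∨ b = 1 ∨ b = -1 := by
    have := abs_le.1 hb
    omega
  rcases hf with rfl | rfl
  · have hb2 : b ^ 2 = 1 := by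
      rcases hb' with rfl | rfl | rfl
      · have := Int.isUnit_iff.1 (hs 2 ⟨a, by linarith⟩)
        omega
      · norm_num
      · norm_num
    have h2 : (2 : ℤ) ∣ (x - b * y) ^ 2 :=
      ⟨2 * n ^ 3 + 2 * a * y ^ 2 + y ^ 2 - x * b * y, by
        linear_combination h - y ^ 2 * hD + 2 * y ^ 2 * hb2⟩
    obtain ⟨r, hr⟩ := Int.prime_two.dvd_of_dvd_pow h2
    exact ⟨⟨r, y⟩, by linarith, one_mul _⟩
  · obtain rfl : b = 0 := by
      rcases hb' with rfl | rfl | rfl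
      · rfl
      · omega
      · omega
    obtain rfl : a = e := by linarith
    have h2 : (2 : QuadraticAlgebra ℤ a 0) ≠ 0 := fun h => by
      simpa [QuadraticAlgebra.re_ofNat] using congrArg QuadraticAlgebra.re h
    obtain ⟨γ, hγ⟩ := t4_half (g := (⟨x, y⟩ : QuadraticAlgebra ℤ a 0)) (x := x) (k := (n ^ 3 : ℤ))
      h2 (by
        ext
        · simp only [QuadraticAlgebra.re_mul, QuadraticAlgebra.re_sub, QuadraticAlgebra.im_mul,
            QuadraticAlgebra.re_ofNat, QuadraticAlgebra.im_ofNat, QuadraticAlgebra.re_intCast,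
            QuadraticAlgebra.im_intCast, Int.cast_id]
          linear_combination -h
        · simp only [QuadraticAlgebra.re_mul, QuadraticAlgebra.im_sub, QuadraticAlgebra.im_mul,
            QuadraticAlgebra.re_ofNat, QuadraticAlgebra.im_ofNat, QuadraticAlgebra.re_intCast,
            QuadraticAlgebra.im_intCast, Int.cast_id]
          ring)
    refine ⟨γ, ?_, ?_⟩
    · simpa [QuadraticAlgebra.re_ofNat, QuadraticAlgebra.im_ofNat] using
        (congrArg QuadraticAlgebra.re hγ).symm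
    · simpa [QuadraticAlgebra.re_ofNat, QuadraticAlgebra.im_ofNat] using
        (congrArg QuadraticAlgebra.im hγ).symm

lemma t4_norm {a b : ℤ} (z : QuadraticAlgebra ℤ a b) :
    4 * z.norm = (2 * z.re + b * z.im) ^ 2 - (b ^ 2 + 4 * a) * z.im ^ 2 := by
  rw [QuadraticAlgebra.norm_def]; ring

lemma t4_star {a b n : ℤ} {γ : QuadraticAlgebra ℤ a b} (hn : γ.norm = n ^ 3)
    (hc : IsCoprime n (2 * γ.re + b * γ.im)) :
    γ * star γ = (n : QuadraticAlgebra ℤ a b) ^ 3 ∧ IsCoprime γ (star γ) := by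
  have h1 : γ * star γ = (n : QuadraticAlgebra ℤ a b) ^ 3 := by
    rw [← QuadraticAlgebra.algebraMap_norm_eq_mul_star, hn]; simp
  have h2 : γ + star γ = ((2 * γ.re + b * γ.im : ℤ) : QuadraticAlgebra ℤ a b) := by
    rw [← QuadraticAlgebra.algebraMap_trace_eq_add_star, QuadraticAlgebra.trace_def]; simp
  obtain ⟨u, v, huv⟩ := hc.pow_left (m := 3)
  have h3 := congrArg (Int.cast : ℤ → QuadraticAlgebra ℤ a b) huv
  rw [Int.cast_add, Int.cast_mul, Int.cast_mul, ← h2, Int.cast_pow, ← h1, Int.cast_one] at h3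
  exact ⟨h1, u * star γ + v, v, by linear_combination h3⟩

lemma t4_int {a b n k : ℤ} {γ : QuadraticAlgebra ℤ a b} (hn : γ.norm = n ^ 3)
    (hc : IsCoprime n (2 * γ.re + b * γ.im))
    (hk : (k : QuadraticAlgebra ℤ a b) ∈ Ideal.span {γ, (n : QuadraticAlgebra ℤ a b)}) : n ∣ k := by
  obtain ⟨α, β, h⟩ := Ideal.mem_span_pair.1 hk
  have h1 : (n : QuadraticAlgebra ℤ a b) ∣ k * star γ :=
    ⟨α * n ^ 2 + β * star γ, by linear_combination α * (t4_star hn hc).1 - star γ * h⟩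
  obtain ⟨z, hz⟩ := h1
  have h2 := congrArg QuadraticAlgebra.re hz
  have h3 := congrArg QuadraticAlgebra.im hz
  simp only [QuadraticAlgebra.re_mul, QuadraticAlgebra.im_mul, QuadraticAlgebra.re_star,
    QuadraticAlgebra.im_star, QuadraticAlgebra.re_intCast, QuadraticAlgebra.im_intCast,
    Int.cast_id] at h2 h3
  exact hc.dvd_of_dvd_mul_right ⟨2 * z.re + b * z.im, by linear_combination 2 * h2 + b * h3⟩

theorem rep_le {e : ℤ} (hs : Squarefree e) (he : e < 0) {A : ℝ} (hA : 0 ≤ A)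
    (S : Finset (ℤ × ℤ × ℤ))
    (hS : ∀ t ∈ S, 0 < t.1 ∧ (t.1 : ℝ) ≤ A ∧ IsCoprime t.1 t.2.1 ∧
      t.2.1 ^ 2 - e * t.2.2 ^ 2 = 4 * t.1 ^ 3) :
    (#S : ℝ) ≤ 1000 * torsion 3 e * (1 + A / √|(e : ℝ)|) := by
  classical
  obtain ⟨a, b, f, _, _, hb, hf, hD, ht⟩ := torsion_eq hs (by omega) 3
  have hb' := abs_le.1 hb
  have hDe : b ^ 2 + 4 * a ≤ e := by
    rw [hD]; rcases hf with rfl | rfl <;> linarith
  have hex : ∀ t : ℤ × ℤ × ℤ, ∃ γ : QuadraticAlgebra ℤ a b, t ∈ S →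
      2 * γ.re + b * γ.im = t.2.1 ∧ f * γ.im = t.2.2 := fun t => by
    by_cases h : t ∈ S
    · obtain ⟨γ, hγ⟩ := t4_gamma hs hb hf hD (hS t h).2.2.2
      exact ⟨γ, fun _ => hγ⟩
    · exact ⟨0, fun h' => absurd h' h⟩
  choose γ hγ using hex
  have hN : ∀ t ∈ S, (γ t).norm = t.1 ^ 3 := fun t h => by
    have h1 := t4_norm (γ t)
    rw [(hγ t h).1, hD] at h1
    have h2 := (hS t h).2.2.2
    rw [← (hγ t h).2] at h2
    linarith
  have hC : ∀ t ∈ S, IsCoprime t.1 (2 * (γ t).re + b * (γ t).im) := fun t h => by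
    rw [(hγ t h).1]; exact (hS t h).2.2.1
  have h0 : ∀ t ∈ S, ((t.1 : ℤ) : QuadraticAlgebra ℤ a b) ≠ 0 := fun t h h' => by
    have := congrArg QuadraticAlgebra.re h'
    have := (hS t h).1
    simp at *
    omega
  let cl : ℤ × ℤ × ℤ → ClassGroup (QuadraticAlgebra ℤ a b) := fun t =>
    if h : t ∈ S then ClassGroup.mk0 ⟨_, t4_nzd (γ t) (h0 t h)⟩ else 1
  have := Fintype.ofFinite (ClassGroup (QuadraticAlgebra ℤ a b))
  have hpos : 0 < √|(e : ℝ)| := Real.sqrt_pos.2 (abs_pos.2 (by exact_mod_cast he.ne))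
  set M : ℕ := ⌊2 * A / √|(e : ℝ)|⌋₊ with hM
  have key : #S ≤ (75 * (2 * M + 1)) *
      #(univ.filter fun c : ClassGroup (QuadraticAlgebra ℤ a b) => c ^ 3 = 1) := by
    refine card_le_mul_card_image_of_maps_to (f := cl) (fun t h => ?_) _ fun c _ => ?_
    · simp only [cl, dif_pos h, mem_filter, mem_univ, true_and]
      exact t4_tors (t4_star (hN t h) (hC t h)).1 (t4_star (hN t h) (hC t h)).2 (h0 t h)
    rcases (S.filter fun t => cl t = c).eq_empty_or_nonempty with hT | hT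
    · rw [hT]; simp
    obtain ⟨t₀, ht₀, hmax⟩ := exists_max_image _ (fun t : ℤ × ℤ × ℤ => t.1) hT
    obtain ⟨m₀, c₀⟩ := mem_filter.1 ht₀
    have hex : ∀ t : ℤ × ℤ × ℤ, ∃ κ u : QuadraticAlgebra ℤ a b, t ∈ S.filter (fun t => cl t = c) →
        κ ∈ Ideal.span {γ t₀, ((t₀.1 : ℤ) : QuadraticAlgebra ℤ a b)} ∧
        κ ^ 3 * u = γ t₀ * star (γ t) ∧ u.norm = 1 ∧ κ.norm = t₀.1 * t.1 := fun t => by
      by_cases h : t ∈ S.filter (fun t => cl t = c)
      swap
      · exact ⟨0, 0, fun h' => absurd h' h⟩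
      obtain ⟨m, c₁⟩ := mem_filter.1 h
      obtain ⟨κ, hκ, u, hu⟩ := t4_kappa (t4_star (hN t m) (hC t m)).1 (t4_star (hN t m) (hC t m)).2
        (h0 t m) (t4_star (hN t₀ m₀) (hC t₀ m₀)).1 (t4_star (hN t₀ m₀) (hC t₀ m₀)).2 (h0 t₀ m₀)
        (by simpa only [cl, dif_pos m, dif_pos m₀] using c₀.trans c₁.symm)
      have hu1 : (u : QuadraticAlgebra ℤ a b).norm = 1 := by
        have h1 := Int.isUnit_iff.1 (QuadraticAlgebra.isUnit_iff_norm_isUnit.1 u.isUnit)
        have h2 := t4_norm (u : QuadraticAlgebra ℤ a b)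
        have h3 : 0 ≤ (u : QuadraticAlgebra ℤ a b).norm := by
          nlinarith [sq_nonneg (2 * (u : QuadraticAlgebra ℤ a b).re +
            b * (u : QuadraticAlgebra ℤ a b).im), sq_nonneg (u : QuadraticAlgebra ℤ a b).im]
        omega
      refine ⟨κ, u, fun _ => ⟨hκ, hu, hu1, ?_⟩⟩
      have h4 := congrArg QuadraticAlgebra.norm hu
      rw [map_mul, map_mul, map_pow, hu1, mul_one, QuadraticAlgebra.norm_star, hN t m, hN t₀ m₀,
        ← mul_pow] at h4
      exact (Odd.pow_inj (by decide)).1 h4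
    choose κ u hκ using hex
    have n₀ := (hS t₀ m₀).1
    have hbd : ∀ t ∈ S.filter (fun t => cl t = c),
        (2 * (κ t).re + b * (κ t).im) ^ 2 - e * (κ t).im ^ 2 ≤ (2 * t₀.1) ^ 2 := fun t h => by
      have h1 := t4_norm (κ t)
      rw [(hκ t h).2.2.2] at h1
      have h2 : t.1 ≤ t₀.1 := hmax t h
      nlinarith [sq_nonneg (κ t).im]
    have hab : ∀ t ∈ S.filter (fun t => cl t = c),
        |2 * (κ t).re + b * (κ t).im| ≤ 2 * t₀.1 := fun t h =>
      abs_le_of_sq_le_sq' (by nlinarith [hbd t h, sq_nonneg (κ t).im]) (by omega) |> abs_le.2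
    refine (card_le_card_of_injOn (t := Icc (-(M : ℤ)) M ×ˢ Icc (0 : ℤ) 2 ×ˢ Icc (-2 : ℤ) 2 ×ˢ
      Icc (-2 : ℤ) 2) (fun t => ((κ t).im, (2 * (κ t).re + b * (κ t).im + 2 * t₀.1) / (2 * t₀.1),
        (u t).re, (u t).im)) (fun t h => ?_) fun t h t' h' hh => ?_).trans ?_
    · replace h := mem_coe.1 h
      have h1 := t4_norm (u t)
      rw [(hκ t h).2.2.1] at h1
      have h2 : |(u t).im| ≤ 2 := abs_le.2 (abs_le_of_sq_le_sq' (by
        nlinarith [sq_nonneg (2 * (u t).re + b * (u t).im), sq_nonneg (u t).im]) (by norm_num))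
      have h3 : |2 * (u t).re + b * (u t).im| ≤ 2 := abs_le.2 (abs_le_of_sq_le_sq' (by
        nlinarith [sq_nonneg (u t).im]) (by norm_num))
      have h4 : |b * (u t).im| ≤ 2 := by
        rw [abs_mul]; nlinarith [abs_nonneg b, abs_nonneg (u t).im]
      have h5 := abs_le.1 (hab t h)
      have h6 : |(κ t).im| ≤ M := by
        have h7 : (((κ t).im.natAbs : ℕ) : ℝ) ≤ 2 * A / √|(e : ℝ)| := by
          rw [le_div_iff₀ hpos]
          refine abs_le_of_sq_le_sq' ?_ (by positivity) |>.2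
          rw [mul_pow, Real.sq_sqrt (abs_nonneg _), abs_of_neg (by exact_mod_cast he),
            Nat.cast_natAbs, Int.cast_abs, sq_abs]
          have h8 : (κ t).im ^ 2 * -e ≤ (2 * t₀.1) ^ 2 := by
            nlinarith [hbd t h, sq_nonneg (2 * (κ t).re + b * (κ t).im)]
          have h9 : ((κ t).im : ℝ) ^ 2 * -(e : ℝ) ≤ (2 * t₀.1) ^ 2 := by exact_mod_cast h8
          have h10 := (hS t₀ m₀).2.1
          have h11 : (0 : ℝ) < t₀.1 := by exact_mod_cast n₀
          nlinarith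
        have h8 := Nat.le_floor h7
        rw [← hM] at h8
        rw [← Int.natCast_natAbs]
        exact_mod_cast h8
      have h7 := abs_le.1 h2
      have h8 := abs_le.1 h3
      have h9 := abs_le.1 h4
      simp only [coe_product, Set.mem_prod, mem_coe, mem_Icc]
      refine ⟨abs_le.1 h6, ⟨Int.ediv_nonneg (by omega) (by omega), ?_⟩, by omega, h7⟩
      exact Int.ediv_le_of_le_mul (by omega) (by omega)
    · replace h := mem_coe.1 h
      replace h' := mem_coe.1 h'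
      simp only [Prod.mk.injEq] at hh
      obtain ⟨e1, e2, e3, e4⟩ := hh
      have e5 : u t = u t' := QuadraticAlgebra.ext e3 e4
      have h1 : t₀.1 ∣ (κ t).re - (κ t').re := t4_int (hN t₀ m₀) (hC t₀ m₀) (by
        have h2 := sub_mem (hκ t h).1 (hκ t' h').1
        rwa [show κ t - κ t' = (((κ t).re - (κ t').re : ℤ) : QuadraticAlgebra ℤ a b) by
          ext <;> simp [e1]] at h2)
      have e6 : (κ t).re = (κ t').re := by
        have p1 := Int.emod_add_mul_ediv (2 * (κ t).re + b * (κ t).im + 2 * t₀.1) (2 * t₀.1)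
        have p2 := Int.emod_add_mul_ediv (2 * (κ t').re + b * (κ t').im + 2 * t₀.1) (2 * t₀.1)
        have q1 := Int.emod_nonneg (2 * (κ t).re + b * (κ t).im + 2 * t₀.1)
          (b := 2 * t₀.1) (by omega)
        have q2 := Int.emod_nonneg (2 * (κ t').re + b * (κ t').im + 2 * t₀.1)
          (b := 2 * t₀.1) (by omega)
        have r1 := Int.emod_lt_of_pos (2 * (κ t).re + b * (κ t).im + 2 * t₀.1)
          (b := 2 * t₀.1) (by omega)
        have r2 := Int.emod_lt_of_pos (2 * (κ t').re + b * (κ t').im + 2 * t₀.1)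
          (b := 2 * t₀.1) (by omega)
        rw [e2] at p1
        rw [e1] at p1 q1 r1
        refine sub_eq_zero.1 (Int.eq_zero_of_abs_lt_dvd h1 (abs_lt.2 ⟨?_, ?_⟩)) <;> linarith
      have e7 : κ t = κ t' := QuadraticAlgebra.ext e6 e1
      have g0 : γ t₀ ≠ 0 := fun g => by
        have := hN t₀ m₀
        rw [g, QuadraticAlgebra.norm_zero] at this
        exact (pow_pos n₀ 3).ne this
      have e8 : γ t = γ t' := star_injective (mul_left_cancel₀ g0 (by
        rw [← (hκ t h).2.1, ← (hκ t' h').2.1, e5, e7]))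
      have m := (mem_filter.1 h).1
      have m' := (mem_filter.1 h').1
      refine Prod.ext ?_ (Prod.ext ?_ ?_)
      · exact (Odd.pow_inj (by decide : Odd 3)).1 (by rw [← hN t m, ← hN t' m', e8])
      · rw [← (hγ t m).1, ← (hγ t' m').1, e8]
      · rw [← (hγ t m).2, ← (hγ t' m').2, e8]
    · have hM' : ((M : ℤ) + 1 - -(M : ℤ)).toNat = 2 * M + 1 := by omega
      simp only [card_product, Int.card_Icc, hM']
      exact le_of_eq (mul_comm _ _)
  have hT : torsion 3 e =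
      #(univ.filter fun c : ClassGroup (QuadraticAlgebra ℤ a b) => c ^ 3 = 1) := by
    rw [ht, Nat.card_eq_fintype_card, Fintype.card_subtype]
  rw [← hT] at key
  have k1 : (#S : ℝ) ≤ 75 * (2 * M + 1) * torsion 3 e := by exact_mod_cast key
  have k2 : (M : ℝ) ≤ 2 * A / √|(e : ℝ)| := Nat.floor_le (by positivity)
  rw [mul_div_assoc] at k2
  have k3 : 0 ≤ A / √|(e : ℝ)| := by positivity
  have k4 : (0 : ℝ) ≤ torsion 3 e := Nat.cast_nonneg _
  nlinarith [mul_nonneg k4 k3, mul_le_mul_of_nonneg_left k2 k4]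

end Pool.Agent.MP_d0fd9b_nt.S72
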