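import Pool.Agent.MP_d0fd9b_nt.S72.Base

set_option autoImplicit false

namespace Pool.Agent.MP_d0fd9b_nt.S72

open Finset NumberField H72

lemma t6_abs {M M₀ : Type} [AddCommGroup M] [Module.Finite ℤ M] [AddCommGroup M₀]
    [Module.Finite ℤ M₀] (s : M →ₗ[ℤ] M) (h3 : ∀ x, s (s (s x)) = x)
    (ht : ∀ (x : M) (n : ℤ), n ≠ 0 → n • x = 0 → (2 : ℤ) • x = 0)
    (hr : 4 ≤ Module.finrank ℤ M) (j : M₀ →ₗ[ℤ] M) (h0 : Module.finrank ℤ M₀ ≤ 1)
    (hj : ∀ x, s x = x → ∃ y, j y = x) :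
    ∃ x, x + s x + s (s x) = 0 ∧ ∀ u, x + s u ≠ u := by
  classical
  by_contra hcon
  push Not at hcon
  set N : M →ₗ[ℤ] M := (2 : ℤ) • (LinearMap.id + s + s ∘ₗ s) with hN
  have hNa : ∀ x, N x = (2 : ℤ) • (x + s x + s (s x)) := fun x => rfl
  have hP : LinearMap.range N ≤ LinearMap.range j := by
    rintro _ ⟨x, rfl⟩
    apply hj
    rw [hNa, map_zsmul, map_add, map_add, h3]
    abel
  have hP1 : Module.finrank ℤ (LinearMap.range N) ≤ 1 :=
    (Submodule.finrank_mono hP).trans ((LinearMap.finrank_range_le j).trans h0)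
  have : Module.IsTorsionFree ℤ (LinearMap.range N) := by
    refine Module.IsTorsionFree.of_smul_eq_zero fun r m h => ?_
    by_cases hr0 : r = 0
    · exact Or.inl hr0
    · right
      obtain ⟨_, x, rfl⟩ := m
      apply Subtype.ext
      have h' : r • N x = 0 := congrArg Subtype.val h
      rw [hNa, smul_smul] at h'
      have := ht _ _ (mul_ne_zero hr0 two_ne_zero) h'
      simpa [hNa] using this
  obtain ⟨⟨_, e, rfl⟩, he⟩ := finrank_le_one_iff.1 hP1
  set A : Submodule ℤ M := LinearMap.ker (LinearMap.id + s + s ∘ₗ s) with hA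
  have hmem : ∀ x, x ∈ A ↔ x + s x + s (s x) = 0 := fun x => by simp [hA]
  have h2 : ∀ x, ∃ k : ℤ, (2 : ℤ) • x - k • ((2 : ℤ) • e) ∈ A := fun x => by
    obtain ⟨k, hk⟩ := he ⟨N x, x, rfl⟩
    have hk' : k • N e = N x := congrArg Subtype.val hk
    refine ⟨k, (hmem _).2 ?_⟩
    rw [hNa, hNa] at hk'
    simp only [map_sub, map_zsmul]
    linear_combination (norm := module) -hk'
  set w : M := (2 : ℤ) • e - s ((2 : ℤ) • e) with hw
  have h4 : ∀ x ∈ A, ∃ (k : ℤ) (a : M), a ∈ A ∧ (2 : ℤ) • x = k • w + (a - s a) := fun x hx => by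
    obtain ⟨u, hu⟩ := hcon x ((hmem x).1 hx)
    obtain ⟨k, hk⟩ := h2 u
    refine ⟨k, _, hk, ?_⟩
    have : x = u - s u := eq_sub_of_add_eq hu
    rw [this, hw]
    simp only [map_sub, map_zsmul]
    module
  set B : Submodule ℤ M := Submodule.span ℤ {w, s w} with hB
  have h5 : ∀ x ∈ A, ∃ a ∈ A, x - (3 : ℤ) • a ∈ B := fun x hx => by
    obtain ⟨k, a, ha, h1⟩ := h4 x hx
    obtain ⟨k', a', ha', h1'⟩ := h4 a ha
    have hs : s a' ∈ A := by
      rw [hmem] at ha' ⊢
      rw [h3, ← ha']; abel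
    refine ⟨-x - s a', A.sub_mem (A.neg_mem hx) hs, ?_⟩
    have h6 : (2 : ℤ) • s a = k' • s w + (s a' - s (s a')) := by
      have := congrArg s h1'
      simpa only [map_add, map_sub, map_zsmul] using this
    have h7 := (hmem _).1 ha'
    have : x - (3 : ℤ) • (-x - s a') = (2 * k + k') • w + (-k') • s w := by
      linear_combination (norm := module) (2 : ℤ) • h1 + h1' - h6 + h7
    rw [this]
    exact B.add_mem (B.smul_mem _ (Submodule.subset_span (by simp)))
      (B.smul_mem _ (Submodule.subset_span (by simp)))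
  obtain ⟨r, hr1, hr2⟩ := Submodule.exists_sub_one_mem_and_smul_eq_zero_of_fg_of_le_smul
    (Ideal.span {(3 : ℤ)}) (A.map B.mkQ) (IsNoetherian.noetherian _) (by
      rintro _ ⟨x, hx, rfl⟩
      obtain ⟨a, ha, h⟩ := h5 x hx
      have : B.mkQ x = (3 : ℤ) • B.mkQ a := by
        rw [← map_zsmul, ← sub_eq_zero, ← map_sub]
        exact (Submodule.Quotient.mk_eq_zero B).2 h
      rw [this]
      exact Submodule.smul_mem_smul (Ideal.mem_span_singleton_self _) ⟨a, ha, rfl⟩)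
  have hr0 : r ≠ 0 := by
    rintro rfl
    rw [Ideal.mem_span_singleton] at hr1
    omega
  have h8 : ∀ x, (r * 2) • x ∈ Submodule.span ℤ (({e, w, s w} : Finset M) : Set M) := fun x => by
    obtain ⟨k, hk⟩ := h2 x
    have h9 := hr2 _ ⟨_, hk, rfl⟩
    rw [← map_zsmul, Submodule.mkQ_apply, Submodule.Quotient.mk_eq_zero] at h9
    have h10 : B ≤ Submodule.span ℤ (({e, w, s w} : Finset M) : Set M) :=
      Submodule.span_mono (by intro y hy; simp at hy ⊢; tauto)
    have : (r * 2) • x = r • ((2 : ℤ) • x - k • ((2 : ℤ) • e)) + (r * k * 2) • e := by module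
    rw [this]
    exact Submodule.add_mem _ (h10 h9) (Submodule.smul_mem _ _ (Submodule.subset_span (by simp)))
  obtain ⟨f, hf⟩ := exists_linearIndependent_of_le_finrank hr
  have hf' : LinearIndependent ℤ fun i => (r * 2) • f i := by
    rw [Fintype.linearIndependent_iff] at hf ⊢
    intro g hg i
    have := hf (fun i => g i * (r * 2)) (by simpa only [mul_smul] using hg) i
    exact (mul_eq_zero.1 this).resolve_right (mul_ne_zero hr0 two_ne_zero)
  have := linearIndependent_le_span_aux' _ hf' (({e, w, s w} : Finset M) : Set M) (by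
    rintro _ ⟨i, rfl⟩; exact h8 _)
  have h11 : #({e, w, s w} : Finset M) ≤ 3 := card_le_three
  simp only [Fintype.card_fin, coe_sort_coe, Fintype.card_coe] at this
  omega

/-- the map on units induced by a field homomorphism -/
noncomputable def t6_map {K L : Type} [Field K] [Field L] (f : K →+* L) :
    Additive (𝓞 K)ˣ →ₗ[ℤ] Additive (𝓞 L)ˣ :=
  (MonoidHom.toAdditive (Units.map (RingOfIntegers.mapRingHom f).toMonoidHom)).toIntLinearMap

lemma t6_map_coe {K L : Type} [Field K] [Field L] (f : K →+* L) (x : Additive (𝓞 K)ˣ) :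
    (((t6_map f x).toMul : 𝓞 L) : L) = f ((x.toMul : 𝓞 K) : K) := rfl

lemma t6_ext {K : Type} [Field K] {x y : Additive (𝓞 K)ˣ}
    (h : ((x.toMul : 𝓞 K) : K) = ((y.toMul : 𝓞 K) : K)) : x = y :=
  Additive.toMul.injective (Units.ext (RingOfIntegers.ext h))

lemma t6_unit {K : Type} [Field K] {u w : K} (hu : IsIntegral ℤ u) (hw : IsIntegral ℤ w)
    (h : u * w = 1) : ∃ x : Additive (𝓞 K)ˣ, ((x.toMul : 𝓞 K) : K) = u :=
  ⟨Additive.ofMul ⟨⟨u, hu⟩, ⟨w, hw⟩, RingOfIntegers.ext h,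
    RingOfIntegers.ext ((mul_comm _ _).trans h)⟩, rfl⟩

lemma t6_add {K : Type} [Field K] (x y : Additive (𝓞 K)ˣ) :
    (((x + y).toMul : 𝓞 K) : K) = ((x.toMul : 𝓞 K) : K) * ((y.toMul : 𝓞 K) : K) := rfl

lemma t6_tors {H : Type} [Field H] [NumberField H] [IsTotallyReal H] (x : Additive (𝓞 H)ˣ) (n : ℤ)
    (hn : n ≠ 0) (h : n • x = 0) : (2 : ℤ) • x = 0 := by
  obtain ⟨w⟩ : Nonempty (InfinitePlace H) := inferInstance
  let φ : H →+* ℝ := InfinitePlace.embedding_of_isReal (IsTotallyReal.isReal w)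
  let ψ : (𝓞 H)ˣ →* ℝˣ := Units.map (φ.comp (algebraMap (𝓞 H) H)).toMonoidHom
  have hψ : Function.Injective ψ := Units.map_injective
    (φ.injective.comp (RingOfIntegers.coe_injective))
  have h1 : x.toMul ^ n = 1 := congrArg Additive.toMul h
  have h2 : ((ψ x.toMul : ℝˣ) : ℝ) ^ n = 1 := by
    rw [← Units.val_zpow_eq_zpow_val, ← map_zpow, h1, map_one, Units.val_one]
  have h3 : |((ψ x.toMul : ℝˣ) : ℝ)| = 1 := by
    rcases (zpow_eq_one_iff_of_ne_zero₀ hn).1 h2 with h | ⟨h, -⟩ <;> rw [h] <;> simp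
  apply Additive.toMul.injective
  apply hψ
  change ψ (x.toMul ^ (2 : ℤ)) = ψ 1
  rw [map_zpow, map_one]
  apply Units.ext
  rw [Units.val_zpow_eq_zpow_val, Units.val_one, zpow_two, ← abs_mul_abs_self, h3, one_mul]

theorem exists_unit (H : Type) [Field H] [NumberField H] [IsTotallyReal H]
    (h6 : Module.finrank ℚ H = 6) (σ : H ≃ₐ[ℚ] H) (h3 : ∀ z, σ (σ (σ z)) = z) (h1 : σ ≠ 1) :
    ∃ η : H, IsIntegral ℤ η ∧ η * σ η * σ (σ η) = 1 ∧
      ∀ u w : H, IsIntegral ℤ u → IsIntegral ℤ w → u * w = 1 → η * σ u ≠ u := by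
  let K : IntermediateField ℚ H := IntermediateField.fixedField (Subgroup.zpowers σ)
  have hK3 : Module.finrank K H = 3 := by
    rw [IntermediateField.finrank_fixedField_eq_card, Nat.card_zpowers]
    have : Fact (Nat.Prime 3) := ⟨Nat.prime_three⟩
    apply orderOf_eq_prime _ h1
    ext z
    simpa [pow_succ] using h3 z
  have hK2 : Module.finrank ℚ K = 2 := by
    have := Module.finrank_mul_finrank ℚ K H
    rw [hK3, h6] at this
    omega
  have hr : 4 ≤ Module.finrank ℤ (Additive (𝓞 H)ˣ) := by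
    rw [Units.finrank_eq, Units.rank, InfinitePlace.card_eq_nrRealPlaces_add_nrComplexPlaces,
      ← IsTotallyReal.finrank, h6]
    omega
  have h0 : Module.finrank ℤ (Additive (𝓞 K)ˣ) ≤ 1 := by
    rw [Units.finrank_eq, Units.rank, InfinitePlace.card_eq_nrRealPlaces_add_nrComplexPlaces]
    have := InfinitePlace.card_add_two_mul_card_eq_rank K
    omega
  have hfix : ∀ z : H, σ z = z → z ∈ K := fun z hz => by
    rw [IntermediateField.mem_fixedField_iff]
    rintro _ ⟨n, rfl⟩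
    exact (MulAction.mem_stabilizer_iff.1
      (Subgroup.zpow_mem (MulAction.stabilizer (H ≃ₐ[ℚ] H) z) hz n))
  obtain ⟨x, hx, hx'⟩ := t6_abs (t6_map (σ : H →+* H)) (fun x => t6_ext (h3 _)) t6_tors hr
    (t6_map (algebraMap K H)) h0 (fun x hx => by
      have hu : σ ((x.toMul : 𝓞 H) : H) = ((x.toMul : 𝓞 H) : H) :=
        congrArg (fun y : Additive (𝓞 H)ˣ => ((y.toMul : 𝓞 H) : H)) hx
      have hx2 : t6_map (σ : H →+* H) (-x) = -x := by rw [map_neg, hx]
      have hw : σ (((-x).toMul : 𝓞 H) : H) = (((-x).toMul : 𝓞 H) : H) :=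
        congrArg (fun y : Additive (𝓞 H)ˣ => ((y.toMul : 𝓞 H) : H)) hx2
      obtain ⟨y, hy⟩ := t6_unit (K := K) (u := ⟨_, hfix _ hu⟩) (w := ⟨_, hfix _ hw⟩)
        ((isIntegral_algebraMap_iff (algebraMap K H).injective).1 (x.toMul : 𝓞 H).isIntegral_coe)
        ((isIntegral_algebraMap_iff (algebraMap K H).injective).1
          ((-x).toMul : 𝓞 H).isIntegral_coe)
        (Subtype.ext (by
          have := t6_add x (-x)
          rw [add_neg_cancel] at this
          exact this.symm))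
      exact ⟨y, t6_ext (by rw [t6_map_coe, hy]; rfl)⟩)
  refine ⟨((x.toMul : 𝓞 H) : H), (x.toMul : 𝓞 H).isIntegral_coe,
    congrArg (fun y : Additive (𝓞 H)ˣ => ((y.toMul : 𝓞 H) : H)) hx, fun u w hu hw huw h => ?_⟩
  obtain ⟨y, rfl⟩ := t6_unit hu hw huw
  exact hx' y (t6_ext h)

end Pool.Agent.MP_d0fd9b_nt.S72
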